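import Pool.Agent.Run7.h522.BM.Step

/-!
# The boundary values near a point and the value of the L-function at the same scale
-/

set_option autoImplicit false

namespace Run7.h522.BM

open NumberField IsDedekindDomain Filter Topology Pool.Agent.H921R2.TatePole
  Pool.Agent.W350.Edge Pool.Agent.W350.EdgeV Pool.Agent.W350.EdgeNF Pool.Agent.TH958.BV
  MeasureTheory
open scoped ENNReal

section primes

open Finset

/-- The coefficients of the function at the height `y`. -/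
noncomputable def sh (a : ℕ → ℂ) (y : ℝ) (p : ℕ) : ℂ := Complex.exp (-(y * Real.log p)) * a p

lemma term_sh (a : ℕ → ℂ) (y τ : ℝ) (p : ℕ) :
    term (sh a y) τ p = Complex.exp (-(y * Real.log p)) * term a τ p := by
  unfold term sh
  split_ifs
  · ring
  · simp

lemma norm_exp_sh (y : ℝ) (p : ℕ) :
    ‖Complex.exp (-((y : ℂ) * (Real.log p : ℂ)))‖ = Real.exp (-(y * Real.log p)) := by
  rw [Complex.norm_exp]
  congr 1
  rw [← Complex.ofReal_mul, ← Complex.ofReal_neg, Complex.ofReal_re]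

lemma norm_sml_sh {a : ℕ → ℂ} {D : ℝ} (hD : 0 ≤ D) (ha : ∀ p, ‖a p‖ ≤ D) {y : ℝ} (hy : 0 < y)
    (hy1 : y ≤ 1) (τ : ℝ) (x : ℕ) :
    ‖sml (sh a y) (2 * y) x τ - sml a (2 * y) x τ‖ ≤ 3 * CC * D := by
  unfold sml
  rw [← sum_sub_distrib]
  have hF : ∀ p ∈ Fs (2 * y) x, p.Prime ∧ 2 * y * Real.log p < 1 := by
    intro p hp
    unfold Fs at hp
    rw [mem_filter] at hp
    exact hp.2
  have h1 : ∀ p ∈ Fs (2 * y) x, ‖term (sh a y) τ p - term a τ p‖ ≤
      (D * y) * (Real.log p / p) := by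
    intro p hp
    have hp0 : (0 : ℝ) < p := by exact_mod_cast (hF p hp).1.pos
    have hl : 0 ≤ Real.log p := Real.log_natCast_nonneg p
    rw [term_sh, ← sub_one_mul, norm_mul]
    have h2 : ‖term a τ p‖ ≤ D / p := by
      unfold term
      rw [if_pos (hF p hp).1, norm_mul, norm_div, Complex.norm_natCast]
      have h3 : ‖Complex.exp (-((τ : ℂ) * (Real.log p : ℂ)) * Complex.I)‖ = 1 := by
        rw [Complex.norm_exp, Complex.mul_I_re, ← Complex.ofReal_mul, ← Complex.ofReal_neg,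
          Complex.ofReal_im, neg_zero, Real.exp_zero]
      rw [h3, mul_one]
      exact div_le_div_of_nonneg_right (ha p) hp0.le
    have h4 : ‖Complex.exp (-((y : ℂ) * (Real.log p : ℂ))) - 1‖ ≤ y * Real.log p := by
      have h5 : Complex.exp (-((y : ℂ) * (Real.log p : ℂ))) - 1 =
          ((Real.exp (-(y * Real.log p)) - 1 : ℝ) : ℂ) := by
        push_cast
        rfl
      rw [h5, Complex.norm_real, Real.norm_eq_abs, abs_of_nonpos]
      · have := Real.add_one_le_exp (-(y * Real.log p))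
        linarith
      · have : Real.exp (-(y * Real.log p)) ≤ 1 := by
          rw [Real.exp_le_one_iff]
          have : 0 ≤ y * Real.log p := by positivity
          linarith
        linarith
    calc ‖Complex.exp (-((y : ℂ) * (Real.log p : ℂ))) - 1‖ * ‖term a τ p‖
        ≤ (y * Real.log p) * (D / p) := mul_le_mul h4 h2 (norm_nonneg _) (by positivity)
      _ = _ := by ring
  refine (norm_sum_le_of_le _ h1).trans ?_
  rw [← mul_sum]
  have h2 := small_scale (Fs (2 * y) x) (by linarith) (by linarith) hF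
  calc D * y * ∑ p ∈ Fs (2 * y) x, Real.log p / p ≤ D * y * (6 * CC / (2 * y)) :=
        mul_le_mul_of_nonneg_left h2 (by positivity)
    _ = 3 * CC * D := by field_simp; ring

lemma norm_big_sh {a : ℕ → ℂ} {D : ℝ} (hD : 0 ≤ D) (ha : ∀ p, ‖a p‖ ≤ D) {y : ℝ} (hy : 0 < y)
    (hy1 : y ≤ 1) (τ : ℝ) (x : ℕ) : ‖big (sh a y) (2 * y) x τ‖ ≤ 20 * CC * D := by
  have hCC := CC_pos
  obtain ⟨M, hM⟩ := dom_big a hD ha (δ := 2 * y) (by linarith) (by linarith) τ x
  have h1 := hM.2 (fun j => Real.exp (-((j : ℝ) / 2))) fun j => (Real.exp_pos _).le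
  unfold big
  have h2 : ∀ p ∈ Fb (2 * y) x, ‖term (sh a y) τ p‖ ≤
      ‖a p / p * Complex.exp (-(τ * Real.log p) * Complex.I)‖ *
        Real.exp (-((⌊2 * y * Real.log p⌋₊ : ℝ) / 2)) := by
    intro p hp
    unfold Fb at hp
    rw [mem_filter] at hp
    rw [term_sh, norm_mul, norm_exp_sh, mul_comm]
    unfold term
    rw [if_pos hp.2.1]
    refine mul_le_mul_of_nonneg_left (Real.exp_le_exp.2 ?_) (norm_nonneg _)
    have h3 := Nat.floor_le (a := 2 * y * Real.log p) (by linarith [hp.2.2])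
    linarith
  refine (norm_sum_le_of_le _ h2).trans (h1.trans ?_)
  have h3 : ∑ j ∈ range M, 1 / ((j : ℝ) + 1) * Real.exp (-(((j + 1 : ℕ) : ℝ) / 2)) ≤ 2 := by
    have hr : Real.exp (-(1 / 2)) ≤ 2 / 3 := by
      rw [Real.exp_neg, inv_le_comm₀ (Real.exp_pos _) (by norm_num)]
      have := Real.add_one_le_exp (1 / 2 : ℝ)
      norm_num at this ⊢
      linarith
    calc ∑ j ∈ range M, 1 / ((j : ℝ) + 1) * Real.exp (-(((j + 1 : ℕ) : ℝ) / 2))
        ≤ ∑ j ∈ range M, (2 / 3 : ℝ) * (2 / 3) ^ j := by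
          refine sum_le_sum fun j _ => ?_
          have h4 : Real.exp (-(((j + 1 : ℕ) : ℝ) / 2)) = Real.exp (-(1 / 2)) ^ (j + 1) := by
            rw [← Real.exp_nat_mul]
            congr 1
            push_cast
            ring
          have h5 : 1 / ((j : ℝ) + 1) ≤ 1 := by
            rw [div_le_one (by positivity)]
            linarith [Nat.cast_nonneg (α := ℝ) j]
          rw [h4, ← pow_succ']
          calc 1 / ((j : ℝ) + 1) * Real.exp (-(1 / 2)) ^ (j + 1)
              ≤ 1 * (2 / 3) ^ (j + 1) := by gcongr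
            _ = _ := one_mul _
      _ = 2 / 3 * ∑ j ∈ range M, (2 / 3 : ℝ) ^ j := by rw [mul_sum]
      _ ≤ 2 / 3 * 3 := by
          refine mul_le_mul_of_nonneg_left ?_ (by norm_num)
          have h6 := (summable_geometric_of_lt_one (r := (2 / 3 : ℝ)) (by norm_num)
            (by norm_num)).sum_le_tsum (range M) fun j _ => by positivity
          rw [tsum_geometric_of_lt_one (by norm_num) (by norm_num)] at h6
          norm_num at h6
          linarith
      _ = 2 := by norm_num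
  calc 10 * CC * D * ∑ j ∈ range M, 1 / ((j : ℝ) + 1) * Real.exp (-(((j + 1 : ℕ) : ℝ) / 2))
      ≤ 10 * CC * D * 2 := mul_le_mul_of_nonneg_left h3 (by positivity)
    _ = _ := by ring

lemma norm_ps_sh {a : ℕ → ℂ} {D : ℝ} (hD : 0 ≤ D) (ha : ∀ p, ‖a p‖ ≤ D) {y : ℝ} (hy : 0 < y)
    (hy1 : y ≤ 1) (τ : ℝ) (x : ℕ) :
    ‖ps (sh a y) τ x - sml a (2 * y) x τ‖ ≤ 23 * CC * D := by
  rw [ps_eq (sh a y) (2 * y) x τ, add_sub_assoc]
  refine (norm_add_le _ _).trans ?_
  have h1 := norm_big_sh hD ha hy hy1 τ x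
  have h2 := norm_sml_sh hD ha hy hy1 τ x
  linarith

end primes

/-- **Exponential integrability**, with a given centre. -/
lemma exp_center (B K : ℝ) (hB : 0 ≤ B) (hK : 0 < K) {a : ℕ → ℂ} {D : ℝ} (hD : 0 < D)
    (ha : ∀ p, ‖a p‖ ≤ D)
    (f G : ℝ → ℂ) (hf : AEMeasurable f) (hGm : AEMeasurable G)
    (hlim : ∀ᵐ τ : ℝ, Tendsto (ps a τ) atTop (𝓝 (f τ - G τ))) (hG : ∀ τ, ‖G τ‖ ≤ B * D)
    {δ : ℝ} (hδ : 0 < δ) (hδ2 : δ ≤ 2) (α : ℝ) (x₀ : ℕ) (hx₀ : ∀ x, x₀ ≤ x → Fs δ x = Fs δ x₀)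
    (c : ℂ) (hc : ∀ τ ∈ Set.Ioc α (α + δ), ‖sml a δ x₀ τ - c‖ ≤ K * D) :
      ∫⁻ τ in Set.Ioc α (α + δ),
        ENNReal.ofReal (Real.exp (‖f τ - c‖ / ((2 * C1 + 5 * (K + B)) * D))) ≤
          ENNReal.ofReal (2 * δ) := by
  have hC1 := C1_pos
  set g : ℝ → ℂ := fun τ => f τ - G τ - sml a δ x₀ τ with hg
  have hgm : AEMeasurable g := (hf.sub hGm).sub (continuous_sml a δ x₀).aemeasurable
  have hglim : ∀ᵐ τ : ℝ, Tendsto (fun x => big a δ x τ) atTop (𝓝 (g τ)) := by
    filter_upwards [hlim] with τ hτ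
    have h1 : Tendsto (fun x => ps a τ x - sml a δ x₀ τ) atTop (𝓝 (g τ)) := hτ.sub_const _
    refine h1.congr' ?_
    filter_upwards [eventually_ge_atTop x₀] with x hx
    rw [ps_eq a δ x τ]
    have : sml a δ x τ = sml a δ x₀ τ := by
      unfold sml
      rw [hx₀ x hx]
    rw [this]
    ring
  have hcosh := cosh_bound hD ha hδ hδ2 α g hgm hglim
  set C : ℝ := 2 * C1 + 5 * (K + B) with hC
  have hC0 : 0 < C := by positivity
  have hpt : ∀ τ ∈ Set.Ioc α (α + δ), ‖f τ - c‖ ≤ ‖g τ‖ + (K + B) * D := by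
    intro τ hτ
    have h1 : f τ - c = g τ + G τ + (sml a δ x₀ τ - c) := by
      rw [hg]
      ring
    calc ‖f τ - c‖ = ‖g τ + G τ + (sml a δ x₀ τ - c)‖ := by rw [h1]
      _ ≤ ‖g τ‖ + ‖G τ‖ + ‖sml a δ x₀ τ - c‖ := norm_add₃_le
      _ ≤ ‖g τ‖ + B * D + K * D := by linarith [hG τ, hc τ hτ]
      _ = _ := by ring
  have hexp : Real.exp (1 / 5) ≤ 5 / 4 := by
    have h1 : Real.exp (1 / 5) ^ 5 ≤ (5 / 4) ^ 5 := by
      rw [← Real.exp_nat_mul]
      have := Real.exp_one_lt_d9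
      norm_num
      linarith
    exact le_of_pow_le_pow_left₀ (by norm_num) (by norm_num) h1
  have hpt2 : ∀ τ ∈ Set.Ioc α (α + δ), ENNReal.ofReal (Real.exp (‖f τ - c‖ / (C * D))) ≤
      ENNReal.ofReal (3 / 2) * ENNReal.ofReal (Real.cosh (‖g τ‖ / (C1 * D))) := by
    intro τ hτ
    rw [← ENNReal.ofReal_mul (by norm_num)]
    refine ENNReal.ofReal_le_ofReal ?_
    have h1 : ‖f τ - c‖ / (C * D) ≤ ‖g τ‖ / (2 * C1 * D) + 1 / 5 := by
      have h2 : ‖f τ - c‖ / (C * D) ≤ (‖g τ‖ + (K + B) * D) / (C * D) :=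
        div_le_div_of_nonneg_right (hpt τ hτ) (by positivity)
      have h3 : ‖g τ‖ / (C * D) ≤ ‖g τ‖ / (2 * C1 * D) := by
        refine div_le_div_of_nonneg_left (norm_nonneg _) (by positivity) ?_
        refine mul_le_mul_of_nonneg_right ?_ hD.le
        rw [hC]
        have : 0 ≤ 5 * (K + B) := by positivity
        linarith
      have h4 : (K + B) * D / (C * D) ≤ 1 / 5 := by
        rw [mul_div_mul_right _ _ hD.ne', div_le_div_iff₀ hC0 (by norm_num), hC]
        linarith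
      rw [add_div] at h2
      linarith
    have h2 := exp_le_cosh (x := ‖g τ‖ / (2 * C1 * D)) (by positivity)
    have h3 : 2 * (‖g τ‖ / (2 * C1 * D)) = ‖g τ‖ / (C1 * D) := by
      field_simp
    rw [h3] at h2
    have hcp : 0 < Real.cosh (‖g τ‖ / (C1 * D)) := Real.cosh_pos _
    calc Real.exp (‖f τ - c‖ / (C * D)) ≤ Real.exp (‖g τ‖ / (2 * C1 * D) + 1 / 5) :=
          Real.exp_le_exp.2 h1
      _ = Real.exp (‖g τ‖ / (2 * C1 * D)) * Real.exp (1 / 5) := Real.exp_add _ _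
      _ ≤ (6 / 5 * Real.cosh (‖g τ‖ / (C1 * D))) * (5 / 4) := by gcongr
      _ = _ := by ring
  calc ∫⁻ τ in Set.Ioc α (α + δ), ENNReal.ofReal (Real.exp (‖f τ - c‖ / (C * D)))
      ≤ ∫⁻ τ in Set.Ioc α (α + δ), ENNReal.ofReal (3 / 2) *
          ENNReal.ofReal (Real.cosh (‖g τ‖ / (C1 * D))) :=
        setLIntegral_mono' measurableSet_Ioc hpt2
    _ = ENNReal.ofReal (3 / 2) * ∫⁻ τ in Set.Ioc α (α + δ),
          ENNReal.ofReal (Real.cosh (‖g τ‖ / (C1 * D))) :=
        lintegral_const_mul' _ _ ENNReal.ofReal_ne_top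
    _ ≤ ENNReal.ofReal (3 / 2) * ENNReal.ofReal (20 / 19 * δ) := mul_le_mul_right hcosh _
    _ = ENNReal.ofReal (3 / 2 * (20 / 19 * δ)) := (ENNReal.ofReal_mul (by norm_num)).symm
    _ ≤ ENNReal.ofReal (2 * δ) := ENNReal.ofReal_le_ofReal (by nlinarith)

section main

variable {K : Type} [Field K] [NumberField K] {i N : ℕ} {S : Set (HeightOneSpectrum (𝓞 K))}
  {α : HeightOneSpectrum (𝓞 K) → Fin N → ℂ}

lemma partial_eq (hα : Wt S i α) (y τ : ℝ) (x : ℕ) :
    ∑ v ∈ FV nm hfin x, lv S α v (se i τ + y) = ps (sh (cp S i α) y) τ x +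
      ∑ v ∈ FV nm hfin x, (Complex.exp (-(y : ℂ) * Real.log (nm v)) * gv (tv S i α) τ v +
        qv S α v (se i τ + y)) := by
  classical
  have h2 : ps (sh (cp S i α) y) τ x = ∑ v ∈ FV nm hfin x,
      (if (nm v).Prime then Complex.exp (-(y : ℂ) * Real.log (nm v)) *
        vt nm (tv S i α) τ v else 0) := by
    rw [← sum_grp hfin]
    unfold ps
    refine Finset.sum_congr rfl fun p _ => ?_
    rw [term_sh]
    unfold term grp
    split_ifs with hp
    · unfold cp
      rw [if_pos hp, grp, ← tsum_div_const, ← tsum_mul_right, ← tsum_mul_left]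
      refine tsum_congr fun v => ?_
      have h3 : nm v.1 = p := v.2
      beta_reduce
      rw [if_pos (by rw [h3]; exact hp), vt, h3, neg_mul (y : ℂ)]
    · have : ∀ v : (nm : HeightOneSpectrum (𝓞 K) → ℕ) ⁻¹' {p},
          (if (nm v.1).Prime then Complex.exp (-(y : ℂ) * Real.log (nm v.1)) *
            vt nm (tv S i α) τ v.1 else 0) = 0 := by
        intro v
        have h3 : nm v.1 = p := v.2
        rw [if_neg (by rw [h3]; exact hp)]
      rw [mul_zero]
      exact ((tsum_congr this).trans tsum_zero).symm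
  rw [h2, ← Finset.sum_add_distrib]
  refine Finset.sum_congr rfl fun v _ => ?_
  rw [lv_eq hα]
  unfold gv
  split_ifs <;> ring

lemma norm_center (hα : Wt S i α) {y : ℝ} (hy : 0 < y) (hy1 : y ≤ 1) (τ : ℝ) (x₀ : ℕ)
    (hx₀ : ∀ x, x₀ ≤ x → Fs (2 * y) x = Fs (2 * y) x₀) :
    ‖logL S α (se i τ + y) - sml (cp S i α) (2 * y) x₀ τ‖ ≤
      (23 * CC + 2 * P2) * (N * Module.finrank ℚ K) := by
  have hN0 : (0 : ℝ) ≤ N := Nat.cast_nonneg N
  have hre : (i : ℝ) / 2 + 1 < (se i τ + (y : ℂ)).re := by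
    rw [Complex.add_re, se_re, Complex.ofReal_re]
    linarith
  have hlim := ((summable_lv hα hre).hasSum.comp (tendsto_FV hfin)).sub_const
    (sml (cp S i α) (2 * y) x₀ τ)
  refine le_of_tendsto hlim.norm ?_
  filter_upwards [eventually_ge_atTop x₀] with x hx
  simp only [Function.comp_apply]
  rw [partial_eq hα]
  have hs : sml (cp S i α) (2 * y) x₀ τ = sml (cp S i α) (2 * y) x τ := by
    unfold sml
    rw [hx₀ x hx]
  rw [hs, add_sub_right_comm]
  refine (norm_add_le _ _).trans ?_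
  have h1 := norm_ps_sh (by positivity) (norm_cp hα) hy hy1 τ x
  have h2 : ‖∑ v ∈ FV nm hfin x, (Complex.exp (-(y : ℂ) * Real.log (nm v)) *
      gv (tv S i α) τ v + qv S α v (se i τ + y))‖ ≤ 2 * P2 * (N * Module.finrank ℚ K) := by
    have h3 : ∀ v ∈ FV nm hfin x, ‖Complex.exp (-(y : ℂ) * Real.log (nm v)) *
        gv (tv S i α) τ v + qv S α v (se i τ + y)‖ ≤
          2 * N * ((below v : ℕ) : ℝ) ^ (-(2 : ℝ)) := by
      intro v _
      refine (norm_add_le _ _).trans ?_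
      have h4 := norm_gv hN0 (norm_tv hα) τ v
      have h5 := norm_qv' hα v hre.le
      have h6 : ‖Complex.exp (-(y : ℂ) * Real.log (nm v))‖ ≤ 1 := by
        have h7 := norm_exp_sh y (nm v)
        rw [← neg_mul] at h7
        rw [h7, Real.exp_le_one_iff]
        have : 0 ≤ y * Real.log (nm v) := mul_nonneg hy.le (Real.log_natCast_nonneg _)
        linarith
      have h8 : ‖Complex.exp (-(y : ℂ) * Real.log (nm v)) * gv (tv S i α) τ v‖ ≤
          N * ((below v : ℕ) : ℝ) ^ (-(2 : ℝ)) := by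
        rw [norm_mul]
        calc _ ≤ 1 * ‖gv (tv S i α) τ v‖ := mul_le_mul_of_nonneg_right h6 (norm_nonneg _)
          _ ≤ _ := by rw [one_mul]; exact h4
      linarith
    refine (norm_sum_le_of_le _ h3).trans ?_
    rw [← Finset.mul_sum]
    have h4 := (below_sq_summable (K := K)).sum_le_tsum (FV nm hfin x) fun v _ => by positivity
    have h5 := tsum_below_le (K := K)
    calc 2 * N * ∑ v ∈ FV nm hfin x, ((below v : ℕ) : ℝ) ^ (-(2 : ℝ))
        ≤ 2 * N * (Module.finrank ℚ K * P2) :=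
          mul_le_mul_of_nonneg_left (h4.trans h5) (by positivity)
      _ = _ := by ring
  linarith

/-- The absolute constant. -/
noncomputable def CD : ℝ := 2 * C1 + 5 * (29 * CC + 2 * P2 + 2 * P2)

lemma CD_pos : 0 < CD := by
  have := C1_pos
  have := CC_pos
  have := P2_nonneg
  unfold CD
  positivity

lemma center_gen (hα : Wt S i α) {D : ℝ} (hD : 0 < D) (hND : (N * Module.finrank ℚ K : ℝ) ≤ D)
    {y : ℝ} (hy : 0 < y) (hy1 : y ≤ 1) (τ₀ : ℝ) :
    ∫⁻ τ in Set.Ioc (τ₀ - y) (τ₀ + y), ENNReal.ofReal (Real.exp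
      (‖logB S i α τ - logL S α (se i τ₀ + y)‖ / (CD * D))) ≤
        ENNReal.ofReal (2 * (2 * y)) := by
  have hCC := CC_pos
  have hP := P2_nonneg
  have hI : Set.Ioc (τ₀ - y) (τ₀ + y) = Set.Ioc (τ₀ - y) (τ₀ - y + 2 * y) := by
    congr 1
    ring
  obtain ⟨x₀, hx₀⟩ := sml_eventually (2 * y) (by linarith)
  rw [hI]
  have hcp : ∀ p, ‖cp S i α p‖ ≤ D := fun p => (norm_cp hα p).trans hND
  refine exp_center (2 * P2) (29 * CC + 2 * P2) (by positivity) (by positivity) hD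
    hcp (logB S i α) (GG S i α) (aemeasurable_logB hα) (continuous_GG hα).aemeasurable
    (ae_tendsto hα) (fun τ => (norm_GG hα τ).trans (mul_le_mul_of_nonneg_left hND
      (by positivity))) (by linarith) (by linarith) (τ₀ - y) x₀ hx₀
    (logL S α (se i τ₀ + y)) fun τ hτ => ?_
  have h1 := (norm_center hα hy hy1 τ₀ x₀ hx₀).trans (mul_le_mul_of_nonneg_left hND
      (by positivity))
  have hτ' : |τ - τ₀| ≤ 2 * y := by
    rw [abs_le]
    constructor <;> linarith [hτ.1, hτ.2]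
  have h2 := norm_sml_sub (cp S i α) hD.le hcp (by linarith) (by linarith) hτ' x₀
  have h3 : sml (cp S i α) (2 * y) x₀ τ - logL S α (se i τ₀ + y) =
      (sml (cp S i α) (2 * y) x₀ τ - sml (cp S i α) (2 * y) x₀ τ₀) -
        (logL S α (se i τ₀ + y) - sml (cp S i α) (2 * y) x₀ τ₀) := by ring
  rw [h3]
  refine (norm_sub_le _ _).trans ?_
  linarith

/-- **The boundary values near a point and the value at the same scale.** -/
theorem center (hα : Wt S i α) {y : ℝ} (hy : 0 < y) (hy1 : y ≤ 1) (τ₀ : ℝ) :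
    ∫⁻ τ in Set.Ioc (τ₀ - y) (τ₀ + y), ENNReal.ofReal (Real.exp
      (‖logB S i α τ - logL S α (se i τ₀ + y)‖ / (CD * (N * Module.finrank ℚ K)))) ≤
        ENNReal.ofReal (2 * (2 * y)) := by
  have hD0 : (0 : ℝ) ≤ N * Module.finrank ℚ K := by positivity
  rcases hD0.eq_or_lt with h0 | h0
  · rw [← h0]
    simp only [mul_zero, div_zero, Real.exp_zero, ENNReal.ofReal_one, lintegral_const,
      Measure.restrict_apply MeasurableSet.univ, Set.univ_inter, Real.volume_Ioc, one_mul]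
    exact ENNReal.ofReal_le_ofReal (by linarith)
  · exact center_gen hα h0 le_rfl hy hy1 τ₀

/-- The exceptional set of the comparison. -/
lemma exceptional (hα : Wt S i α) (ε : ℝ) (hε : 0 < ε) : ∃ A : ℝ, 0 < A ∧ ∀ (τ₀ y : ℝ), 0 < y →
    y ≤ 1 → volume {τ ∈ Set.Ioc (τ₀ - y) (τ₀ + y) |
      A < ‖logB S i α τ - logL S α (se i τ₀ + y)‖} ≤ ENNReal.ofReal (ε * (2 * y)) := by
  have hCD := CD_pos
  set D : ℝ := N * Module.finrank ℚ K + 1 with hD
  have hD0 : 0 < D := by positivity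
  obtain ⟨lam, hlam, hlam2⟩ : ∃ lam : ℝ, 0 < lam ∧ 2 * Real.exp (-lam) ≤ ε := by
    refine ⟨max 1 (Real.log (2 / ε)), by positivity, ?_⟩
    have h1 : Real.log (2 / ε) ≤ max 1 (Real.log (2 / ε)) := le_max_right _ _
    have h2 : Real.exp (-max 1 (Real.log (2 / ε))) ≤ Real.exp (-Real.log (2 / ε)) :=
      Real.exp_le_exp.2 (by linarith)
    rw [Real.exp_neg (Real.log (2 / ε)), Real.exp_log (by positivity), inv_div] at h2
    linarith
  refine ⟨lam * (CD * D), by positivity, fun τ₀ y hy hy1 => ?_⟩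
  have h1 := center_gen hα hD0 (by rw [hD]; linarith) hy hy1 τ₀
  have hm : AEMeasurable (fun τ => ENNReal.ofReal (Real.exp
      (‖logB S i α τ - logL S α (se i τ₀ + y)‖ / (CD * D))))
      (volume.restrict (Set.Ioc (τ₀ - y) (τ₀ + y))) := by
    refine AEMeasurable.restrict ?_
    exact ENNReal.measurable_ofReal.comp_aemeasurable (Real.measurable_exp.comp_aemeasurable
      (((aemeasurable_logB hα).sub_const _).norm.div_const _))
  have h2 := mul_meas_ge_le_lintegral₀ hm (ENNReal.ofReal (Real.exp lam))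
  have h3 : volume {τ ∈ Set.Ioc (τ₀ - y) (τ₀ + y) |
      lam * (CD * D) < ‖logB S i α τ - logL S α (se i τ₀ + y)‖} ≤
      (volume.restrict (Set.Ioc (τ₀ - y) (τ₀ + y))) {τ | ENNReal.ofReal (Real.exp lam) ≤
        ENNReal.ofReal (Real.exp (‖logB S i α τ - logL S α (se i τ₀ + y)‖ / (CD * D)))} := by
    rw [Measure.restrict_apply₀' measurableSet_Ioc.nullMeasurableSet]
    refine measure_mono fun τ hτ => ⟨?_, hτ.1⟩
    refine ENNReal.ofReal_le_ofReal (Real.exp_le_exp.2 ?_)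
    rw [le_div_iff₀ (by positivity)]
    exact hτ.2.le
  refine h3.trans ?_
  have h4 := h2.trans h1
  have h5 : ENNReal.ofReal (Real.exp lam) ≠ 0 := by
    rw [Ne, ENNReal.ofReal_eq_zero, not_le]
    exact Real.exp_pos _
  rw [mul_comm, ← ENNReal.le_div_iff_mul_le (Or.inl h5) (Or.inl ENNReal.ofReal_ne_top)] at h4
  refine h4.trans ?_
  rw [← ENNReal.ofReal_div_of_pos (Real.exp_pos _)]
  refine ENNReal.ofReal_le_ofReal ?_
  rw [div_eq_mul_inv, ← Real.exp_neg]
  calc 2 * (2 * y) * Real.exp (-lam) = 2 * Real.exp (-lam) * (2 * y) := by ring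
    _ ≤ ε * (2 * y) := by gcongr

end main

end Run7.h522.BM
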