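import Mathlib

/-!
# Convolution powers of `1/j`
-/

set_option autoImplicit false

namespace Run7.h522.BM

open Finset

/-- `sk k m` is the sum of `1/(j_1 ⋯ j_k)` over the positive integers with `j_1 + ⋯ + j_k = m`. -/
noncomputable def sk : ℕ → ℕ → ℝ
  | 0, 0 => 1
  | 0, (_ + 1) => 0
  | (_ + 1), 0 => 0
  | (k + 1), (m + 1) => ∑ j ∈ range (m + 1), (1 / ((j : ℝ) + 1)) * sk k (m - j)

lemma sk_nonneg (k m : ℕ) : 0 ≤ sk k m := by
  induction k generalizing m with
  | zero => cases m <;> simp [sk]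
  | succ k ih =>
    cases m with
    | zero => simp [sk]
    | succ m =>
      rw [sk]
      exact sum_nonneg fun j _ => mul_nonneg (by positivity) (ih _)

/-- The harmonic sum. -/
noncomputable def hs (m : ℕ) : ℝ := ∑ j ∈ range m, 1 / ((j : ℝ) + 1)

lemma hs_nonneg (m : ℕ) : 0 ≤ hs m := sum_nonneg fun j _ => by positivity

lemma hs_le (m : ℕ) : hs (m + 1) ≤ 1 + Real.log ((m : ℝ) + 1) := by
  have h := harmonic_le_one_add_log (m + 1)
  unfold harmonic at h
  push_cast at h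
  refine le_trans (le_of_eq ?_) h
  unfold hs
  refine sum_congr rfl fun j _ => ?_
  rw [one_div]

/-- The sum of `f j (n - j)`. -/
lemma diag (n : ℕ) (f : ℕ → ℕ → ℝ) :
    ∑ m ∈ range n, ∑ k ∈ range (m + 1), f k (m - k) = ∑ m ∈ range n, ∑ k ∈ range (n - m), f m k :=
  Finset.sum_range_diag_flip n f

lemma sum_succ_eq (k n : ℕ) :
    ∑ l ∈ range (n + 1), sk (k + 1) l =
      ∑ j ∈ range n, (1 / ((j : ℝ) + 1)) * ∑ l ∈ range (n - j), sk k l := by
  rw [sum_range_succ']
  have h0 : sk (k + 1) 0 = 0 := by simp [sk]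
  rw [h0, add_zero]
  have h1 := diag n (fun j l => (1 / ((j : ℝ) + 1)) * sk k l)
  rw [show ∑ l ∈ range n, sk (k + 1) (l + 1) =
    ∑ m ∈ range n, ∑ j ∈ range (m + 1), (1 / ((j : ℝ) + 1)) * sk k (m - j) from
    sum_congr rfl fun l _ => by rw [sk], h1]
  exact sum_congr rfl fun j _ => by rw [mul_sum]

lemma sum_le_pow (k n : ℕ) : ∑ l ∈ range n, sk k l ≤ hs n ^ k := by
  induction k generalizing n with
  | zero =>
    rw [pow_zero]
    cases n with
    | zero => simp
    | succ n =>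
      rw [sum_range_succ']
      simp [sk]
  | succ k ih =>
    cases n with
    | zero => simp [hs]
    | succ n =>
      rw [sum_succ_eq]
      have hmono : ∀ a b : ℕ, a ≤ b → hs a ≤ hs b := fun a b hab =>
        sum_le_sum_of_subset_of_nonneg (range_mono hab) fun j _ _ => by positivity
      calc ∑ j ∈ range n, (1 / ((j : ℝ) + 1)) * ∑ l ∈ range (n - j), sk k l
          ≤ ∑ j ∈ range n, (1 / ((j : ℝ) + 1)) * hs (n + 1) ^ k := by
            refine sum_le_sum fun j _ => mul_le_mul_of_nonneg_left ?_ (by positivity)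
            refine (ih _).trans (pow_le_pow_left₀ (hs_nonneg _) (hmono _ _ (by omega)) k)
        _ = hs n * hs (n + 1) ^ k := by rw [← sum_mul]; rfl
        _ ≤ hs (n + 1) * hs (n + 1) ^ k :=
          mul_le_mul_of_nonneg_right (hmono _ _ (by omega)) (pow_nonneg (hs_nonneg _) _)
        _ = hs (n + 1) ^ (k + 1) := by ring

/-- `m s_k(m) = k (s_{k-1}(0) + ⋯ + s_{k-1}(m-1))`. -/
lemma mul_sk (k m : ℕ) : (m : ℝ) * sk (k + 1) m = (k + 1) * ∑ l ∈ range m, sk k l := by
  induction k generalizing m with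
  | zero =>
    cases m with
    | zero => simp
    | succ m =>
      have h1 : sk 1 (m + 1) = 1 / ((m : ℝ) + 1) := by
        rw [sk, sum_eq_single_of_mem m (by simp)]
        · simp [sk]
        · intro j hj hjm
          have hlt : j < m := lt_of_le_of_ne (by simpa [Nat.lt_succ_iff] using hj) hjm
          obtain ⟨r, hr⟩ : ∃ r, m - j = r + 1 := ⟨m - j - 1, by omega⟩
          rw [hr]
          simp [sk]
      rw [h1, sum_range_succ']
      have : (0 : ℝ) < (m : ℝ) + 1 := by positivity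
      simp [sk]
      field_simp
  | succ k ih =>
    cases m with
    | zero => simp
    | succ m =>
      have e1 : ((m + 1 : ℕ) : ℝ) * sk (k + 2) (m + 1) =
          ∑ j ∈ range (m + 1), sk (k + 1) (m - j) +
            ∑ j ∈ range (m + 1), (1 / ((j : ℝ) + 1)) * (((m - j : ℕ) : ℝ) * sk (k + 1) (m - j)) := by
        rw [sk, mul_sum, ← sum_add_distrib]
        refine sum_congr rfl fun j hj => ?_
        have hj' : j ≤ m := by simpa [Nat.lt_succ_iff] using hj
        have : (0 : ℝ) < (j : ℝ) + 1 := by positivity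
        rw [Nat.cast_sub hj']
        push_cast
        field_simp
        ring
      have e2 : ∑ j ∈ range (m + 1), sk (k + 1) (m - j) = ∑ l ∈ range (m + 1), sk (k + 1) l :=
        sum_range_reflect (fun l => sk (k + 1) l) (m + 1)
      have e3 : ∑ j ∈ range (m + 1), (1 / ((j : ℝ) + 1)) * (((m - j : ℕ) : ℝ) * sk (k + 1) (m - j)) =
          (k + 1) * ∑ l ∈ range (m + 1), sk (k + 1) l := by
        rw [sum_succ_eq, mul_sum, sum_range_succ]
        have h0 : ((m - m : ℕ) : ℝ) = 0 := by simp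
        rw [h0, zero_mul, mul_zero, add_zero]
        refine sum_congr rfl fun j _ => ?_
        rw [ih]
        ring
      rw [e1, e2, e3]
      push_cast
      ring

lemma sk_le (k m : ℕ) : sk (k + 1) (m + 1) ≤
    (k + 1) / ((m : ℝ) + 1) * (1 + Real.log ((m : ℝ) + 1)) ^ k := by
  have h1 := mul_sk k (m + 1)
  have hm : (0 : ℝ) < (m : ℝ) + 1 := by positivity
  have h2 := sum_le_pow k (m + 1)
  have h3 : hs (m + 1) ^ k ≤ (1 + Real.log ((m : ℝ) + 1)) ^ k :=
    pow_le_pow_left₀ (hs_nonneg _) (hs_le m) k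
  rw [div_mul_eq_mul_div, le_div_iff₀ hm, mul_comm]
  push_cast at h1
  rw [h1]
  exact mul_le_mul_of_nonneg_left (h2.trans h3) (by positivity)

/-- `(1 + log x)^n ≤ n! 2^n e √x`. -/
lemma log_pow_le (n : ℕ) {x : ℝ} (hx : 1 ≤ x) :
    (1 + Real.log x) ^ n ≤ (n.factorial : ℝ) * 2 ^ n * (Real.exp 1 * x ^ (1 / 2 : ℝ)) := by
  have hl : 0 ≤ Real.log x := Real.log_nonneg hx
  have h1 := Real.pow_div_factorial_le_exp ((1 + Real.log x) / 2) (by positivity) n
  have hf : (0 : ℝ) < (n.factorial : ℝ) := by exact_mod_cast n.factorial_pos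
  rw [div_le_iff₀ hf, div_pow] at h1
  have h2 : Real.exp ((1 + Real.log x) / 2) ≤ Real.exp 1 * x ^ (1 / 2 : ℝ) := by
    rw [Real.rpow_def_of_pos (by linarith), ← Real.exp_add]
    apply Real.exp_le_exp.2
    linarith
  have h3 : (0 : ℝ) < 2 ^ n := by positivity
  rw [div_le_iff₀ h3] at h1
  calc (1 + Real.log x) ^ n ≤ Real.exp ((1 + Real.log x) / 2) * n.factorial * 2 ^ n := h1
    _ ≤ (Real.exp 1 * x ^ (1 / 2 : ℝ)) * n.factorial * 2 ^ n := by gcongr
    _ = _ := by ring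

/-- `∑ 1/n^{3/2}` -/
noncomputable def z32 : ℝ := ∑' m : ℕ, ((m : ℝ) + 1) ^ (-(3 / 2) : ℝ)

lemma summable_z32 : Summable fun m : ℕ => ((m : ℝ) + 1) ^ (-(3 / 2) : ℝ) := by
  have h := (Real.summable_nat_rpow (p := -(3 / 2))).2 (by norm_num)
  have h2 := (summable_nat_add_iff 1).2 h
  refine h2.congr fun m => ?_
  push_cast
  rfl

lemma z32_nonneg : 0 ≤ z32 := tsum_nonneg fun m => by positivity

/-- The square sum of the convolution powers. -/
lemma sum_sk_sq (k L : ℕ) : ∑ m ∈ range L, sk k m ^ 2 ≤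
    (1 + Real.exp 1 * z32) * 4 ^ k * ((2 * k).factorial : ℝ) := by
  have hz := z32_nonneg
  have he : 0 < Real.exp 1 := Real.exp_pos 1
  cases k with
  | zero =>
    have h1 : ∑ m ∈ range L, sk 0 m ^ 2 ≤ 1 := by
      cases L with
      | zero => simp
      | succ L =>
        rw [sum_range_succ']
        simp [sk]
    simp only [pow_zero, mul_one, mul_zero, Nat.factorial_zero, Nat.cast_one]
    have : 0 ≤ Real.exp 1 * z32 := by positivity
    linarith
  | succ k =>
    have hterm : ∀ m : ℕ, sk (k + 1) (m + 1) ^ 2 ≤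
        (((k : ℝ) + 1) ^ 2 * ((2 * k).factorial : ℝ) * 4 ^ k * Real.exp 1) *
          ((m : ℝ) + 1) ^ (-(3 / 2) : ℝ) := by
      intro m
      have hm : (1 : ℝ) ≤ (m : ℝ) + 1 := by
        have : (0 : ℝ) ≤ m := Nat.cast_nonneg m
        linarith
      have hm0 : (0 : ℝ) < (m : ℝ) + 1 := by linarith
      have h1 := pow_le_pow_left₀ (sk_nonneg _ _) (sk_le k m) 2
      have h2 := log_pow_le (2 * k) hm
      have h3 : ((k + 1) / ((m : ℝ) + 1) * (1 + Real.log ((m : ℝ) + 1)) ^ k) ^ 2 =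
          ((k : ℝ) + 1) ^ 2 / ((m : ℝ) + 1) ^ 2 * (1 + Real.log ((m : ℝ) + 1)) ^ (2 * k) := by
        rw [mul_pow, div_pow, ← pow_mul, mul_comm k 2]
      rw [h3] at h1
      refine h1.trans ?_
      have h4 : (2 : ℝ) ^ (2 * k) = 4 ^ k := by
        rw [pow_mul]; norm_num
      rw [h4] at h2
      have h5 : ((m : ℝ) + 1) ^ (-(3 / 2) : ℝ) = ((m : ℝ) + 1) ^ (1 / 2 : ℝ) / ((m : ℝ) + 1) ^ 2 := by
        rw [eq_div_iff (by positivity), ← Real.rpow_natCast ((m : ℝ) + 1) 2, ← Real.rpow_add hm0]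
        norm_num
      rw [h5]
      calc ((k : ℝ) + 1) ^ 2 / ((m : ℝ) + 1) ^ 2 * (1 + Real.log ((m : ℝ) + 1)) ^ (2 * k)
          ≤ ((k : ℝ) + 1) ^ 2 / ((m : ℝ) + 1) ^ 2 *
            (((2 * k).factorial : ℝ) * 4 ^ k * (Real.exp 1 * ((m : ℝ) + 1) ^ (1 / 2 : ℝ))) :=
            mul_le_mul_of_nonneg_left h2 (by positivity)
        _ = _ := by ring
    have hsum : ∑ m ∈ range L, sk (k + 1) m ^ 2 ≤
        (((k : ℝ) + 1) ^ 2 * ((2 * k).factorial : ℝ) * 4 ^ k * Real.exp 1) * z32 := by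
      have hc : 0 ≤ ((k : ℝ) + 1) ^ 2 * ((2 * k).factorial : ℝ) * 4 ^ k * Real.exp 1 := by positivity
      cases L with
      | zero => simp only [range_zero, sum_empty]; positivity
      | succ L =>
        rw [sum_range_succ']
        have h0 : sk (k + 1) 0 = 0 := by simp [sk]
        rw [h0]
        calc ∑ m ∈ range L, sk (k + 1) (m + 1) ^ 2 + 0 ^ 2
            = ∑ m ∈ range L, sk (k + 1) (m + 1) ^ 2 := by ring
          _ ≤ ∑ m ∈ range L, (((k : ℝ) + 1) ^ 2 * ((2 * k).factorial : ℝ) * 4 ^ k * Real.exp 1) *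
              ((m : ℝ) + 1) ^ (-(3 / 2) : ℝ) := sum_le_sum fun m _ => hterm m
          _ = (((k : ℝ) + 1) ^ 2 * ((2 * k).factorial : ℝ) * 4 ^ k * Real.exp 1) *
              ∑ m ∈ range L, ((m : ℝ) + 1) ^ (-(3 / 2) : ℝ) := by rw [mul_sum]
          _ ≤ _ := mul_le_mul_of_nonneg_left
              (summable_z32.sum_le_tsum _ fun m _ => by positivity) hc
    refine hsum.trans ?_
    have hfac : ((2 * (k + 1)).factorial : ℝ) =
        (2 * (k : ℝ) + 2) * ((2 * (k : ℝ) + 1) * ((2 * k).factorial : ℝ)) := by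
      have : 2 * (k + 1) = 2 * k + 1 + 1 := by ring
      rw [this, Nat.factorial_succ, Nat.factorial_succ]
      push_cast
      ring
    rw [hfac, pow_succ]
    have hk : (0 : ℝ) ≤ k := Nat.cast_nonneg k
    have h1 : ((k : ℝ) + 1) ^ 2 ≤ (2 * (k : ℝ) + 2) * (2 * (k : ℝ) + 1) := by nlinarith
    have hF : 0 ≤ ((2 * k).factorial : ℝ) * 4 ^ k := by positivity
    calc (((k : ℝ) + 1) ^ 2 * ((2 * k).factorial : ℝ) * 4 ^ k * Real.exp 1) * z32
        = ((k : ℝ) + 1) ^ 2 * (((2 * k).factorial : ℝ) * 4 ^ k) * (Real.exp 1 * z32) := by ring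
      _ ≤ ((2 * (k : ℝ) + 2) * (2 * (k : ℝ) + 1)) * (((2 * k).factorial : ℝ) * 4 ^ k) *
          (Real.exp 1 * z32) := by gcongr
      _ ≤ ((2 * (k : ℝ) + 2) * (2 * (k : ℝ) + 1)) * (((2 * k).factorial : ℝ) * 4 ^ k) *
          ((1 + Real.exp 1 * z32) * 4) := by
            have : 0 ≤ Real.exp 1 * z32 := by positivity
            have h2 : 0 ≤ ((2 * (k : ℝ) + 2) * (2 * (k : ℝ) + 1)) *
              (((2 * k).factorial : ℝ) * 4 ^ k) := by positivity
            refine mul_le_mul_of_nonneg_left ?_ h2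
            nlinarith
      _ = _ := by ring

end Run7.h522.BM
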