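import Pool.Agent.Run7.h522.BM.KW

/-!
# Limiting distributions of Stepanov almost periodic functions
-/

set_option autoImplicit false
open MeasureTheory Metric Filter
open scoped ENNReal Topology

namespace Run7.h522.BM

open Pool.Agent.Helper873.Product Pool.Agent.Helper873.Mean Pool.Agent.Helper873.Monomial

section cover

lemma cover_nat (f : ℝ → ℝ≥0∞) (c : ℝ≥0∞)
    (h : ∀ a, ∫⁻ τ in Set.Ioc a (a + 1), f τ ≤ c) (n : ℕ) (a : ℝ) :
    ∫⁻ τ in Set.Ioc a (a + n), f τ ≤ n * c := by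
  induction n with
  | zero => simp
  | succ n ih =>
    have h1 : Set.Ioc a (a + ((n + 1 : ℕ) : ℝ)) = Set.Ioc a (a + n) ∪ Set.Ioc (a + n) (a + n + 1) := by
      rw [Set.Ioc_union_Ioc_eq_Ioc (by linarith [Nat.cast_nonneg (α := ℝ) n]) (by linarith)]
      push_cast
      ring_nf
    rw [h1]
    refine (lintegral_union_le _ _ _).trans ?_
    push_cast
    rw [add_mul, one_mul]
    exact add_le_add ih (h _)

/-- From the intervals of length one to all the long intervals. -/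
lemma cover (f : ℝ → ℝ≥0∞) (c : ℝ≥0∞)
    (h : ∀ a, ∫⁻ τ in Set.Ioc a (a + 1), f τ ≤ c) (a b : ℝ) (hab : 1 ≤ b - a) :
    ∫⁻ τ in Set.Ioc a b, f τ ≤ ENNReal.ofReal (2 * (b - a)) * c := by
  set n := ⌈b - a⌉₊ with hn
  have h1 : b - a ≤ n := Nat.le_ceil _
  have h2 : (n : ℝ) ≤ b - a + 1 := (Nat.ceil_lt_add_one (by linarith)).le
  have h3 : Set.Ioc a b ⊆ Set.Ioc a (a + n) := Set.Ioc_subset_Ioc_right (by linarith)
  refine (lintegral_mono_set h3).trans ((cover_nat f c h n a).trans ?_)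
  gcongr
  rw [← ENNReal.ofReal_natCast]
  exact ENNReal.ofReal_le_ofReal (by linarith)

end cover

section dist

variable {E : Type} [NormedAddCommGroup E]

lemma memLp_two {f : Om → E} (hf : Continuous f) [SecondCountableTopology E] :
    MemLp f 2 tor := by
  obtain ⟨C, hC⟩ := (isCompact_range hf).isBounded.exists_norm_le
  exact MemLp.of_bound hf.aestronglyMeasurable C (ae_of_all _ fun z => hC _ ⟨z, rfl⟩)

lemma intC {f : Om → ℝ} (hf : Continuous f) : Integrable f tor := by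
  obtain ⟨C, hC⟩ := (isCompact_range hf).isBounded.exists_norm_le
  exact (MemLp.of_bound hf.aestronglyMeasurable C (ae_of_all _ fun z => hC _ ⟨z, rfl⟩)).integrable
    le_rfl

lemma intCC {f : Om → ℂ} (hf : Continuous f) : Integrable f tor := integrable_tor hf

lemma sq_add_le (x y : E) : ‖x - y‖ ^ 2 ≤ 2 * ‖x‖ ^ 2 + 2 * ‖y‖ ^ 2 := by
  have h6 := norm_sub_le x y
  have h7 : ‖x - y‖ ^ 2 ≤ (‖x‖ + ‖y‖) ^ 2 := pow_le_pow_left₀ (norm_nonneg _) h6 2
  nlinarith [sq_nonneg (‖x‖ - ‖y‖)]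

/-- Approximation in the Stepanov norm by continuous functions on the torus. -/
def Step2 (L : ℝ → E) (P : ℕ → Om → E) : Prop :=
  ∀ ε : ℝ, 0 < ε → ∃ Y₀ : ℕ, ∀ Y, Y₀ ≤ Y → ∀ a : ℝ,
    ∫⁻ τ in Set.Ioc a (a + 1), ENNReal.ofReal (‖L τ - P Y (zt τ)‖ ^ 2) ≤ ENNReal.ofReal ε

lemma step_mean {L : ℝ → E} {P : ℕ → Om → E} (hS : Step2 L P) (ε : ℝ) (hε : 0 < ε) :
    ∃ Y₀ : ℕ, ∀ Y, Y₀ ≤ Y → ∀ a b : ℝ, 1 ≤ b - a →
      ∫⁻ τ in Set.Ioc a b, ENNReal.ofReal (‖L τ - P Y (zt τ)‖ ^ 2) ≤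
        ENNReal.ofReal (ε * (b - a)) := by
  obtain ⟨Y₀, h⟩ := hS (ε / 2) (by positivity)
  refine ⟨Y₀, fun Y hY a b hab => ?_⟩
  refine (cover _ _ (h Y hY) a b hab).trans (le_of_eq ?_)
  rw [← ENNReal.ofReal_mul (by linarith)]
  congr 1
  ring

lemma aem {L : ℝ → E} (hL : AEStronglyMeasurable L volume) {g : ℝ → E} (hg : Continuous g)
    [SecondCountableTopology E] (s : Set ℝ) :
    AEMeasurable (fun t => ENNReal.ofReal (‖L t - g t‖ ^ 2)) (volume.restrict s) :=
  ENNReal.measurable_ofReal.comp_aemeasurable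
    ((hL.restrict.sub hg.aestronglyMeasurable).norm.aemeasurable.pow_const 2)

/-- The approximations form a Cauchy sequence. -/
lemma cauchy_P [SecondCountableTopology E] {L : ℝ → E} (hL : AEStronglyMeasurable L volume)
    {P : ℕ → Om → E} (hP : ∀ Y, Continuous (P Y)) (hS : Step2 L P) (ε : ℝ)
    (hε : 0 < ε) : ∃ Y₀ : ℕ, ∀ Y Y', Y₀ ≤ Y → Y₀ ≤ Y' →
      ∫ z, ‖P Y z - P Y' z‖ ^ 2 ∂tor ≤ ε := by
  obtain ⟨Y₀, h⟩ := step_mean hS (ε / 8) (by positivity)
  refine ⟨Y₀, fun Y Y' hY hY' => ?_⟩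
  have hc : Continuous fun z : Om => ‖P Y z - P Y' z‖ ^ 2 := ((hP Y).sub (hP Y')).norm.pow 2
  obtain ⟨T, hT, h1⟩ := kwR _ hc (ε / 2) (by positivity)
  set b : ℝ := max T 1 with hb
  have hb1 : 1 ≤ b := le_max_right _ _
  have h2 := h1 0 b (by rw [sub_zero]; exact le_max_left _ _)
  rw [sub_zero] at h2
  have hcz : Continuous fun t : ℝ => ‖P Y (zt t) - P Y' (zt t)‖ ^ 2 := hc.comp continuous_zt
  have h3 : ∫ t in (0 : ℝ)..b, ‖P Y (zt t) - P Y' (zt t)‖ ^ 2 ≤ ε / 2 * b := by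
    rw [intervalIntegral.integral_of_le (by linarith)]
    refine (ENNReal.ofReal_le_ofReal_iff (by positivity)).1 ?_
    rw [ofReal_integral_eq_lintegral_ofReal hcz.integrableOn_Ioc
      (ae_of_all _ fun t => by positivity)]
    calc ∫⁻ t in Set.Ioc 0 b, ENNReal.ofReal (‖P Y (zt t) - P Y' (zt t)‖ ^ 2)
        ≤ ∫⁻ t in Set.Ioc 0 b, (2 * ENNReal.ofReal (‖L t - P Y (zt t)‖ ^ 2) +
            2 * ENNReal.ofReal (‖L t - P Y' (zt t)‖ ^ 2)) := by
          refine lintegral_mono fun t => ?_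
          rw [show (2 : ℝ≥0∞) = ENNReal.ofReal 2 by norm_num, ← ENNReal.ofReal_mul (by norm_num),
            ← ENNReal.ofReal_mul (by norm_num),
            ← ENNReal.ofReal_add (by positivity) (by positivity)]
          refine ENNReal.ofReal_le_ofReal ?_
          have h5 := sq_add_le (L t - P Y' (zt t)) (L t - P Y (zt t))
          rw [sub_sub_sub_cancel_left] at h5
          linarith
      _ ≤ 2 * ENNReal.ofReal (ε / 8 * (b - 0)) + 2 * ENNReal.ofReal (ε / 8 * (b - 0)) := by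
          have ha : AEMeasurable (fun t => 2 * ENNReal.ofReal (‖L t - P Y (zt t)‖ ^ 2))
            (volume.restrict (Set.Ioc 0 b)) := (aem hL ((hP Y).comp continuous_zt) _).const_mul 2
          rw [lintegral_add_left' ha,
            lintegral_const_mul' _ _ (by norm_num), lintegral_const_mul' _ _ (by norm_num)]
          gcongr
          · exact h Y hY 0 b (by linarith)
          · exact h Y' hY' 0 b (by linarith)
      _ = ENNReal.ofReal (ε / 2 * b) := by
          rw [sub_zero, show (2 : ℝ≥0∞) = ENNReal.ofReal 2 by norm_num,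
            ← ENNReal.ofReal_mul (by norm_num),
            ← ENNReal.ofReal_add (by positivity) (by positivity)]
          congr 1
          ring
  have h4 : 1 / b * ∫ t in (0 : ℝ)..b, ‖P Y (zt t) - P Y' (zt t)‖ ^ 2 ≤ ε / 2 := by
    rw [one_div, inv_mul_le_iff₀ (by linarith)]
    linarith
  have h5 := (abs_le.1 h2).1
  linarith

lemma sq_toReal [SecondCountableTopology E] {f : Om → E} (hf : MemLp f 2 tor) :
    (eLpNorm f 2 tor).toReal ^ 2 = ∫ z, ‖f z‖ ^ 2 ∂tor := by
  rw [hf.eLpNorm_eq_integral_rpow_norm (by norm_num) (by norm_num)]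
  have h1 : ∀ z, ‖f z‖ ^ (2 : ℝ≥0∞).toReal = ‖f z‖ ^ 2 := by
    intro z
    rw [show (2 : ℝ≥0∞).toReal = ((2 : ℕ) : ℝ) by norm_num, Real.rpow_natCast]
  simp_rw [h1]
  have h0 : 0 ≤ ∫ z, ‖f z‖ ^ 2 ∂tor := integral_nonneg fun z => by positivity
  rw [ENNReal.toReal_ofReal (Real.rpow_nonneg h0 _), ← Real.rpow_natCast, ← Real.rpow_mul h0]
  norm_num

/-- The limit in mean square. -/
lemma exists_W [SecondCountableTopology E] [CompleteSpace E] {P : ℕ → Om → E}
    (hP : ∀ Y, Continuous (P Y))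
    (hc : ∀ ε : ℝ, 0 < ε → ∃ Y₀ : ℕ, ∀ Y Y', Y₀ ≤ Y → Y₀ ≤ Y' →
      ∫ z, ‖P Y z - P Y' z‖ ^ 2 ∂tor ≤ ε) :
    ∃ W : Om → E, MemLp W 2 tor ∧
      Tendsto (fun Y => ∫ z, ‖W z - P Y z‖ ^ 2 ∂tor) atTop (𝓝 0) := by
  have hm : ∀ Y, MemLp (P Y) 2 tor := fun Y => memLp_two (hP Y)
  let F : ℕ → Lp E 2 tor := fun Y => (hm Y).toLp (P Y)
  have hF : CauchySeq F := by
    rw [Metric.cauchySeq_iff]
    intro ε hε
    obtain ⟨Y₀, h⟩ := hc ((ε / 2) ^ 2) (by positivity)
    refine ⟨Y₀, fun Y hY Y' hY' => ?_⟩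
    rw [dist_eq_norm]
    have h1 : F Y - F Y' = ((hm Y).sub (hm Y')).toLp (P Y - P Y') := rfl
    rw [h1, Lp.norm_toLp]
    have h2 := sq_toReal ((hm Y).sub (hm Y'))
    simp only [Pi.sub_apply] at h2
    have h3 := h Y Y' hY hY'
    rw [← h2] at h3
    have h4 := (pow_le_pow_iff_left₀ ENNReal.toReal_nonneg (by positivity) two_ne_zero).1 h3
    linarith
  obtain ⟨G, hG⟩ := cauchySeq_tendsto_of_complete hF
  refine ⟨G, Lp.memLp G, ?_⟩
  have h1 : ∀ Y, ∫ z, ‖G z - P Y z‖ ^ 2 ∂tor = ‖G - F Y‖ ^ 2 := by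
    intro Y
    have h2 : G - F Y = ((Lp.memLp G).sub (hm Y)).toLp ((G : Om → E) - P Y) := by
      conv_lhs => rw [← Lp.toLp_coeFn G (Lp.memLp G)]
      rfl
    rw [h2, Lp.norm_toLp, sq_toReal ((Lp.memLp G).sub (hm Y))]
    rfl
  simp_rw [h1]
  have h2 : Tendsto (fun Y => G - F Y) atTop (𝓝 (G - G)) := hG.const_sub G
  rw [sub_self] at h2
  have h3 := (h2.norm).pow 2
  rw [norm_zero] at h3
  simpa using h3

/-- The modulus of continuity in quadratic form. -/
lemma quad {φ : E → ℂ} (hφ : Continuous φ) (hc : HasCompactSupport φ) (η : ℝ) (hη : 0 < η) :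
    ∃ C : ℝ, 0 ≤ C ∧ ∀ u v : E, ‖φ u - φ v‖ ≤ η + C * ‖u - v‖ ^ 2 := by
  have hu := hc.uniformContinuous_of_continuous hφ
  obtain ⟨δ, hδ, h⟩ := Metric.uniformContinuous_iff.1 hu η hη
  obtain ⟨M, hM⟩ := hc.exists_bound_of_continuous hφ
  have hM0 : 0 ≤ M := (norm_nonneg _).trans (hM 0)
  refine ⟨2 * M / δ ^ 2, by positivity, fun u v => ?_⟩
  by_cases huv : ‖u - v‖ < δ
  · have h1 := h (a := u) (b := v) (by rwa [dist_eq_norm])
    rw [dist_eq_norm] at h1
    have : 0 ≤ 2 * M / δ ^ 2 * ‖u - v‖ ^ 2 := by positivity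
    linarith
  · push Not at huv
    have h1 : ‖φ u - φ v‖ ≤ 2 * M := (norm_sub_le _ _).trans (by linarith [hM u, hM v])
    have h2 : 2 * M ≤ 2 * M / δ ^ 2 * ‖u - v‖ ^ 2 := by
      rw [div_mul_eq_mul_div, le_div_iff₀ (by positivity)]
      gcongr
    linarith

lemma mab_eq {f : ℝ → ℂ} {a b : ℝ} (h : a ≤ b) :
    mab f a b = ((1 / (b - a) : ℝ) : ℂ) * ∫ t in Set.Ioc a b, f t := by
  unfold mab
  rw [intervalIntegral.integral_of_le h]

/-- The means of a compactly supported function of `L`. -/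
lemma conv_cc [SecondCountableTopology E] {L : ℝ → E} (hL : AEStronglyMeasurable L volume)
    {P : ℕ → Om → E} (hP : ∀ Y, Continuous (P Y)) (hS : Step2 L P) {W : Om → E}
    (hW : MemLp W 2 tor) (hWP : Tendsto (fun Y => ∫ z, ‖W z - P Y z‖ ^ 2 ∂tor) atTop (𝓝 0))
    {φ : E → ℂ} (hφ : Continuous φ) (hc : HasCompactSupport φ) (ε : ℝ) (hε : 0 < ε) :
    ∃ T : ℝ, 1 ≤ T ∧ ∀ a b : ℝ, T ≤ b - a →
      ‖mab (fun t => φ (L t)) a b - ∫ z, φ (W z) ∂tor‖ ≤ ε := by
  obtain ⟨C, hC0, hC⟩ := quad hφ hc (ε / 8) (by positivity)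
  obtain ⟨Y₁, hY₁⟩ := step_mean hS (ε / (8 * (C + 1))) (by positivity)
  obtain ⟨Y₂, hY₂⟩ := (Metric.tendsto_atTop.1 hWP) (ε / (8 * (C + 1))) (by positivity)
  set Y := max Y₁ Y₂ with hY
  have hs := hY₁ Y (le_max_left _ _)
  have hw := hY₂ Y (le_max_right _ _)
  rw [Real.dist_eq, sub_zero] at hw
  have hw' : ∫ z, ‖W z - P Y z‖ ^ 2 ∂tor ≤ ε / (8 * (C + 1)) := (le_abs_self _).trans hw.le
  have hCC : C * (ε / (8 * (C + 1))) ≤ ε / 8 := by
    rw [mul_div_assoc', div_le_div_iff₀ (by positivity) (by positivity)]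
    nlinarith
  obtain ⟨T, hT, hk⟩ := kwU ⟨fun z => φ (P Y z), hφ.comp (hP Y)⟩ (ε / 4) (by positivity)
  refine ⟨max T 1, le_max_right _ _, fun a b hab => ?_⟩
  have hab1 : 1 ≤ b - a := (le_max_right _ _).trans hab
  have hk' := hk a b ((le_max_left _ _).trans hab)
  simp only [ContinuousMap.coe_mk] at hk'
  obtain ⟨M, hM⟩ := hc.exists_bound_of_continuous hφ
  have hi1 : IntegrableOn (fun t => φ (L t)) (Set.Ioc a b) := by
    refine (MemLp.of_bound (p := 1) (C := M) ?_ (ae_of_all _ fun t => hM _)).integrable le_rfl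
    exact hφ.comp_aestronglyMeasurable hL.restrict
  have hi2 : IntegrableOn (fun t => φ (P Y (zt t))) (Set.Ioc a b) :=
    ((hφ.comp (hP Y)).comp continuous_zt).integrableOn_Ioc
  have h1 : ‖mab (fun t => φ (L t)) a b - mab (fun t => φ (P Y (zt t))) a b‖ ≤ ε / 4 := by
    rw [mab_eq (by linarith), mab_eq (by linarith), ← mul_sub, ← integral_sub hi1 hi2, norm_mul,
      Complex.norm_real, Real.norm_of_nonneg (by positivity), one_div,
      inv_mul_le_iff₀ (by linarith)]
    refine (norm_integral_le_lintegral_norm _).trans ?_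
    refine ENNReal.toReal_le_of_le_ofReal (by nlinarith) ?_
    calc ∫⁻ t in Set.Ioc a b, ENNReal.ofReal ‖φ (L t) - φ (P Y (zt t))‖
        ≤ ∫⁻ t in Set.Ioc a b, (ENNReal.ofReal (ε / 8) +
            ENNReal.ofReal C * ENNReal.ofReal (‖L t - P Y (zt t)‖ ^ 2)) := by
          refine lintegral_mono fun t => ?_
          rw [← ENNReal.ofReal_mul hC0, ← ENNReal.ofReal_add (by positivity) (by positivity)]
          exact ENNReal.ofReal_le_ofReal (hC _ _)
      _ = ENNReal.ofReal (ε / 8 * (b - a)) + ENNReal.ofReal C *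
            ∫⁻ t in Set.Ioc a b, ENNReal.ofReal (‖L t - P Y (zt t)‖ ^ 2) := by
          rw [lintegral_add_left measurable_const, lintegral_const_mul' _ _ (by simp)]
          congr 1
          rw [lintegral_const, Measure.restrict_apply MeasurableSet.univ, Set.univ_inter,
            Real.volume_Ioc, ← ENNReal.ofReal_mul (by positivity)]
      _ ≤ ENNReal.ofReal (ε / 8 * (b - a)) + ENNReal.ofReal C *
            ENNReal.ofReal (ε / (8 * (C + 1)) * (b - a)) := by
          gcongr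
          exact hs a b hab1
      _ ≤ ENNReal.ofReal ((b - a) * (ε / 4)) := by
          rw [← ENNReal.ofReal_mul hC0,
            ← ENNReal.ofReal_add (by nlinarith) (mul_nonneg hC0 (mul_nonneg (by positivity)
              (by linarith)))]
          refine ENNReal.ofReal_le_ofReal ?_
          nlinarith
  have hj1 : Integrable (fun z => φ (W z)) tor :=
    (MemLp.of_bound (p := 1) (C := M) (hφ.comp_aestronglyMeasurable hW.1)
      (ae_of_all _ fun t => hM _)).integrable le_rfl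
  have hj2 : Integrable (fun z => φ (P Y z)) tor := intCC (hφ.comp (hP Y))
  have hj3 : Integrable (fun z => ‖W z - P Y z‖ ^ 2) tor := by
    have := (hW.sub (memLp_two (hP Y))).integrable_norm_pow two_ne_zero
    simpa using this
  have h2 : ‖∫ z, φ (P Y z) ∂tor - ∫ z, φ (W z) ∂tor‖ ≤ ε / 4 := by
    rw [← integral_sub hj2 hj1]
    refine (norm_integral_le_integral_norm _).trans ?_
    calc ∫ z, ‖φ (P Y z) - φ (W z)‖ ∂tor ≤ ∫ z, (ε / 8 + C * ‖W z - P Y z‖ ^ 2) ∂tor := by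
          refine integral_mono (hj2.sub hj1).norm ((integrable_const _).add (hj3.const_mul C))
            fun z => ?_
          have := hC (W z) (P Y z)
          rwa [norm_sub_rev] at this
      _ = ε / 8 + C * ∫ z, ‖W z - P Y z‖ ^ 2 ∂tor := by
          rw [integral_add (integrable_const _) (hj3.const_mul C), integral_const_mul]
          simp
      _ ≤ ε / 8 + C * (ε / (8 * (C + 1))) := by gcongr
      _ ≤ ε / 4 := by linarith
  have h3 : mab (fun t => φ (L t)) a b - ∫ z, φ (W z) ∂tor =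
      (mab (fun t => φ (L t)) a b - mab (fun t => φ (P Y (zt t))) a b) +
      (mab (fun t => φ (P Y (zt t))) a b - ∫ z, φ (P Y z) ∂tor) +
      (∫ z, φ (P Y z) ∂tor - ∫ z, φ (W z) ∂tor) := by ring
  rw [h3]
  refine norm_add₃_le.trans ?_
  linarith

/-- The cut-off. -/
noncomputable def cut (R : ℕ) (z : E) : ℝ := max 0 (min 1 (R + 1 - ‖z‖))

lemma continuous_cut (R : ℕ) : Continuous (cut R : E → ℝ) := by
  unfold cut
  fun_prop

lemma cut_nonneg (R : ℕ) (z : E) : 0 ≤ cut R z := le_max_left _ _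

lemma cut_le_one (R : ℕ) (z : E) : cut R z ≤ 1 := max_le zero_le_one (min_le_left _ _)

lemma cut_eq_one {R : ℕ} {z : E} (h : ‖z‖ ≤ R) : cut R z = 1 := by
  unfold cut
  rw [min_eq_left (by linarith), max_eq_right zero_le_one]

lemma cut_compact [ProperSpace E] (R : ℕ) : HasCompactSupport (cut R : E → ℝ) := by
  refine HasCompactSupport.intro (isCompact_closedBall (0 : E) (R + 1)) fun z hz => ?_
  rw [mem_closedBall_zero_iff, not_le] at hz
  unfold cut
  rw [max_eq_left]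
  exact (min_le_right _ _).trans (by linarith)

section growth

variable [SecondCountableTopology E] [ProperSpace E] {L : ℝ → E}
  (hL : AEStronglyMeasurable L volume) {P : ℕ → Om → E} (hP : ∀ Y, Continuous (P Y))
  (hS : Step2 L P) {W : Om → E} (hW : MemLp W 2 tor)
  (hWP : Tendsto (fun Y => ∫ z, ‖W z - P Y z‖ ^ 2 ∂tor) atTop (𝓝 0))
  {G : E → ℝ} (hG : Continuous G) {κ : ℝ} (hκ : 0 < κ) (hGκ : ∀ z, Real.exp (κ * ‖z‖) ≤ G z)
  {C : ℝ} (hC : 0 ≤ C)
  (hB : ∀ a b : ℝ, 1 ≤ b - a → ∫⁻ t in Set.Ioc a b, ENNReal.ofReal (G (L t) ^ 2) ≤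
    ENNReal.ofReal (C * (b - a)))

include hκ hGκ in
omit [SecondCountableTopology E] [ProperSpace E] in
lemma one_le_G (z : E) : 1 ≤ G z := by
  refine le_trans ?_ (hGκ z)
  rw [← Real.exp_zero]
  exact Real.exp_le_exp.2 (by positivity)

include hL hP hS hW hWP hG hC hB in
/-- The bound passes to the limit. -/
lemma W_cut (R : ℕ) : ∫ z, G (W z) ^ 2 * cut R (W z) ∂tor ≤ C := by
  refine le_of_forall_pos_le_add fun ε hε => ?_
  let φ : E → ℂ := fun z => ((G z ^ 2 * cut R z : ℝ) : ℂ)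
  have hφ : Continuous φ := Complex.continuous_ofReal.comp ((hG.pow 2).mul (continuous_cut R))
  have hc : HasCompactSupport φ := by
    refine (cut_compact R).mono fun z hz => ?_
    simp only [Function.mem_support] at hz ⊢
    intro h0
    exact hz (by simp [φ, h0])
  obtain ⟨T, hT, h⟩ := conv_cc hL hP hS hW hWP hφ hc ε hε
  have h1 := h 0 T (by linarith)
  have hT0 : 0 < T := by linarith
  rw [mab_eq hT0.le, sub_zero] at h1
  simp only [φ] at h1
  rw [integral_complex_ofReal, integral_complex_ofReal, ← Complex.ofReal_mul,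
    ← Complex.ofReal_sub, Complex.norm_real, Real.norm_eq_abs] at h1
  have h2 : ∫ t in Set.Ioc 0 T, G (L t) ^ 2 * cut R (L t) ≤ C * T := by
    have hn : ∀ t, 0 ≤ G (L t) ^ 2 * cut R (L t) := fun t =>
      mul_nonneg (sq_nonneg _) (cut_nonneg _ _)
    refine (le_abs_self _).trans ?_
    rw [← Real.norm_eq_abs]
    refine (norm_integral_le_lintegral_norm _).trans ?_
    refine ENNReal.toReal_le_of_le_ofReal (by positivity) ?_
    have h3 := hB 0 T (by linarith)
    rw [sub_zero] at h3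
    refine le_trans (lintegral_mono fun t => ENNReal.ofReal_le_ofReal ?_) h3
    rw [Real.norm_of_nonneg (hn t)]
    exact mul_le_of_le_one_right (sq_nonneg _) (cut_le_one _ _)
  have h3 : 1 / T * ∫ t in Set.Ioc 0 T, G (L t) ^ 2 * cut R (L t) ≤ C := by
    rw [one_div, inv_mul_le_iff₀ hT0]
    linarith
  have h4 := (abs_le.1 h1).1
  linarith

include hL hP hS hW hWP hG hC hB in
lemma W_bound : ∫⁻ z, ENNReal.ofReal (G (W z) ^ 2) ∂tor ≤ ENNReal.ofReal C := by
  have h1 : ∀ z, ENNReal.ofReal (G (W z) ^ 2) =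
      liminf (fun R : ℕ => ENNReal.ofReal (G (W z) ^ 2 * cut R (W z))) atTop := by
    intro z
    refine (Tendsto.liminf_eq ?_).symm
    obtain ⟨R₀, hR₀⟩ := exists_nat_ge ‖W z‖
    refine tendsto_const_nhds.congr' ?_
    filter_upwards [eventually_ge_atTop R₀] with R hR
    rw [cut_eq_one (hR₀.trans (by exact_mod_cast hR)), mul_one]
  simp_rw [h1]
  have hm : ∀ R : ℕ, AEStronglyMeasurable (fun z => G (W z) ^ 2 * cut R (W z)) tor := fun R =>
    ((hG.pow 2).mul (continuous_cut R)).comp_aestronglyMeasurable hW.1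
  refine (lintegral_liminf_le' fun R => ?_).trans ?_
  · exact ENNReal.measurable_ofReal.comp_aemeasurable (hm R).aemeasurable
  · refine (liminf_le_liminf (v := fun _ => ENNReal.ofReal C) ?_).trans
      (le_of_eq (liminf_const _))
    refine Eventually.of_forall fun R => ?_
    have hn : ∀ z, 0 ≤ G (W z) ^ 2 * cut R (W z) := fun t =>
      mul_nonneg (sq_nonneg _) (cut_nonneg _ _)
    have hcc : HasCompactSupport fun z : E => G z ^ 2 * cut R z := by
      refine (cut_compact R).mono fun z hz => ?_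
      simp only [Function.mem_support] at hz ⊢
      intro h0
      exact hz (by simp [h0])
    obtain ⟨M, hM⟩ := hcc.exists_bound_of_continuous ((hG.pow 2).mul (continuous_cut R))
    have hint : Integrable (fun z => G (W z) ^ 2 * cut R (W z)) tor :=
      (MemLp.of_bound (p := 1) (C := M) (hm R) (ae_of_all _ fun t => hM _)).integrable le_rfl
    rw [← ofReal_integral_eq_lintegral_ofReal hint (ae_of_all _ hn)]
    exact ENNReal.ofReal_le_ofReal (W_cut hL hP hS hW hWP hG hC hB R)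

include hL hP hS hW hWP hG hκ hGκ hC hB in
/-- **The limiting distribution.** -/
theorem conv {φ : E → ℂ} (hφ : Continuous φ) {A : ℝ} (hA : ∀ z, ‖φ z‖ ≤ A * G z) :
    (∀ a b : ℝ, IntegrableOn (fun t => φ (L t)) (Set.Ioc a b)) ∧
    Integrable (fun z => φ (W z)) tor ∧
    ∀ ε : ℝ, 0 < ε → ∃ T : ℝ, 1 ≤ T ∧ ∀ a b : ℝ, T ≤ b - a →
      ‖mab (fun t => φ (L t)) a b - ∫ z, φ (W z) ∂tor‖ ≤ ε := by
  have hG1 : ∀ z, 1 ≤ G z := one_le_G hκ hGκ
  have hA0 : 0 ≤ A := by
    have h1 := (norm_nonneg _).trans (hA 0)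
    have h2 := hG1 0
    by_contra h
    push Not at h
    nlinarith
  have hGG : ∀ z, G z ≤ G z ^ 2 := fun z => by
    have := hG1 z
    nlinarith
  have hA2 : ∀ z, ‖φ z‖ ≤ A * G z ^ 2 := fun z =>
    (hA z).trans (mul_le_mul_of_nonneg_left (hGG z) hA0)
  have hLm : ∀ (g : E → ℂ), Continuous g → ∀ s : Set ℝ,
      AEStronglyMeasurable (fun t => g (L t)) (volume.restrict s) := fun g hg s =>
    hg.comp_aestronglyMeasurable hL.restrict
  have hWm : ∀ (g : E → ℂ), Continuous g → AEStronglyMeasurable (fun z => g (W z)) tor :=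
    fun g hg => hg.comp_aestronglyMeasurable hW.1
  have hWb := W_bound hL hP hS hW hWP hG hC hB
  have hintL : ∀ a b : ℝ, IntegrableOn (fun t => φ (L t)) (Set.Ioc a b) := by
    intro a b
    have h1 : IntegrableOn (fun t => φ (L t)) (Set.Ioc a (max b (a + 1))) := by
      refine ⟨hLm φ hφ _, ?_⟩
      rw [hasFiniteIntegral_iff_norm]
      have h2 := hB a (max b (a + 1)) (by linarith [le_max_right b (a + 1)])
      calc ∫⁻ t in Set.Ioc a (max b (a + 1)), ENNReal.ofReal ‖φ (L t)‖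
          ≤ ∫⁻ t in Set.Ioc a (max b (a + 1)), ENNReal.ofReal A * ENNReal.ofReal (G (L t) ^ 2) := by
            refine lintegral_mono fun t => ?_
            rw [← ENNReal.ofReal_mul hA0]
            exact ENNReal.ofReal_le_ofReal (hA2 _)
        _ = ENNReal.ofReal A * ∫⁻ t in Set.Ioc a (max b (a + 1)), ENNReal.ofReal (G (L t) ^ 2) :=
            lintegral_const_mul' _ _ (by simp)
        _ < ⊤ := ENNReal.mul_lt_top (by simp) (lt_of_le_of_lt h2 (by simp))
    exact h1.mono_set (Set.Ioc_subset_Ioc_right (le_max_left _ _))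
  have hintW : Integrable (fun z => φ (W z)) tor := by
    refine ⟨hWm φ hφ, ?_⟩
    rw [hasFiniteIntegral_iff_norm]
    calc ∫⁻ z, ENNReal.ofReal ‖φ (W z)‖ ∂tor
        ≤ ∫⁻ z, ENNReal.ofReal A * ENNReal.ofReal (G (W z) ^ 2) ∂tor := by
          refine lintegral_mono fun t => ?_
          rw [← ENNReal.ofReal_mul hA0]
          exact ENNReal.ofReal_le_ofReal (hA2 _)
      _ = ENNReal.ofReal A * ∫⁻ z, ENNReal.ofReal (G (W z) ^ 2) ∂tor :=
          lintegral_const_mul' _ _ (by simp)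
      _ < ⊤ := ENNReal.mul_lt_top (by simp) (lt_of_le_of_lt hWb (by simp))
  refine ⟨hintL, hintW, fun ε hε => ?_⟩
  -- the cut-off radius
  obtain ⟨R, hR⟩ : ∃ R : ℕ, A * C * Real.exp (-(κ * R)) ≤ ε / 4 := by
    have h1 : Tendsto (fun R : ℕ => A * C * Real.exp (-(κ * R))) atTop (𝓝 (A * C * 0)) := by
      refine Tendsto.const_mul _ ?_
      refine Real.tendsto_exp_atBot.comp ?_
      refine tendsto_neg_atTop_atBot.comp ?_
      exact Tendsto.const_mul_atTop hκ tendsto_natCast_atTop_atTop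
    rw [mul_zero] at h1
    obtain ⟨R, hR⟩ := (h1.eventually (ge_mem_nhds (by positivity : (0 : ℝ) < ε / 4))).exists
    exact ⟨R, hR⟩
  let φ₁ : E → ℂ := fun z => φ z * (cut R z : ℝ)
  let φ₂ : E → ℂ := fun z => φ z * ((1 - cut R z : ℝ) : ℂ)
  have hφ₁ : Continuous φ₁ :=
    hφ.mul (Complex.continuous_ofReal.comp (continuous_cut R))
  have hφ₂ : Continuous φ₂ :=
    hφ.mul (Complex.continuous_ofReal.comp (continuous_const.sub (continuous_cut R)))
  have hsum : ∀ z, φ z = φ₁ z + φ₂ z := by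
    intro z
    simp only [φ₁, φ₂]
    push_cast
    ring
  have hc₁ : HasCompactSupport φ₁ := by
    refine (cut_compact R).mono fun z hz => ?_
    simp only [Function.mem_support] at hz ⊢
    intro h0
    exact hz (by simp [φ₁, h0])
  have hb₂ : ∀ z, ‖φ₂ z‖ ≤ A * Real.exp (-(κ * R)) * G z ^ 2 := by
    intro z
    simp only [φ₂]
    rw [norm_mul, Complex.norm_real, Real.norm_of_nonneg (by linarith [cut_le_one R z])]
    by_cases hz : ‖z‖ ≤ R
    · rw [cut_eq_one hz, sub_self, mul_zero]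
      have := hG1 z
      positivity
    · push Not at hz
      have h1 : Real.exp (κ * R) ≤ G z := by
        refine le_trans (Real.exp_le_exp.2 ?_) (hGκ z)
        gcongr
      have h2 : 1 ≤ Real.exp (-(κ * R)) * G z := by
        rw [Real.exp_neg, inv_mul_eq_div, le_div_iff₀ (Real.exp_pos _), one_mul]
        exact h1
      have h3 := hG1 z
      calc ‖φ z‖ * (1 - cut R z) ≤ ‖φ z‖ * 1 := by
            gcongr
            linarith [cut_nonneg R z]
        _ ≤ A * G z := by rw [mul_one]; exact hA z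
        _ = A * G z * 1 := by ring
        _ ≤ A * G z * (Real.exp (-(κ * R)) * G z) := by gcongr
        _ = _ := by ring
  obtain ⟨T, hT, hk⟩ := conv_cc hL hP hS hW hWP hφ₁ hc₁ (ε / 2) (by positivity)
  refine ⟨T, hT, fun a b hab => ?_⟩
  have hab1 : 1 ≤ b - a := hT.trans hab
  obtain ⟨M, hM⟩ := hc₁.exists_bound_of_continuous hφ₁
  have hi1 : IntegrableOn (fun t => φ₁ (L t)) (Set.Ioc a b) :=
    (MemLp.of_bound (p := 1) (C := M) (hLm φ₁ hφ₁ _) (ae_of_all _ fun t => hM _)).integrable le_rfl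
  have hi2 : IntegrableOn (fun t => φ₂ (L t)) (Set.Ioc a b) := by
    refine ((hintL a b).sub hi1).congr (ae_of_all _ fun t => ?_)
    simp only [Pi.sub_apply]
    rw [hsum (L t)]
    ring
  have hj1 : Integrable (fun z => φ₁ (W z)) tor :=
    (MemLp.of_bound (p := 1) (C := M) (hWm φ₁ hφ₁) (ae_of_all _ fun t => hM _)).integrable le_rfl
  have hj2 : Integrable (fun z => φ₂ (W z)) tor := by
    refine (hintW.sub hj1).congr (ae_of_all _ fun t => ?_)
    simp only [Pi.sub_apply]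
    rw [hsum (W t)]
    ring
  have hE0 : 0 ≤ A * Real.exp (-(κ * R)) := by positivity
  have h1 : ‖mab (fun t => φ₂ (L t)) a b‖ ≤ ε / 4 := by
    rw [mab_eq (by linarith), norm_mul,
      Complex.norm_real, Real.norm_of_nonneg (by positivity), one_div,
      inv_mul_le_iff₀ (by linarith)]
    refine (norm_integral_le_lintegral_norm _).trans ?_
    refine ENNReal.toReal_le_of_le_ofReal (by nlinarith) ?_
    calc ∫⁻ t in Set.Ioc a b, ENNReal.ofReal ‖φ₂ (L t)‖
        ≤ ∫⁻ t in Set.Ioc a b, ENNReal.ofReal (A * Real.exp (-(κ * R))) *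
            ENNReal.ofReal (G (L t) ^ 2) := by
          refine lintegral_mono fun t => ?_
          rw [← ENNReal.ofReal_mul hE0]
          exact ENNReal.ofReal_le_ofReal (hb₂ _)
      _ = ENNReal.ofReal (A * Real.exp (-(κ * R))) *
            ∫⁻ t in Set.Ioc a b, ENNReal.ofReal (G (L t) ^ 2) :=
          lintegral_const_mul' _ _ (by simp)
      _ ≤ ENNReal.ofReal (A * Real.exp (-(κ * R))) * ENNReal.ofReal (C * (b - a)) := by
          gcongr
          exact hB a b hab1
      _ ≤ ENNReal.ofReal ((b - a) * (ε / 4)) := by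
          rw [← ENNReal.ofReal_mul hE0]
          refine ENNReal.ofReal_le_ofReal ?_
          have : A * Real.exp (-(κ * R)) * (C * (b - a)) =
            (b - a) * (A * C * Real.exp (-(κ * R))) := by ring
          rw [this]
          gcongr
  have h2 : ‖∫ z, φ₂ (W z) ∂tor‖ ≤ ε / 4 := by
    refine (norm_integral_le_lintegral_norm _).trans ?_
    refine ENNReal.toReal_le_of_le_ofReal (by positivity) ?_
    calc ∫⁻ z, ENNReal.ofReal ‖φ₂ (W z)‖ ∂tor
        ≤ ∫⁻ z, ENNReal.ofReal (A * Real.exp (-(κ * R))) *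
            ENNReal.ofReal (G (W z) ^ 2) ∂tor := by
          refine lintegral_mono fun t => ?_
          rw [← ENNReal.ofReal_mul hE0]
          exact ENNReal.ofReal_le_ofReal (hb₂ _)
      _ = ENNReal.ofReal (A * Real.exp (-(κ * R))) *
            ∫⁻ z, ENNReal.ofReal (G (W z) ^ 2) ∂tor :=
          lintegral_const_mul' _ _ (by simp)
      _ ≤ ENNReal.ofReal (A * Real.exp (-(κ * R))) * ENNReal.ofReal C := by gcongr
      _ ≤ ENNReal.ofReal (ε / 4) := by
          rw [← ENNReal.ofReal_mul hE0]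
          refine ENNReal.ofReal_le_ofReal ?_
          have : A * Real.exp (-(κ * R)) * C = A * C * Real.exp (-(κ * R)) := by ring
          rw [this]
          exact hR
  have h3 : mab (fun t => φ (L t)) a b = mab (fun t => φ₁ (L t)) a b +
      mab (fun t => φ₂ (L t)) a b := by
    rw [mab_eq (by linarith), mab_eq (by linarith), mab_eq (by linarith), ← mul_add,
      ← integral_add hi1 hi2]
    simp only [hsum]
  have h4 : ∫ z, φ (W z) ∂tor = ∫ z, φ₁ (W z) ∂tor + ∫ z, φ₂ (W z) ∂tor := by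
    rw [← integral_add hj1 hj2]
    simp only [hsum]
  have h5 := hk a b hab
  have h6 : mab (fun t => φ (L t)) a b - ∫ z, φ (W z) ∂tor =
      (mab (fun t => φ₁ (L t)) a b - ∫ z, φ₁ (W z) ∂tor) + mab (fun t => φ₂ (L t)) a b +
        -∫ z, φ₂ (W z) ∂tor := by
    rw [h3, h4]
    ring
  rw [h6]
  refine norm_add₃_le.trans ?_
  rw [norm_neg]
  linarith

end growth

end dist

end Run7.h522.BM
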