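import Pool.Agent.Helper873.Mean

set_option autoImplicit false
open MeasureTheory Metric Filter
open scoped ComplexConjugate ENNReal Topology

namespace Run7.h522.BM

open Pool.Agent.Helper873.OneVar Pool.Agent.Helper873.Product Pool.Agent.Helper873.Alg
  Pool.Agent.Helper873.Monomial Pool.Agent.Helper873.Embed Pool.Agent.Helper873.Mean

/-- the infinite torus, one coordinate for each prime -/
abbrev Om := ℕ → UnitAddCircle

/-- mean over `[a, b]` -/
noncomputable def mab (f : ℝ → ℂ) (a b : ℝ) : ℂ := ((1 / (b - a) : ℝ) : ℂ) * ∫ t in a..b, f t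

lemma mab_le (f : ℝ → ℂ) (B : ℝ) (hB : ∀ t, ‖f t‖ ≤ B) (a b : ℝ) (h : a < b) :
    ‖mab f a b‖ ≤ B := by
  unfold mab
  have h0 : 0 < b - a := sub_pos.2 h
  rw [norm_mul, Complex.norm_real, Real.norm_of_nonneg (by positivity)]
  have h1 := intervalIntegral.norm_integral_le_of_norm_le_const (a := a) (b := b) (f := f) (C := B)
    fun t _ => hB t
  rw [abs_of_nonneg h0.le] at h1
  calc 1 / (b - a) * ‖∫ t in a..b, f t‖ ≤ 1 / (b - a) * (B * (b - a)) := by gcongr
    _ = B := by field_simp

lemma mab_exp (ω : ℝ) (hω : ω ≠ 0) (a b : ℝ) (h : a < b) :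
    ‖mab (fun t => Complex.exp ((ω * t : ℝ) * Complex.I)) a b‖ ≤ 2 / |ω| * (1 / (b - a)) := by
  have h0 : 0 < b - a := sub_pos.2 h
  have hint : ∫ t in a..b, Complex.exp (((ω * t : ℝ) : ℂ) * Complex.I) =
      (Complex.exp ((ω * b : ℝ) * Complex.I) - Complex.exp ((ω * a : ℝ) * Complex.I)) /
        (ω * Complex.I) := by
    have hc : (ω : ℂ) * Complex.I ≠ 0 := by
      refine mul_ne_zero ?_ Complex.I_ne_zero
      exact_mod_cast hω
    have h1 := integral_exp_mul_complex (a := a) (b := b) hc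
    have h2 : ∀ t : ℝ, Complex.exp (((ω * t : ℝ) : ℂ) * Complex.I) =
        Complex.exp ((ω : ℂ) * Complex.I * t) := by
      intro t; congr 1; push_cast; ring
    simp_rw [h2]
    rw [h1]
  unfold mab
  rw [hint, norm_mul, Complex.norm_real, Real.norm_of_nonneg (by positivity), norm_div,
    norm_mul, Complex.norm_I, mul_one, Complex.norm_real, Real.norm_eq_abs]
  have h3 : ‖Complex.exp ((ω * b : ℝ) * Complex.I) - Complex.exp ((ω * a : ℝ) * Complex.I)‖ ≤
      2 := by
    refine (norm_sub_le _ _).trans ?_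
    rw [Complex.norm_exp_ofReal_mul_I, Complex.norm_exp_ofReal_mul_I]
    norm_num
  have hω' : 0 < |ω| := abs_pos.2 hω
  calc 1 / (b - a) * (‖Complex.exp ((ω * b : ℝ) * Complex.I) -
        Complex.exp ((ω * a : ℝ) * Complex.I)‖ / |ω|) ≤ 1 / (b - a) * (2 / |ω|) := by gcongr
    _ = _ := by ring

/-- the time mean equals the space mean, uniformly over long intervals -/
def EqU (f : C(ℕ → UnitAddCircle, ℂ)) : Prop :=
  ∀ ε : ℝ, 0 < ε → ∃ T : ℝ, 0 < T ∧ ∀ a b : ℝ, T ≤ b - a →
    ‖mab (fun t => f (zt t)) a b - ∫ z, f z ∂tor‖ ≤ ε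

lemma eqU_char (m n : ℕ) : EqU (chiC m * star (chiC n)) := by
  intro ε hε
  by_cases h : m = n
  · subst h
    have h1 : ∀ z : ℕ → UnitAddCircle, (chiC m * star (chiC m)) z = 1 := by
      intro z
      simp only [ContinuousMap.mul_apply, ContinuousMap.star_apply, chiC, ContinuousMap.coe_mk]
      rw [← starRingEnd_apply, Complex.mul_conj, Complex.normSq_eq_norm_sq, norm_chi]
      simp
    simp_rw [h1]
    refine ⟨1, one_pos, fun a b hab => ?_⟩
    have h0 : 0 < b - a := by linarith
    have h2 : mab (fun _ => (1 : ℂ)) a b = 1 := by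
      unfold mab
      rw [intervalIntegral.integral_const]
      rw [Complex.real_smul, mul_one, ← Complex.ofReal_mul]
      have : 1 / (b - a) * (b - a) = 1 := by field_simp
      rw [this]; simp
    rw [h2]
    have h3 : ∫ _ : ℕ → UnitAddCircle, (1 : ℂ) ∂tor = 1 := by simp
    rw [h3, sub_self, norm_zero]
    exact hε.le
  · have h0 : ∫ z, (chiC m * star (chiC n)) z ∂tor = 0 := orth m n h
    rw [h0]
    set ω : ℝ := Real.log (n + 1) - Real.log (m + 1) with hω
    have hω0 : ω ≠ 0 := by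
      intro h0
      have h1 : Real.log (n + 1) = Real.log (m + 1) := by linarith
      have h2 := Real.log_injOn_pos (Set.mem_Ioi.2 (by positivity : (0 : ℝ) < (n : ℝ) + 1))
        (Set.mem_Ioi.2 (by positivity : (0 : ℝ) < (m : ℝ) + 1)) h1
      have h3 : (n : ℝ) = m := by linarith
      exact h (by exact_mod_cast h3.symm)
    have h1 : ∀ t : ℝ, (chiC m * star (chiC n)) (zt t) =
        Complex.exp ((ω * t : ℝ) * Complex.I) := by
      intro t
      simp only [ContinuousMap.mul_apply, ContinuousMap.star_apply, chiC, ContinuousMap.coe_mk]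
      rw [chi_zt, chi_zt, ← starRingEnd_apply, ← Complex.exp_conj, ← Complex.exp_add]
      congr 1
      rw [map_mul, Complex.conj_ofReal, Complex.conj_I, hω]
      push_cast
      ring
    simp_rw [h1, sub_zero]
    have hω' : 0 < |ω| := abs_pos.2 hω0
    refine ⟨2 / |ω| / ε, by positivity, fun a b hab => ?_⟩
    have h5 : 0 < 2 / |ω| / ε := by positivity
    have h6 : 0 < b - a := by linarith
    refine (mab_exp ω hω0 a b (by linarith)).trans ?_
    rw [mul_one_div, div_le_iff₀ h6]
    rw [div_le_iff₀ hε] at hab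
    linarith

lemma eqU_V (f : C(ℕ → UnitAddCircle, ℂ)) (hf : f ∈ V) : EqU f := by
  unfold V at hf
  induction hf using Submodule.span_induction with
  | mem f hf => obtain ⟨p, rfl⟩ := hf; exact eqU_char p.1 p.2
  | zero =>
    intro ε hε
    refine ⟨1, one_pos, fun a b _ => ?_⟩
    simp [mab, hε.le]
  | add f g _ _ hf hg =>
    intro ε hε
    obtain ⟨T, hT, h⟩ := hf (ε / 2) (by positivity)
    obtain ⟨T', hT', h'⟩ := hg (ε / 2) (by positivity)
    refine ⟨max T T', lt_max_of_lt_left hT, fun a b hab => ?_⟩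
    have h1 : ∫ z, (f + g) z ∂tor = ∫ z, f z ∂tor + ∫ z, g z ∂tor := by
      simp only [ContinuousMap.add_apply]
      exact integral_add (integrable_C f) (integrable_C g)
    have h2 : mab (fun t => (f + g) (zt t)) a b =
        mab (fun t => f (zt t)) a b + mab (fun t => g (zt t)) a b := by
      unfold mab
      simp only [ContinuousMap.add_apply]
      rw [intervalIntegral.integral_add (ii f _ _) (ii g _ _), mul_add]
    rw [h1, h2, add_sub_add_comm]
    refine (norm_add_le _ _).trans ?_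
    have := h a b ((le_max_left _ _).trans hab)
    have := h' a b ((le_max_right _ _).trans hab)
    linarith
  | smul c f _ hf =>
    intro ε hε
    obtain ⟨T, hT, h⟩ := hf (ε / (‖c‖ + 1)) (by positivity)
    refine ⟨T, hT, fun a b hab => ?_⟩
    have h1 : ∫ z, (c • f) z ∂tor = c * ∫ z, f z ∂tor := by
      simp only [ContinuousMap.smul_apply, smul_eq_mul]
      exact integral_const_mul _ _
    have h2 : mab (fun t => (c • f) (zt t)) a b = c * mab (fun t => f (zt t)) a b := by
      unfold mab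
      simp only [ContinuousMap.smul_apply, smul_eq_mul]
      rw [intervalIntegral.integral_const_mul]
      ring
    rw [h1, h2, ← mul_sub, norm_mul]
    have h3 := h a b hab
    calc ‖c‖ * _ ≤ ‖c‖ * (ε / (‖c‖ + 1)) := by gcongr
      _ ≤ (‖c‖ + 1) * (ε / (‖c‖ + 1)) := by gcongr; linarith
      _ = ε := by field_simp

/-- **Kronecker-Weyl**, uniformly over long intervals -/
theorem kwU (f : C(ℕ → UnitAddCircle, ℂ)) : EqU f := by
  intro ε hε
  obtain ⟨g, hg, hfg⟩ := dense f (ε / 4) (by positivity)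
  obtain ⟨T, hT, hN⟩ := eqU_V g hg (ε / 4) (by positivity)
  refine ⟨T, hT, fun a b hab => ?_⟩
  have h1 := hN a b hab
  have hpt : ∀ z, ‖f z - g z‖ ≤ ε / 4 := fun z =>
    ((f - g).norm_coe_le_norm z).trans hfg.le
  have h2 : mab (fun t => f (zt t)) a b - mab (fun t => g (zt t)) a b =
      mab (fun t => f (zt t) - g (zt t)) a b := by
    unfold mab
    rw [intervalIntegral.integral_sub (ii f _ _) (ii g _ _)]
    ring
  have h3 := mab_le (fun t => f (zt t) - g (zt t)) (ε / 4) (fun t => hpt (zt t)) a b (by linarith)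
  rw [← h2] at h3
  have h4 : ‖∫ z, g z ∂tor - ∫ z, f z ∂tor‖ ≤ ε / 4 := by
    rw [← integral_sub (integrable_C g) (integrable_C f)]
    have h5 := norm_integral_le_of_norm_le_const (μ := tor) (f := fun z => g z - f z) (C := ε / 4)
      (Filter.Eventually.of_forall fun z => by
        rw [norm_sub_rev]; exact hpt z)
    simpa using h5
  have h6 : mab (fun t => f (zt t)) a b - ∫ z, f z ∂tor =
      (mab (fun t => f (zt t)) a b - mab (fun t => g (zt t)) a b) +
      (mab (fun t => g (zt t)) a b - ∫ z, g z ∂tor) + (∫ z, g z ∂tor - ∫ z, f z ∂tor) := by ring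
  rw [h6]
  calc _ ≤ ‖mab (fun t => f (zt t)) a b - mab (fun t => g (zt t)) a b‖ +
      ‖mab (fun t => g (zt t)) a b - ∫ z, g z ∂tor‖ + ‖∫ z, g z ∂tor - ∫ z, f z ∂tor‖ :=
        norm_add₃_le
    _ ≤ ε := by linarith

/-- real version -/
theorem kwR (f : Om → ℝ) (hf : Continuous f) (ε : ℝ) (hε : 0 < ε) : ∃ T : ℝ, 0 < T ∧
    ∀ a b : ℝ, T ≤ b - a → |(1 / (b - a) * ∫ t in a..b, f (zt t)) - ∫ z, f z ∂tor| ≤ ε := by
  obtain ⟨T, hT, h⟩ := kwU ⟨fun z => ((f z : ℝ) : ℂ), Complex.continuous_ofReal.comp hf⟩ ε hε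
  refine ⟨T, hT, fun a b hab => ?_⟩
  have h1 := h a b hab
  simp only [mab, ContinuousMap.coe_mk] at h1
  rw [intervalIntegral.integral_ofReal, integral_complex_ofReal, ← Complex.ofReal_mul,
    ← Complex.ofReal_sub, Complex.norm_real, Real.norm_eq_abs] at h1
  exact h1

end Run7.h522.BM
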