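import Pool.Agent.Run7.h522.BM.Scale

/-!
# Exponential integrability of the mean oscillation of a prime sum on the edge
-/

set_option autoImplicit false

namespace Run7.h522.BM

open Finset MeasureTheory Pool.Agent.W350.Edge Filter Topology
open scoped ENNReal

lemma exp_le_cosh {x : ℝ} (hx : 0 ≤ x) : Real.exp x ≤ 6 / 5 * Real.cosh (2 * x) := by
  rw [Real.cosh_eq]
  set y := Real.exp x with hy
  have hy1 : 1 ≤ y := Real.one_le_exp hx
  have hy0 : 0 < y := by linarith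
  have h1 : Real.exp (2 * x) = y ^ 2 := by
    rw [hy, ← Real.exp_nat_mul]
    push_cast
    rfl
  have h2 : Real.exp (-(2 * x)) = 1 / y ^ 2 := by
    rw [Real.exp_neg, h1, one_div]
  rw [h1, h2]
  have h3 : 6 / 5 * ((y ^ 2 + 1 / y ^ 2) / 2) - y = (3 * y ^ 4 - 5 * y ^ 3 + 3) / (5 * y ^ 2) := by
    field_simp
    ring
  have h4 : 0 ≤ 3 * y ^ 4 - 5 * y ^ 3 + 3 := by
    nlinarith [sq_nonneg (y ^ 2 - 5 / 6 * y - 1 / 2), sq_nonneg (y - 5 / 4), sq_nonneg y,
      sq_nonneg (y ^ 2 - 5 / 4 * y), hy1]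
  have h5 : 0 ≤ (3 * y ^ 4 - 5 * y ^ 3 + 3) / (5 * y ^ 2) := by positivity
  linarith

section

variable {a : ℕ → ℂ} {D : ℝ} {δ : ℝ}

/-- Fatou: the moments of the limit. -/
lemma lim_moment (hD : 0 ≤ D) (ha : ∀ p, ‖a p‖ ≤ D) (hδ : 0 < δ) (hδ2 : δ ≤ 2) (α : ℝ)
    (g : ℝ → ℂ) (hg : ∀ᵐ τ : ℝ, Tendsto (fun x => big a δ x τ) atTop (𝓝 (g τ))) (k : ℕ) :
    ∫⁻ τ in Set.Ioc α (α + δ), ENNReal.ofReal (‖g τ‖ ^ (2 * k)) ≤
      ENNReal.ofReal (δ * (C0 * (12 * (10 * CC * D) ^ 2) ^ k * ((2 * k).factorial : ℝ))) := by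
  have h1 : ∀ᵐ τ ∂(volume.restrict (Set.Ioc α (α + δ))),
      ENNReal.ofReal (‖g τ‖ ^ (2 * k)) =
        liminf (fun x => ENNReal.ofReal (‖big a δ x τ‖ ^ (2 * k))) atTop := by
    filter_upwards [ae_restrict_of_ae hg] with τ hτ
    refine (Tendsto.liminf_eq ?_).symm
    exact (ENNReal.continuous_ofReal.tendsto _).comp ((hτ.norm).pow (2 * k))
  rw [lintegral_congr_ae h1]
  refine (lintegral_liminf_le fun x => ?_).trans ?_
  · exact ENNReal.measurable_ofReal.comp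
      (((continuous_big a δ x).norm.pow (2 * k)).measurable)
  · refine (liminf_le_liminf (v := fun _ => ENNReal.ofReal (δ * (C0 * (12 * (10 * CC * D) ^ 2) ^ k *
      ((2 * k).factorial : ℝ)))) (Eventually.of_forall fun x => ?_)).trans (le_of_eq (liminf_const _))
    have hc : Continuous fun τ => ‖big a δ x τ‖ ^ (2 * k) := (continuous_big a δ x).norm.pow _
    have h2 : ∫⁻ τ in Set.Ioc α (α + δ), ENNReal.ofReal (‖big a δ x τ‖ ^ (2 * k)) =
        ENNReal.ofReal (∫ τ in Set.Ioc α (α + δ), ‖big a δ x τ‖ ^ (2 * k)) := by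
      rw [ofReal_integral_eq_lintegral_ofReal]
      · exact hc.integrableOn_Ioc
      · exact ae_of_all _ fun τ => by positivity
    show ∫⁻ τ in Set.Ioc α (α + δ), ENNReal.ofReal (‖big a δ x τ‖ ^ (2 * k)) ≤ _
    rw [h2, ← intervalIntegral.integral_of_le (by linarith)]
    exact ENNReal.ofReal_le_ofReal (big_moment a hD ha hδ hδ2 α x k)

/-- The absolute constant `C'`. -/
noncomputable def C1 : ℝ := 10 * CC * Real.sqrt (240 * C0)

lemma C1_pos : 0 < C1 := by
  have := CC_pos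
  have := C0_ge
  unfold C1
  positivity

lemma C1_sq : C1 ^ 2 = 240 * C0 * (10 * CC) ^ 2 := by
  have := C0_ge
  unfold C1
  rw [mul_pow, Real.sq_sqrt (by positivity)]
  ring

lemma cosh_bound (hD : 0 < D) (ha : ∀ p, ‖a p‖ ≤ D) (hδ : 0 < δ) (hδ2 : δ ≤ 2) (α : ℝ)
    (g : ℝ → ℂ) (hgm : AEMeasurable g)
    (hg : ∀ᵐ τ : ℝ, Tendsto (fun x => big a δ x τ) atTop (𝓝 (g τ))) :
    ∫⁻ τ in Set.Ioc α (α + δ), ENNReal.ofReal (Real.cosh (‖g τ‖ / (C1 * D))) ≤
      ENNReal.ofReal (20 / 19 * δ) := by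
  have hC0 := C0_ge
  have hC1 := C1_pos
  have hCC := CC_pos
  set q : ℝ := 1 / (20 * C0) with hq
  have hq0 : 0 < q := by positivity
  have hq1 : q ≤ 1 / 20 := by
    rw [hq]
    exact one_div_le_one_div_of_le (by norm_num) (by linarith)
  have hterm : ∀ k : ℕ, ∫⁻ τ in Set.Ioc α (α + δ),
      ENNReal.ofReal ((‖g τ‖ / (C1 * D)) ^ (2 * k) / ((2 * k).factorial : ℝ)) ≤
        ENNReal.ofReal (δ * (if k = 0 then 1 else C0 * q ^ k)) := by
    intro k
    split_ifs with hk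
    · subst hk
      simp [hδ.le]
    · have hf : (0 : ℝ) < ((2 * k).factorial : ℝ) := by exact_mod_cast (2 * k).factorial_pos
      have h1 := lim_moment hD.le ha hδ hδ2 α g hg k
      have h2 : ∀ τ, ENNReal.ofReal ((‖g τ‖ / (C1 * D)) ^ (2 * k) / ((2 * k).factorial : ℝ)) =
          ENNReal.ofReal (1 / ((C1 * D) ^ (2 * k) * ((2 * k).factorial : ℝ))) *
            ENNReal.ofReal (‖g τ‖ ^ (2 * k)) := by
        intro τ
        rw [← ENNReal.ofReal_mul (by positivity), div_pow]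
        congr 1
        field_simp
      simp_rw [h2]
      rw [lintegral_const_mul' _ _ ENNReal.ofReal_ne_top]
      refine (mul_le_mul_right h1 _).trans ?_
      rw [← ENNReal.ofReal_mul (by positivity)]
      refine ENNReal.ofReal_le_ofReal (le_of_eq ?_)
      have h3 : (C1 * D) ^ (2 * k) = (240 * C0 * (10 * CC) ^ 2 * D ^ 2) ^ k := by
        rw [pow_mul, mul_pow, C1_sq]
      rw [h3]
      have h4 : (12 * (10 * CC * D) ^ 2) ^ k = q ^ k * (240 * C0 * (10 * CC) ^ 2 * D ^ 2) ^ k := by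
        rw [← mul_pow]
        congr 1
        rw [hq]
        field_simp
        ring
      rw [h4]
      have h5 : (0 : ℝ) < (240 * C0 * (10 * CC) ^ 2 * D ^ 2) ^ k := by positivity
      field_simp
  have hser : ∀ τ, ENNReal.ofReal (Real.cosh (‖g τ‖ / (C1 * D))) =
      ∑' k : ℕ, ENNReal.ofReal ((‖g τ‖ / (C1 * D)) ^ (2 * k) / ((2 * k).factorial : ℝ)) := by
    intro τ
    have h := Real.hasSum_cosh (‖g τ‖ / (C1 * D))
    rw [← h.tsum_eq, ENNReal.ofReal_tsum_of_nonneg (fun k => by positivity) h.summable]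
  simp_rw [hser]
  rw [lintegral_tsum fun k => ?_]
  · refine (ENNReal.tsum_le_tsum hterm).trans ?_
    have hs : HasSum (fun k : ℕ => δ * (if k = 0 then 1 else C0 * q ^ k))
        (δ * (1 + C0 * (q / (1 - q)))) := by
      refine HasSum.mul_left δ ?_
      rw [hasSum_nat_add_iff' 1 |>.symm]
      simp only [range_one, sum_singleton, if_true, add_sub_cancel_left, Nat.add_eq_zero_iff,
        one_ne_zero, and_false, if_false]
      refine HasSum.mul_left C0 ?_
      have h1 := (hasSum_geometric_of_lt_one hq0.le (by linarith)).mul_left q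
      simp only [← pow_succ'] at h1
      rw [div_eq_mul_inv]
      exact h1
    rw [← ENNReal.ofReal_tsum_of_nonneg (fun k => ?_) hs.summable, hs.tsum_eq]
    · refine ENNReal.ofReal_le_ofReal ?_
      have h1 : C0 * (q / (1 - q)) ≤ 1 / 19 := by
        have h2 : C0 * q = 1 / 20 := by rw [hq]; field_simp
        rw [← mul_div_assoc, h2, div_le_div_iff₀ (by linarith) (by norm_num)]
        linarith
      nlinarith
    · split_ifs <;> positivity
  · refine AEMeasurable.restrict ?_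
    have h1 : AEMeasurable fun τ => ‖g τ‖ := hgm.norm
    exact ENNReal.measurable_ofReal.comp_aemeasurable
      (((h1.div_const _).pow_const _).div_const _)

end

/-- **Exponential integrability**, intervals of length at most `2`. -/
lemma exp_short (B : ℝ) (hB : 0 ≤ B) {a : ℕ → ℂ} {D : ℝ} (hD : 0 < D) (ha : ∀ p, ‖a p‖ ≤ D)
    (f G : ℝ → ℂ) (hf : AEMeasurable f) (hGm : AEMeasurable G)
    (hlim : ∀ᵐ τ : ℝ, Tendsto (ps a τ) atTop (𝓝 (f τ - G τ))) (hG : ∀ τ, ‖G τ‖ ≤ B * D)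
    {δ : ℝ} (hδ : 0 < δ) (hδ2 : δ ≤ 2) (α : ℝ) :
    ∃ c : ℂ, (1 ≤ δ → c = 0) ∧
      ∫⁻ τ in Set.Ioc α (α + δ),
        ENNReal.ofReal (Real.exp (‖f τ - c‖ / ((2 * C1 + 5 * (6 * CC + 1 + B)) * D))) ≤
          ENNReal.ofReal (2 * δ) := by
  have hC1 := C1_pos
  have hCC := CC_pos
  obtain ⟨x₀, hx₀⟩ := sml_eventually δ hδ
  set c : ℂ := if 1 ≤ δ then 0 else sml a δ x₀ α with hc
  set g : ℝ → ℂ := fun τ => f τ - G τ - sml a δ x₀ τ with hg
  have hgm : AEMeasurable g := (hf.sub hGm).sub (continuous_sml a δ x₀).aemeasurable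
  have hglim : ∀ᵐ τ : ℝ, Tendsto (fun x => big a δ x τ) atTop (𝓝 (g τ)) := by
    filter_upwards [hlim] with τ hτ
    have h1 : Tendsto (fun x => ps a τ x - sml a δ x₀ τ) atTop (𝓝 (g τ)) := hτ.sub_const _
    refine h1.congr' ?_
    filter_upwards [eventually_ge_atTop x₀] with x hx
    rw [ps_eq a δ x τ]
    have : sml a δ x τ = sml a δ x₀ τ := by
      unfold sml
      rw [hx₀ x hx]
    rw [this]
    ring
  have hcosh := cosh_bound hD ha hδ hδ2 α g hgm hglim
  set C : ℝ := 2 * C1 + 5 * (6 * CC + 1 + B) with hC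
  have hC0 : 0 < C := by positivity
  have hpt : ∀ τ ∈ Set.Ioc α (α + δ), ‖f τ - c‖ ≤ ‖g τ‖ + (6 * CC + 1 + B) * D := by
    intro τ hτ
    have h1 : f τ - c = g τ + G τ + (sml a δ x₀ τ - c) := by
      rw [hg]
      ring
    have h2 : ‖sml a δ x₀ τ - c‖ ≤ (6 * CC + 1) * D := by
      rw [hc]
      split_ifs with h
      · rw [sub_zero]
        have := norm_sml a hD.le ha h τ x₀
        nlinarith
      · have hτ' : |τ - α| ≤ δ := by
          rw [abs_of_nonneg (by linarith [hτ.1])]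
          linarith [hτ.2]
        have := norm_sml_sub a hD.le ha hδ hδ2 hτ' x₀
        nlinarith
    calc ‖f τ - c‖ = ‖g τ + G τ + (sml a δ x₀ τ - c)‖ := by rw [h1]
      _ ≤ ‖g τ‖ + ‖G τ‖ + ‖sml a δ x₀ τ - c‖ := norm_add₃_le
      _ ≤ ‖g τ‖ + B * D + (6 * CC + 1) * D := by linarith [hG τ]
      _ = _ := by ring
  have hexp : Real.exp (1 / 5) ≤ 5 / 4 := by
    have h1 : Real.exp (1 / 5) ^ 5 ≤ (5 / 4) ^ 5 := by
      rw [← Real.exp_nat_mul]
      have := Real.exp_one_lt_d9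
      norm_num
      linarith
    exact le_of_pow_le_pow_left₀ (by norm_num) (by norm_num) h1
  have hpt2 : ∀ τ ∈ Set.Ioc α (α + δ), ENNReal.ofReal (Real.exp (‖f τ - c‖ / (C * D))) ≤
      ENNReal.ofReal (3 / 2) * ENNReal.ofReal (Real.cosh (‖g τ‖ / (C1 * D))) := by
    intro τ hτ
    rw [← ENNReal.ofReal_mul (by norm_num)]
    refine ENNReal.ofReal_le_ofReal ?_
    have h1 : ‖f τ - c‖ / (C * D) ≤ ‖g τ‖ / (2 * C1 * D) + 1 / 5 := by
      have h2 : ‖f τ - c‖ / (C * D) ≤ (‖g τ‖ + (6 * CC + 1 + B) * D) / (C * D) :=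
        div_le_div_of_nonneg_right (hpt τ hτ) (by positivity)
      have h3 : ‖g τ‖ / (C * D) ≤ ‖g τ‖ / (2 * C1 * D) := by
        refine div_le_div_of_nonneg_left (norm_nonneg _) (by positivity) ?_
        refine mul_le_mul_of_nonneg_right ?_ hD.le
        rw [hC]
        have : 0 ≤ 5 * (6 * CC + 1 + B) := by positivity
        linarith
      have h4 : (6 * CC + 1 + B) * D / (C * D) ≤ 1 / 5 := by
        rw [mul_div_mul_right _ _ hD.ne', div_le_div_iff₀ hC0 (by norm_num), hC]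
        linarith
      rw [add_div] at h2
      linarith
    have h2 := exp_le_cosh (x := ‖g τ‖ / (2 * C1 * D)) (by positivity)
    have h3 : 2 * (‖g τ‖ / (2 * C1 * D)) = ‖g τ‖ / (C1 * D) := by
      field_simp
    rw [h3] at h2
    have hcp : 0 < Real.cosh (‖g τ‖ / (C1 * D)) := Real.cosh_pos _
    calc Real.exp (‖f τ - c‖ / (C * D)) ≤ Real.exp (‖g τ‖ / (2 * C1 * D) + 1 / 5) :=
          Real.exp_le_exp.2 h1
      _ = Real.exp (‖g τ‖ / (2 * C1 * D)) * Real.exp (1 / 5) := Real.exp_add _ _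
      _ ≤ (6 / 5 * Real.cosh (‖g τ‖ / (C1 * D))) * (5 / 4) := by gcongr
      _ = _ := by ring
  refine ⟨c, fun h => by rw [hc, if_pos h], ?_⟩
  calc ∫⁻ τ in Set.Ioc α (α + δ), ENNReal.ofReal (Real.exp (‖f τ - c‖ / (C * D)))
      ≤ ∫⁻ τ in Set.Ioc α (α + δ), ENNReal.ofReal (3 / 2) *
          ENNReal.ofReal (Real.cosh (‖g τ‖ / (C1 * D))) :=
        setLIntegral_mono' measurableSet_Ioc hpt2
    _ = ENNReal.ofReal (3 / 2) * ∫⁻ τ in Set.Ioc α (α + δ),
          ENNReal.ofReal (Real.cosh (‖g τ‖ / (C1 * D))) :=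
        lintegral_const_mul' _ _ ENNReal.ofReal_ne_top
    _ ≤ ENNReal.ofReal (3 / 2) * ENNReal.ofReal (20 / 19 * δ) := mul_le_mul_right hcosh _
    _ = ENNReal.ofReal (3 / 2 * (20 / 19 * δ)) := (ENNReal.ofReal_mul (by norm_num)).symm
    _ ≤ ENNReal.ofReal (2 * δ) := ENNReal.ofReal_le_ofReal (by nlinarith)

lemma lintegral_iter {φ : ℝ → ℝ≥0∞} {δ : ℝ} (hδ : 0 < δ) {K : ℝ≥0∞}
    (h : ∀ α, ∫⁻ τ in Set.Ioc α (α + δ), φ τ ≤ K) (α : ℝ) (n : ℕ) :
    ∫⁻ τ in Set.Ioc α (α + n * δ), φ τ ≤ n * K := by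
  induction n with
  | zero => simp
  | succ n ih =>
    have hn : (0 : ℝ) ≤ n := Nat.cast_nonneg n
    have h1 : Set.Ioc α (α + ((n + 1 : ℕ) : ℝ) * δ) =
        Set.Ioc α (α + n * δ) ∪ Set.Ioc (α + n * δ) (α + n * δ + δ) := by
      rw [Set.Ioc_union_Ioc_eq_Ioc (by nlinarith) (by linarith)]
      congr 1
      push_cast
      ring
    rw [h1, lintegral_union measurableSet_Ioc (Set.Ioc_disjoint_Ioc_of_le le_rfl)]
    push_cast
    rw [add_mul, one_mul]
    exact add_le_add ih (h _)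

/-- **Exponential integrability of the mean oscillation.** -/
theorem exp_bound (B : ℝ) (hB : 0 ≤ B) {a : ℕ → ℂ} {D : ℝ} (hD : 0 ≤ D) (ha : ∀ p, ‖a p‖ ≤ D)
    (f G : ℝ → ℂ) (hf : AEMeasurable f) (hGm : AEMeasurable G)
    (hlim : ∀ᵐ τ : ℝ, Tendsto (ps a τ) atTop (𝓝 (f τ - G τ))) (hG : ∀ τ, ‖G τ‖ ≤ B * D)
    {α β : ℝ} (hαβ : α < β) :
    ∃ c : ℂ, (1 ≤ β - α → c = 0) ∧
      ∫⁻ τ in Set.Ioc α β,
        ENNReal.ofReal (Real.exp (‖f τ - c‖ / ((2 * C1 + 5 * (6 * CC + 1 + B)) * D))) ≤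
          ENNReal.ofReal (2 * (β - α)) := by
  rcases hD.eq_or_lt with h0 | h0
  · refine ⟨0, fun _ => rfl, ?_⟩
    rw [← h0]
    simp only [mul_zero, div_zero, Real.exp_zero, ENNReal.ofReal_one, lintegral_const,
      Measure.restrict_apply MeasurableSet.univ, Set.univ_inter, Real.volume_Ioc, one_mul]
    exact ENNReal.ofReal_le_ofReal (by linarith)
  · have hL : 0 < β - α := by linarith
    by_cases h2 : β - α ≤ 2
    · have := exp_short B hB h0 ha f G hf hGm hlim hG hL h2 α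
      simpa using this
    · push Not at h2
      set n : ℕ := ⌊β - α⌋₊ with hn
      have hn1 : (n : ℝ) ≤ β - α := Nat.floor_le hL.le
      have hn2 : β - α < n + 1 := Nat.lt_floor_add_one _
      have hn0 : (1 : ℝ) < n := by linarith
      set δ : ℝ := (β - α) / n with hδ
      have hδ1 : 1 ≤ δ := by rw [hδ, le_div_iff₀ (by linarith)]; linarith
      have hδ2 : δ ≤ 2 := by rw [hδ, div_le_iff₀ (by linarith)]; linarith
      refine ⟨0, fun _ => rfl, ?_⟩
      have h3 : ∀ x, ∫⁻ τ in Set.Ioc x (x + δ), ENNReal.ofReal (Real.exp (‖f τ - 0‖ /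
          ((2 * C1 + 5 * (6 * CC + 1 + B)) * D))) ≤ ENNReal.ofReal (2 * δ) := by
        intro x
        obtain ⟨c, hc1, hc2⟩ := exp_short B hB h0 ha f G hf hGm hlim hG (by linarith) hδ2 x
        rw [hc1 hδ1] at hc2
        exact hc2
      have h4 := lintegral_iter (by linarith : 0 < δ) h3 α n
      have h5 : α + n * δ = β := by
        rw [hδ]
        have : (n : ℝ) ≠ 0 := by linarith
        field_simp
        ring
      rw [h5] at h4
      refine h4.trans (le_of_eq ?_)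
      rw [← ENNReal.ofReal_natCast, ← ENNReal.ofReal_mul (by positivity)]
      congr 1
      rw [hδ]
      have : (n : ℝ) ≠ 0 := by linarith
      field_simp

end Run7.h522.BM
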