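import Pool.Agent.W350.Edge1
import Pool.Agent.Run7.h522.BM.Comb

/-!
# High moments of exponential sums whose frequencies have logarithmic density
-/

set_option autoImplicit false

namespace Run7.h522.BM

open Finset MeasureTheory Pool.Agent.W350.Edge

/-- The exponential sum. -/
noncomputable def es {ι : Type} (F : Finset ι) (c : ι → ℂ) (u : ι → ℝ) (τ : ℝ) : ℂ :=
  ∑ p ∈ F, c p * Complex.exp (-(τ * u p) * Complex.I)

lemma continuous_es {ι : Type} (F : Finset ι) (c : ι → ℂ) (u : ι → ℝ) : Continuous (es F c u) := by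
  unfold es
  fun_prop

/-- Domination of the coefficients with frequencies in `[j, j+1)` by `A/j`. -/
def Dom {ι : Type} (F : Finset ι) (c : ι → ℂ) (u : ι → ℝ) (A : ℝ) (M : ℕ) : Prop :=
  (∀ p ∈ F, 1 ≤ u p) ∧ ∀ h : ℕ → ℝ, (∀ m, 0 ≤ h m) →
    ∑ p ∈ F, ‖c p‖ * h ⌊u p⌋₊ ≤ A * ∑ j ∈ range M, (1 / ((j : ℝ) + 1)) * h (j + 1)

lemma conv_le (k L M : ℕ) (h : ℕ → ℝ) (hh : ∀ m, 0 ≤ h m) :
    ∑ m ∈ range L, sk k m * ∑ j ∈ range M, (1 / ((j : ℝ) + 1)) * h (j + 1 + m) ≤
      ∑ n ∈ range (L + M + 1), sk (k + 1) n * h n := by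
  have h1 := diag (L + M) (fun j l => (1 / ((j : ℝ) + 1)) * sk k l * h (j + l + 1))
  have h2 : ∑ n ∈ range (L + M + 1), sk (k + 1) n * h n =
      ∑ m ∈ range (L + M), ∑ j ∈ range (m + 1),
        (1 / ((j : ℝ) + 1)) * sk k (m - j) * h (j + (m - j) + 1) := by
    rw [sum_range_succ']
    have h0 : sk (k + 1) 0 = 0 := by simp [sk]
    rw [h0, zero_mul, add_zero]
    refine sum_congr rfl fun m _ => ?_
    rw [sk, sum_mul]
    refine sum_congr rfl fun j hj => ?_
    have hj' : j ≤ m := by simpa [Nat.lt_succ_iff] using hj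
    rw [Nat.add_sub_cancel' hj']
  rw [h2, h1]
  calc ∑ m ∈ range L, sk k m * ∑ j ∈ range M, (1 / ((j : ℝ) + 1)) * h (j + 1 + m)
      = ∑ j ∈ range M, ∑ l ∈ range L, (1 / ((j : ℝ) + 1)) * sk k l * h (j + l + 1) := by
        simp_rw [mul_sum]
        rw [sum_comm]
        refine sum_congr rfl fun j _ => sum_congr rfl fun l _ => ?_
        rw [show j + 1 + l = j + l + 1 by ring]
        ring
    _ ≤ ∑ j ∈ range M, ∑ l ∈ range (L + M - j), (1 / ((j : ℝ) + 1)) * sk k l * h (j + l + 1) := by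
        refine sum_le_sum fun j hj => sum_le_sum_of_subset_of_nonneg (range_mono ?_)
          fun l _ _ => mul_nonneg (mul_nonneg (by positivity) (sk_nonneg _ _)) (hh _)
        have := mem_range.1 hj
        omega
    _ ≤ _ := sum_le_sum_of_subset_of_nonneg (range_mono (by omega)) fun j _ _ =>
        sum_nonneg fun l _ => mul_nonneg (mul_nonneg (by positivity) (sk_nonneg _ _)) (hh _)

/-- The powers of the exponential sum. -/
lemma exists_pow {ι : Type} {F : Finset ι} {c : ι → ℂ} {u : ι → ℝ} {A : ℝ} {M : ℕ}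
    (hA : 0 ≤ A) (hd : Dom F c u A M) (k : ℕ) :
    ∃ (κ : Type) (G : Finset κ) (c' : κ → ℂ) (u' : κ → ℝ) (w : κ → ℕ) (L : ℕ),
      (∀ τ : ℝ, es F c u τ ^ k = es G c' u' τ) ∧
      (∀ x ∈ G, (w x : ℝ) ≤ u' x ∧ u' x ≤ w x + k) ∧
      ∀ h : ℕ → ℝ, (∀ m, 0 ≤ h m) →
        ∑ x ∈ G, ‖c' x‖ * h (w x) ≤ A ^ k * ∑ m ∈ range L, sk k m * h m := by
  induction k with
  | zero =>
    refine ⟨Unit, {()}, fun _ => 1, fun _ => 0, fun _ => 0, 1, fun τ => ?_, fun x _ => ?_,
      fun h _ => ?_⟩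
    · simp [es]
    · simp
    · simp [sk]
  | succ k ih =>
    obtain ⟨κ, G, c', u', w, L, h1, h2, h3⟩ := ih
    refine ⟨ι × κ, F ×ˢ G, fun x => c x.1 * c' x.2, fun x => u x.1 + u' x.2,
      fun x => ⌊u x.1⌋₊ + w x.2, L + M + 1, fun τ => ?_, fun x hx => ?_, fun h hh => ?_⟩
    · rw [pow_succ, h1, mul_comm]
      unfold es
      rw [sum_product, sum_mul_sum]
      refine sum_congr rfl fun p _ => sum_congr rfl fun x _ => ?_
      have : Complex.exp (-((τ : ℂ) * ((u p + u' x : ℝ) : ℂ)) * Complex.I) =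
          Complex.exp (-((τ : ℂ) * (u p : ℂ)) * Complex.I) *
            Complex.exp (-((τ : ℂ) * (u' x : ℂ)) * Complex.I) := by
        rw [← Complex.exp_add]
        congr 1
        push_cast
        ring
      simp only
      rw [this]
      ring
    · obtain ⟨hx1, hx2⟩ := mem_product.1 hx
      obtain ⟨h4, h5⟩ := h2 x.2 hx2
      have h6 := hd.1 x.1 hx1
      have h7 := Nat.floor_le (show 0 ≤ u x.1 by linarith)
      have h8 := Nat.lt_floor_add_one (u x.1)
      push_cast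
      constructor <;> linarith
    · rw [sum_product]
      calc ∑ p ∈ F, ∑ x ∈ G, ‖c p * c' x‖ * h (⌊u p⌋₊ + w x)
          = ∑ p ∈ F, ‖c p‖ * ∑ x ∈ G, ‖c' x‖ * h (⌊u p⌋₊ + w x) := by
            refine sum_congr rfl fun p _ => ?_
            rw [mul_sum]
            refine sum_congr rfl fun x _ => ?_
            rw [norm_mul]
            ring
        _ ≤ ∑ p ∈ F, ‖c p‖ * (A ^ k * ∑ m ∈ range L, sk k m * h (⌊u p⌋₊ + m)) := by
            refine sum_le_sum fun p _ => mul_le_mul_of_nonneg_left ?_ (norm_nonneg _)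
            exact h3 (fun m => h (⌊u p⌋₊ + m)) fun m => hh _
        _ = A ^ k * ∑ m ∈ range L, sk k m * ∑ p ∈ F, ‖c p‖ * h (⌊u p⌋₊ + m) := by
            simp_rw [mul_sum]
            rw [sum_comm]
            refine sum_congr rfl fun m _ => sum_congr rfl fun p _ => ?_
            ring
        _ ≤ A ^ k * ∑ m ∈ range L, sk k m *
              (A * ∑ j ∈ range M, (1 / ((j : ℝ) + 1)) * h (j + 1 + m)) := by
            refine mul_le_mul_of_nonneg_left (sum_le_sum fun m _ =>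
              mul_le_mul_of_nonneg_left ?_ (sk_nonneg _ _)) (pow_nonneg hA _)
            exact hd.2 (fun n => h (n + m)) fun n => hh _
        _ = A ^ (k + 1) * ∑ m ∈ range L, sk k m *
              ∑ j ∈ range M, (1 / ((j : ℝ) + 1)) * h (j + 1 + m) := by
            rw [pow_succ, mul_sum, mul_sum]
            refine sum_congr rfl fun m _ => ?_
            ring
        _ ≤ A ^ (k + 1) * ∑ n ∈ range (L + M + 1), sk (k + 1) n * h n :=
            mul_le_mul_of_nonneg_left (conv_le k L M h hh) (pow_nonneg hA _)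

/-- The absolute constant. -/
noncomputable def C0 : ℝ := 1 + 72 * Real.exp 1 * (1 + Real.exp 1 * z32)

lemma C0_ge : 1 ≤ C0 := by
  have := z32_nonneg
  unfold C0
  have : 0 ≤ 72 * Real.exp 1 * (1 + Real.exp 1 * z32) := by positivity
  linarith

/-- **High moments.** -/
theorem moment {ι : Type} {F : Finset ι} {c : ι → ℂ} {u : ι → ℝ} {A : ℝ} {M : ℕ}
    (hA : 0 ≤ A) (hd : Dom F c u A M) (k : ℕ) :
    ∫ τ in (0 : ℝ)..1, ‖es F c u τ‖ ^ (2 * k) ≤
      C0 * (12 * A ^ 2) ^ k * ((2 * k).factorial : ℝ) := by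
  obtain ⟨κ, G, c', u', w, L, h1, h2, h3⟩ := exists_pow hA hd k
  have e1 : ∀ τ : ℝ, ‖es F c u τ‖ ^ (2 * k) = ‖es G c' u' τ‖ ^ 2 := by
    intro τ
    rw [← h1, norm_pow, ← pow_mul, mul_comm k 2]
  simp_rw [e1]
  refine (gauss_mean G c' u').trans ?_
  have hAk : 0 ≤ A ^ k := pow_nonneg hA k
  set H : ℕ → ℝ := fun n => ∑ m ∈ range L, sk k m * Real.exp (1 - |(n : ℝ) - m|) with hH
  have hH0 : ∀ n, 0 ≤ H n := fun n => sum_nonneg fun m _ =>
    mul_nonneg (sk_nonneg _ _) (Real.exp_pos _).le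
  have h4 : ∑ x ∈ G, ∑ y ∈ G, ‖c' x‖ * ‖c' y‖ * Real.exp (-(u' x - u' y) ^ 2) ≤
      Real.exp k * (A ^ k * (A ^ k * ∑ m ∈ range L, sk k m * H m)) := by
    calc ∑ x ∈ G, ∑ y ∈ G, ‖c' x‖ * ‖c' y‖ * Real.exp (-(u' x - u' y) ^ 2)
        ≤ ∑ x ∈ G, ∑ y ∈ G, ‖c' x‖ * ‖c' y‖ * (Real.exp k * Real.exp (1 - |(w x : ℝ) - w y|)) := by
          refine sum_le_sum fun x hx => sum_le_sum fun y hy =>
            mul_le_mul_of_nonneg_left ?_ (by positivity)
          rw [← Real.exp_add]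
          apply Real.exp_le_exp.2
          obtain ⟨a1, a2⟩ := h2 x hx
          obtain ⟨b1, b2⟩ := h2 y hy
          have h5 : |(w x : ℝ) - w y| ≤ |u' x - u' y| + k := by
            rw [abs_le]
            have := abs_le.1 (le_refl |u' x - u' y|)
            constructor <;> linarith [this.1, this.2]
          have h6 : |u' x - u' y| ≤ (u' x - u' y) ^ 2 + 1 := by
            rw [← sq_abs]
            nlinarith [sq_nonneg (|u' x - u' y| - 1), abs_nonneg (u' x - u' y)]
          linarith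
      _ = Real.exp k * ∑ x ∈ G, ‖c' x‖ * ∑ y ∈ G, ‖c' y‖ * Real.exp (1 - |(w x : ℝ) - w y|) := by
          simp_rw [mul_sum]
          refine sum_congr rfl fun x _ => sum_congr rfl fun y _ => ?_
          ring
      _ ≤ Real.exp k * ∑ x ∈ G, ‖c' x‖ * (A ^ k * H (w x)) := by
          refine mul_le_mul_of_nonneg_left (sum_le_sum fun x _ =>
            mul_le_mul_of_nonneg_left ?_ (norm_nonneg _)) (Real.exp_pos _).le
          exact h3 (fun m => Real.exp (1 - |(w x : ℝ) - m|)) fun m => (Real.exp_pos _).le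
      _ = Real.exp k * (A ^ k * ∑ x ∈ G, ‖c' x‖ * H (w x)) := by
          congr 1
          rw [mul_sum]
          refine sum_congr rfl fun x _ => ?_
          ring
      _ ≤ _ := by
          refine mul_le_mul_of_nonneg_left (mul_le_mul_of_nonneg_left (h3 H hH0) hAk)
            (Real.exp_pos _).le
  have h5 : ∑ m ∈ range L, sk k m * H m ≤ 12 * ∑ m ∈ range L, sk k m ^ 2 := by
    have hsym : ∀ m n : ℕ, |(m : ℝ) - n| = |(n : ℝ) - m| := fun m n => abs_sub_comm _ _
    calc ∑ m ∈ range L, sk k m * H m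
        = ∑ m ∈ range L, ∑ n ∈ range L, sk k m * sk k n * Real.exp (1 - |(m : ℝ) - n|) := by
          refine sum_congr rfl fun m _ => ?_
          rw [hH, mul_sum]
          refine sum_congr rfl fun n _ => ?_
          ring
      _ ≤ ∑ m ∈ range L, ∑ n ∈ range L, (sk k m ^ 2 / 2 * Real.exp (1 - |(m : ℝ) - n|) +
            sk k n ^ 2 / 2 * Real.exp (1 - |(n : ℝ) - m|)) := by
          refine sum_le_sum fun m _ => sum_le_sum fun n _ => ?_
          rw [← hsym m n, ← add_mul]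
          refine mul_le_mul_of_nonneg_right ?_ (Real.exp_pos _).le
          nlinarith [sq_nonneg (sk k m - sk k n)]
      _ = ∑ m ∈ range L, sk k m ^ 2 * ∑ n ∈ range L, Real.exp (1 - |(m : ℝ) - n|) := by
          simp_rw [sum_add_distrib]
          rw [sum_comm (f := fun m n : ℕ => sk k n ^ 2 / 2 * Real.exp (1 - |(n : ℝ) - m|)),
            ← sum_add_distrib]
          refine sum_congr rfl fun m _ => ?_
          rw [← sum_add_distrib, mul_sum]
          refine sum_congr rfl fun n _ => ?_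
          ring
      _ ≤ ∑ m ∈ range L, sk k m ^ 2 * 12 :=
          sum_le_sum fun m _ => mul_le_mul_of_nonneg_left (schur_row _ _) (sq_nonneg _)
      _ = _ := by rw [← sum_mul]; ring
  have h6 := sum_sk_sq k L
  have hz := z32_nonneg
  have he3 : Real.exp 1 ≤ 3 := by
    have := Real.exp_one_lt_d9
    linarith
  have h7 : Real.exp k ≤ 3 ^ k := by
    rw [← mul_one (k : ℝ), Real.exp_nat_mul]
    exact pow_le_pow_left₀ (Real.exp_pos _).le he3 k
  have h8 : (0 : ℝ) ≤ (1 + Real.exp 1 * z32) * 4 ^ k * ((2 * k).factorial : ℝ) := by positivity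
  calc 6 * ∑ x ∈ G, ∑ y ∈ G, ‖c' x‖ * ‖c' y‖ * Real.exp (-(u' x - u' y) ^ 2)
      ≤ 6 * (Real.exp k * (A ^ k * (A ^ k * ∑ m ∈ range L, sk k m * H m))) := by linarith
    _ ≤ 6 * (Real.exp k * (A ^ k * (A ^ k * (12 * ∑ m ∈ range L, sk k m ^ 2)))) := by gcongr
    _ ≤ 6 * (Real.exp k * (A ^ k * (A ^ k * (12 *
          ((1 + Real.exp 1 * z32) * 4 ^ k * ((2 * k).factorial : ℝ)))))) := by gcongr
    _ ≤ 6 * (3 ^ k * (A ^ k * (A ^ k * (12 *
          ((1 + Real.exp 1 * z32) * 4 ^ k * ((2 * k).factorial : ℝ)))))) := by gcongr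
    _ = (72 * (1 + Real.exp 1 * z32)) * ((12 * A ^ 2) ^ k * ((2 * k).factorial : ℝ)) := by
        rw [mul_pow, ← pow_mul, mul_comm 2 k, pow_mul, show (12 : ℝ) ^ k = 3 ^ k * 4 ^ k by
          rw [← mul_pow]; norm_num]
        ring
    _ ≤ C0 * ((12 * A ^ 2) ^ k * ((2 * k).factorial : ℝ)) := by
        refine mul_le_mul_of_nonneg_right ?_ (by positivity)
        unfold C0
        have h9 : (1 : ℝ) ≤ Real.exp 1 := Real.one_le_exp (by norm_num)
        have h10 : 0 ≤ 72 * (1 + Real.exp 1 * z32) := by positivity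
        nlinarith
    _ = _ := by ring

end Run7.h522.BM
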