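import Pool.Agent.Run7.h522.BM.Center

/-!
# The order at a point of the edge, in density
-/

set_option autoImplicit false

namespace Run7.h522.BM

open Filter Topology MeasureTheory
open scoped ENNReal

section real

lemma logs {κ y t : ℝ} (hκ : 0 < κ) (hy : 0 < y) (h1 : κ * y ≤ |t|) (h2 : |t| ≤ y) :
    Real.log (1 / y) ≤ Real.log (1 / |t|) ∧
      Real.log (1 / |t|) ≤ Real.log (1 / y) + Real.log (1 / κ) := by
  have ht : 0 < |t| := lt_of_lt_of_le (by positivity) h1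
  constructor
  · exact Real.log_le_log (by positivity) (one_div_le_one_div_of_le ht h2)
  · rw [← Real.log_mul (by positivity) (by positivity)]
    refine Real.log_le_log (by positivity) ?_
    rw [one_div_mul_one_div, mul_comm]
    exact one_div_le_one_div_of_le (by positivity) h1

lemma est1 {L Lt K A R s r : ℝ} (hL : 0 < L) (h1 : L ≤ Lt) (h2 : Lt ≤ L + K) (h3 : |R - s| ≤ A) :
    |R / Lt - r| ≤ A / L + |s / L| * (K / L) + |s / L - r| := by
  have hLt : 0 < Lt := by linarith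
  have hA : 0 ≤ A := (abs_nonneg _).trans h3
  have h4 : R / Lt - r = (R - s) / Lt + (s / L) * (L / Lt - 1) + (s / L - r) := by
    field_simp
    ring
  have h5 : |(R - s) / Lt| ≤ A / L := by
    rw [abs_div, abs_of_pos hLt]
    calc |R - s| / Lt ≤ A / Lt := div_le_div_of_nonneg_right h3 hLt.le
      _ ≤ A / L := div_le_div_of_nonneg_left hA hL h1
  have h6 : |L / Lt - 1| ≤ K / L := by
    have h7 : L / Lt - 1 = -((Lt - L) / Lt) := by
      field_simp
      ring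
    rw [h7, abs_neg, abs_of_nonneg (div_nonneg (by linarith) hLt.le)]
    calc (Lt - L) / Lt ≤ K / Lt := div_le_div_of_nonneg_right (by linarith) hLt.le
      _ ≤ K / L := div_le_div_of_nonneg_left (by linarith) hL h1
  rw [h4]
  refine (abs_add_three _ _ _).trans ?_
  rw [abs_mul]
  have := mul_le_mul_of_nonneg_left h6 (abs_nonneg (s / L))
  linarith

lemma est2 {L Lt K A R s r : ℝ} (hL : 0 < L) (h1 : L ≤ Lt) (h2 : Lt ≤ L + K) (h3 : |R - s| ≤ A) :
    |s / L - r| ≤ A / L + |R / Lt| * (K / L) + |R / Lt - r| := by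
  have hLt : 0 < Lt := by linarith
  have h4 : s / L - r = (s - R) / L + (R / Lt) * (Lt / L - 1) + (R / Lt - r) := by
    field_simp
    ring
  have h5 : |(s - R) / L| ≤ A / L := by
    rw [abs_div, abs_of_pos hL, abs_sub_comm]
    exact div_le_div_of_nonneg_right h3 hL.le
  have h6 : |Lt / L - 1| ≤ K / L := by
    have h7 : Lt / L - 1 = (Lt - L) / L := by
      field_simp
    rw [h7, abs_of_nonneg (div_nonneg (by linarith) hL.le)]
    exact div_le_div_of_nonneg_right (by linarith) hL.le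
  rw [h4]
  refine (abs_add_three _ _ _).trans ?_
  rw [abs_mul]
  have := mul_le_mul_of_nonneg_left h6 (abs_nonneg (R / Lt))
  linarith

lemma tendsto_L : Tendsto (fun y : ℝ => Real.log (1 / y)) (𝓝[>] 0) atTop := by
  have h1 : Tendsto (fun y : ℝ => 1 / y) (𝓝[>] 0) atTop := by
    simp only [one_div]
    exact tendsto_inv_nhdsGT_zero
  exact Real.tendsto_log_atTop.comp h1

lemma tendsto_div_L (c : ℝ) : Tendsto (fun y : ℝ => c / Real.log (1 / y)) (𝓝[>] 0) (𝓝 0) :=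
  tendsto_L.const_div_atTop c

/-- `s(y) / log (1/y)` tends to `r` as `y` tends to `0`. -/
def Radial (s : ℝ → ℝ) (r : ℝ) : Prop :=
  Tendsto (fun y : ℝ => s y / Real.log (1 / y)) (𝓝[>] 0) (𝓝 r)

/-- `F(τ) / log (1/|τ - τ₀|)` tends to `r` in density. -/
def InDensity (F : ℝ → ℝ) (τ₀ r : ℝ) : Prop :=
  ∀ η : ℝ, 0 < η → Tendsto (fun y : ℝ => (volume {τ ∈ Set.Ioc (τ₀ - y) (τ₀ + y) |
    η < |F τ / Real.log (1 / |τ - τ₀|) - r|}).toReal / (2 * y)) (𝓝[>] 0) (𝓝 0)

/-- `F(τ) / log (1/|τ - τ₀|)` is near `r` on a set of positive lower density. -/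
def OnPositive (F : ℝ → ℝ) (τ₀ r : ℝ) : Prop :=
  ∃ δ : ℝ, 0 < δ ∧ ∀ η : ℝ, 0 < η → ∀ᶠ y : ℝ in 𝓝[>] 0,
    δ ≤ (volume {τ ∈ Set.Ioc (τ₀ - y) (τ₀ + y) |
      |F τ / Real.log (1 / |τ - τ₀|) - r| ≤ η}).toReal / (2 * y)

variable {F s : ℝ → ℝ} {τ₀ r : ℝ}
  (hE : ∀ ε : ℝ, 0 < ε → ∃ A : ℝ, 0 < A ∧ ∀ y : ℝ, 0 < y → y ≤ 1 →
    volume {τ ∈ Set.Ioc (τ₀ - y) (τ₀ + y) | A < |F τ - s y|} ≤ ENNReal.ofReal (ε * (2 * y)))

lemma vol_fin (P : ℝ → Prop) (y : ℝ) : volume {τ ∈ Set.Ioc (τ₀ - y) (τ₀ + y) | P τ} ≠ ⊤ := by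
  refine ne_top_of_le_ne_top ?_ (measure_mono (Set.sep_subset _ _))
  rw [Real.volume_Ioc]
  exact ENNReal.ofReal_ne_top

include hE in
lemma radial_inDensity (h : Radial s r) : InDensity F τ₀ r := by
  intro η hη
  rw [Metric.tendsto_nhds]
  intro ε' hε'
  set ε : ℝ := min ε' 1 with hεd
  have hε : 0 < ε := lt_min hε' one_pos
  obtain ⟨A, hA, hA2⟩ := hE (ε / 2) (by positivity)
  set κ : ℝ := ε / 4 with hκ
  have hκ0 : 0 < κ := by positivity
  set K : ℝ := Real.log (1 / κ) with hK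
  have h1 := (Metric.tendsto_nhds.1 h) (min (η / 4) 1) (by positivity)
  have h2 := (Metric.tendsto_nhds.1 (tendsto_div_L A)) (η / 4) (by positivity)
  have h3 := (Metric.tendsto_nhds.1 (tendsto_div_L ((|r| + 1) * K))) (η / 4) (by positivity)
  have h4 : ∀ᶠ y : ℝ in 𝓝[>] 0, y ∈ Set.Ioo (0 : ℝ) 1 := Ioo_mem_nhdsGT one_pos
  filter_upwards [h1, h2, h3, h4] with y h1 h2 h3 h4
  have hy0 := h4.1
  have hL : 0 < Real.log (1 / y) := Real.log_pos (by
    rw [lt_div_iff₀ hy0]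
    linarith [h4.2])
  rw [Real.dist_eq, sub_zero] at h2 h3
  rw [Real.dist_eq] at h1
  have hsub : {τ ∈ Set.Ioc (τ₀ - y) (τ₀ + y) | η < |F τ / Real.log (1 / |τ - τ₀|) - r|} ⊆
      {τ ∈ Set.Ioc (τ₀ - y) (τ₀ + y) | A < |F τ - s y|} ∪
        Set.Ioo (τ₀ - κ * y) (τ₀ + κ * y) := by
    intro τ hτ
    by_contra hn
    rw [Set.mem_union, not_or] at hn
    have h5 : |F τ - s y| ≤ A := by
      by_contra h6
      exact hn.1 ⟨hτ.1, not_le.1 h6⟩
    have h6 : κ * y ≤ |τ - τ₀| := by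
      by_contra h7
      push Not at h7
      rw [abs_lt] at h7
      exact hn.2 ⟨by linarith [h7.1], by linarith [h7.2]⟩
    have h7 : |τ - τ₀| ≤ y := by
      rw [abs_le]
      constructor <;> linarith [hτ.1.1, hτ.1.2]
    obtain ⟨h8, h9⟩ := logs hκ0 hy0 h6 h7
    have h10 := est1 (r := r) hL h8 h9 h5
    have h11 : |s y / Real.log (1 / y) - r| ≤ η / 4 := h1.le.trans (min_le_left _ _)
    have h12 : |s y / Real.log (1 / y)| ≤ |r| + 1 := by
      have h13 := abs_sub_abs_le_abs_sub (s y / Real.log (1 / y)) r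
      have h14 := h1.le.trans (min_le_right (η / 4) 1)
      linarith
    have hK0 : 0 ≤ K := by linarith
    have h15 : |s y / Real.log (1 / y)| * (K / Real.log (1 / y)) ≤ η / 4 := by
      calc |s y / Real.log (1 / y)| * (K / Real.log (1 / y))
          ≤ (|r| + 1) * (K / Real.log (1 / y)) := by gcongr
        _ = (|r| + 1) * K / Real.log (1 / y) := by ring
        _ ≤ |(|r| + 1) * K / Real.log (1 / y)| := le_abs_self _
        _ ≤ η / 4 := h3.le
    have h16 := (le_abs_self _).trans h2.le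
    have h17 := hτ.2
    linarith
  have h5 := (measure_mono hsub).trans ((measure_union_le _ _).trans
    (add_le_add_left (hA2 y hy0 h4.2.le) _))
  rw [Real.volume_Ioo, ← ENNReal.ofReal_add (by positivity) (by nlinarith)] at h5
  have h6 := ENNReal.toReal_le_of_le_ofReal (by nlinarith) h5
  have h7 : 0 ≤ (volume {τ ∈ Set.Ioc (τ₀ - y) (τ₀ + y) |
    η < |F τ / Real.log (1 / |τ - τ₀|) - r|}).toReal / (2 * y) := by positivity
  rw [Real.dist_eq, sub_zero, abs_of_nonneg h7, div_lt_iff₀ (by linarith)]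
  have h8 : ε ≤ ε' := min_le_left _ _
  have h9 : ε * y ≤ ε' * y := by gcongr
  have h10 : κ * y = ε * y / 4 := by rw [hκ]; ring
  have h11 : 0 < ε * y := by positivity
  calc _ ≤ ε / 2 * (2 * y) + (τ₀ + κ * y - (τ₀ - κ * y)) := h6
    _ < ε' * (2 * y) := by
        rw [h10]
        linarith

lemma inDensity_onPositive (h : InDensity F τ₀ r) : OnPositive F τ₀ r := by
  refine ⟨1 / 2, by norm_num, fun η hη => ?_⟩
  have h1 := (Metric.tendsto_nhds.1 (h η hη)) (1 / 2) (by norm_num)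
  filter_upwards [h1, self_mem_nhdsWithin] with y h1 hy
  have hy0 : 0 < y := hy
  set A := {τ ∈ Set.Ioc (τ₀ - y) (τ₀ + y) | η < |F τ / Real.log (1 / |τ - τ₀|) - r|} with hA
  set B := {τ ∈ Set.Ioc (τ₀ - y) (τ₀ + y) | |F τ / Real.log (1 / |τ - τ₀|) - r| ≤ η} with hB
  have h2 : Set.Ioc (τ₀ - y) (τ₀ + y) ⊆ B ∪ A := by
    intro τ hτ
    by_cases h3 : |F τ / Real.log (1 / |τ - τ₀|) - r| ≤ η
    · exact Or.inl ⟨hτ, h3⟩
    · exact Or.inr ⟨hτ, not_le.1 h3⟩
  have h3 := (measure_mono (μ := volume) h2).trans (measure_union_le _ _)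
  rw [Real.volume_Ioc] at h3
  have h4 := ENNReal.toReal_mono (ENNReal.add_ne_top.2 ⟨vol_fin _ y, vol_fin _ y⟩) h3
  rw [ENNReal.toReal_add (vol_fin _ y) (vol_fin _ y), ENNReal.toReal_ofReal (by linarith)] at h4
  rw [Real.dist_eq, sub_zero, abs_of_nonneg (by positivity), div_lt_iff₀ (by linarith)] at h1
  rw [le_div_iff₀ (by linarith)]
  linarith

include hE in
lemma onPositive_radial (h : OnPositive F τ₀ r) : Radial s r := by
  obtain ⟨δ', hδ', h⟩ := h
  set δ : ℝ := min δ' 1 with hδd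
  have hδ : 0 < δ := lt_min hδ' one_pos
  obtain ⟨A, hA, hA2⟩ := hE (δ / 4) (by positivity)
  set κ : ℝ := δ / 4 with hκ
  have hκ0 : 0 < κ := by positivity
  set K : ℝ := Real.log (1 / κ) with hK
  unfold Radial
  rw [Metric.tendsto_nhds]
  intro ε hε
  set η : ℝ := min (ε / 4) 1 with hη
  have hη0 : 0 < η := by positivity
  have h1 := h η hη0
  have h2 := (Metric.tendsto_nhds.1 (tendsto_div_L A)) (ε / 4) (by positivity)
  have h3 := (Metric.tendsto_nhds.1 (tendsto_div_L ((|r| + 1) * K))) (ε / 4) (by positivity)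
  have h4 : ∀ᶠ y : ℝ in 𝓝[>] 0, y ∈ Set.Ioo (0 : ℝ) 1 := Ioo_mem_nhdsGT one_pos
  filter_upwards [h1, h2, h3, h4] with y h1 h2 h3 h4
  have hy0 := h4.1
  have hL : 0 < Real.log (1 / y) := Real.log_pos (by
    rw [lt_div_iff₀ hy0]
    linarith [h4.2])
  rw [Real.dist_eq, sub_zero] at h2 h3
  obtain ⟨τ, hτ, hτ2⟩ : ∃ τ ∈ {τ ∈ Set.Ioc (τ₀ - y) (τ₀ + y) |
      |F τ / Real.log (1 / |τ - τ₀|) - r| ≤ η},
      τ ∉ {τ ∈ Set.Ioc (τ₀ - y) (τ₀ + y) | A < |F τ - s y|} ∪
        Set.Ioo (τ₀ - κ * y) (τ₀ + κ * y) := by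
    by_contra hn
    push Not at hn
    have h5 := (measure_mono (μ := volume) (fun τ hτ => hn τ hτ)).trans
      ((measure_union_le _ _).trans (add_le_add_left (hA2 y hy0 h4.2.le) _))
    rw [Real.volume_Ioo, ← ENNReal.ofReal_add (by positivity) (by nlinarith)] at h5
    have h6 := ENNReal.toReal_le_of_le_ofReal (by nlinarith) h5
    rw [le_div_iff₀ (by linarith)] at h1
    have h7 : δ ≤ δ' := min_le_left _ _
    have h8 : κ * y = δ * y / 4 := by rw [hκ]; ring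
    have h9 : 0 < δ * y := by positivity
    have h10 : δ * y ≤ δ' * y := by gcongr
    have h11 := h1.trans h6
    rw [h8] at h11
    linarith
  rw [Set.mem_union, not_or] at hτ2
  have h5 : |F τ - s y| ≤ A := by
    by_contra h6
    exact hτ2.1 ⟨hτ.1, not_le.1 h6⟩
  have h6 : κ * y ≤ |τ - τ₀| := by
    by_contra h7
    push Not at h7
    rw [abs_lt] at h7
    exact hτ2.2 ⟨by linarith [h7.1], by linarith [h7.2]⟩
  have h7 : |τ - τ₀| ≤ y := by
    rw [abs_le]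
    constructor <;> linarith [hτ.1.1, hτ.1.2]
  obtain ⟨h8, h9⟩ := logs hκ0 hy0 h6 h7
  have h10 := est2 (r := r) hL h8 h9 h5
  have h11 := hτ.2
  have h12 : |F τ / Real.log (1 / |τ - τ₀|)| ≤ |r| + 1 := by
    have h13 := abs_sub_abs_le_abs_sub (F τ / Real.log (1 / |τ - τ₀|)) r
    have h14 : η ≤ 1 := min_le_right _ _
    linarith
  have hK0 : 0 ≤ K := by linarith
  have h15 : |F τ / Real.log (1 / |τ - τ₀|)| * (K / Real.log (1 / y)) ≤ ε / 4 := by
    calc |F τ / Real.log (1 / |τ - τ₀|)| * (K / Real.log (1 / y))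
        ≤ (|r| + 1) * (K / Real.log (1 / y)) := by gcongr
      _ = (|r| + 1) * K / Real.log (1 / y) := by ring
      _ ≤ |(|r| + 1) * K / Real.log (1 / y)| := le_abs_self _
      _ ≤ ε / 4 := h3.le
  have h16 := (le_abs_self _).trans h2.le
  have h17 : η ≤ ε / 4 := min_le_left _ _
  rw [Real.dist_eq]
  linarith

include hE in
theorem tfae_order : List.TFAE [Radial s r, InDensity F τ₀ r, OnPositive F τ₀ r] := by
  tfae_have 1 → 2 := radial_inDensity hE
  tfae_have 2 → 3 := inDensity_onPositive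
  tfae_have 3 → 1 := onPositive_radial hE
  tfae_finish

end real

/-- A function with a pole of order `r`. -/
lemma mero_order {Λ : ℂ → ℂ} {s₀ : ℂ} {n : ℤ} (hn : meromorphicOrderAt Λ s₀ = n)
    (hΛ : MeromorphicAt Λ s₀) :
    Tendsto (fun y : ℝ => Real.log ‖Λ (s₀ + y)‖ / Real.log (1 / y)) (𝓝[>] 0) (𝓝 (-n : ℝ)) := by
  obtain ⟨g, hg, hg0, hev⟩ := (meromorphicOrderAt_eq_int_iff hΛ).1 hn
  have hc : Tendsto (fun y : ℝ => s₀ + (y : ℂ)) (𝓝[>] 0) (𝓝 s₀) := by
    have h1 : Continuous fun y : ℝ => s₀ + (y : ℂ) := by fun_prop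
    have h2 := h1.tendsto 0
    simp only [Complex.ofReal_zero, add_zero] at h2
    exact h2.mono_left nhdsWithin_le_nhds
  have hc' : Tendsto (fun y : ℝ => s₀ + (y : ℂ)) (𝓝[>] 0) (𝓝[≠] s₀) := by
    refine tendsto_nhdsWithin_iff.2 ⟨hc, ?_⟩
    filter_upwards [self_mem_nhdsWithin] with y hy
    have hy0 : (0 : ℝ) < y := hy
    simp only [Set.mem_compl_iff, Set.mem_singleton_iff, add_eq_left, Complex.ofReal_eq_zero]
    exact hy0.ne'
  have h1 : Tendsto (fun y : ℝ => Real.log ‖g (s₀ + y)‖) (𝓝[>] 0) (𝓝 (Real.log ‖g s₀‖)) := by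
    have h2 := (hg.continuousAt.tendsto.comp hc).norm
    exact ((Real.continuousAt_log (norm_ne_zero_iff.2 hg0)).tendsto).comp h2
  have h2 : Tendsto (fun y : ℝ => Real.log ‖g (s₀ + y)‖ / Real.log (1 / y) + -n) (𝓝[>] 0)
      (𝓝 (0 + -n)) := (h1.div_atTop tendsto_L).add_const _
  rw [zero_add] at h2
  refine h2.congr' ?_
  have h3 := hc'.eventually hev
  have h4 : ∀ᶠ y : ℝ in 𝓝[>] 0, g (s₀ + y) ≠ 0 :=
    hc.eventually (hg.continuousAt.eventually_ne hg0)
  have h5 : ∀ᶠ y : ℝ in 𝓝[>] 0, y ∈ Set.Ioo (0 : ℝ) 1 := Ioo_mem_nhdsGT one_pos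
  filter_upwards [h3, h4, h5] with y h3 h4 h5
  have hy0 := h5.1
  have hL : 0 < Real.log (1 / y) := Real.log_pos (by
    rw [lt_div_iff₀ hy0]
    linarith [h5.2])
  rw [h3, add_sub_cancel_left, norm_smul, norm_zpow, Complex.norm_real,
    Real.norm_of_nonneg hy0.le, Real.log_mul (by positivity) (norm_ne_zero_iff.2 h4),
    Real.log_zpow]
  have h6 : Real.log y = -Real.log (1 / y) := by
    rw [one_div, Real.log_inv, neg_neg]
  rw [h6]
  field_simp
  ring

end Run7.h522.BM
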