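import Pool.Agent.TH958.BV.Main
import Pool.Agent.Run7.h522.BM.Lim

/-!
# The boundary values of `log L(H^i(X), s)` on the edge
-/

set_option autoImplicit false

namespace Run7.h522.BM

open NumberField IsDedekindDomain Filter Topology Polynomial Pool.Agent.H921R2.TatePole
  Pool.Agent.W350.Edge Pool.Agent.W350.EdgeV Pool.Agent.W350.EdgeNF Pool.Agent.TH958.BV
  MeasureTheory

section places

variable {K : Type} [Field K] [NumberField K]

/-- `∑_p 1/p²` -/
noncomputable def P2 : ℝ := ∑' p : Nat.Primes, ((p : ℕ) : ℝ) ^ (-(2 : ℝ))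

lemma P2_nonneg : 0 ≤ P2 := tsum_nonneg fun p => by positivity

lemma tsum_below_le : ∑' v : HeightOneSpectrum (𝓞 K), ((below v : ℕ) : ℝ) ^ (-(2 : ℝ)) ≤
    Module.finrank ℚ K * P2 := by
  have hs := below_sq_summable (K := K)
  rw [← (Equiv.sigmaFiberEquiv (below (K := K))).tsum_eq]
  rw [← (Equiv.sigmaFiberEquiv (below (K := K))).summable_iff] at hs
  have h1 : Summable fun p : Nat.Primes => (Module.finrank ℚ K : ℝ) *
        ((p : ℕ) : ℝ) ^ (-(2 : ℝ)) := (summable_primes_rpow one_lt_two).mul_left _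
  have h2 : ∀ (p : Nat.Primes) (v : {v : HeightOneSpectrum (𝓞 K) // below v = p}),
        ((below ((Equiv.sigmaFiberEquiv (below (K := K))) ⟨p, v⟩) : ℕ) : ℝ) ^ (-(2 : ℝ)) =
          ((p : ℕ) : ℝ) ^ (-(2 : ℝ)) := by
      intro p v
      simp only [Equiv.sigmaFiberEquiv, Equiv.coe_fn_mk]
      rw [v.2]
  have h3 : ∀ p : Nat.Primes, ∑' v : {v : HeightOneSpectrum (𝓞 K) // below v = p},
      ((below ((Equiv.sigmaFiberEquiv (below (K := K))) ⟨p, v⟩) : ℕ) : ℝ) ^ (-(2 : ℝ)) ≤
        (Module.finrank ℚ K : ℝ) * ((p : ℕ) : ℝ) ^ (-(2 : ℝ)) := by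
    intro p
    rw [tsum_fintype, Finset.sum_congr rfl fun v _ => h2 p v, Finset.sum_const, nsmul_eq_mul]
    refine mul_le_mul_of_nonneg_right ?_ (by positivity)
    have := fiber_card_le (K := K) p
    rw [Finset.card_univ]
    exact_mod_cast this
  refine le_trans (le_of_eq hs.tsum_sigma) ?_
  unfold P2
  rw [← tsum_mul_left]
  refine Summable.tsum_le_tsum h3 ?_ h1
  exact Summable.of_nonneg_of_le
    (fun p => tsum_nonneg fun _ => Real.rpow_nonneg (Nat.cast_nonneg _) _) h3 h1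

lemma nm_sq_le (v : HeightOneSpectrum (𝓞 K)) :
    (nm v : ℝ) ^ (-(2 : ℝ)) ≤ ((below v : ℕ) : ℝ) ^ (-(2 : ℝ)) := by
  obtain ⟨h1, h2, _⟩ := nm_eq v
  have hp : (0 : ℝ) < ((below v : ℕ) : ℝ) := by exact_mod_cast (below v).2.pos
  refine Real.rpow_le_rpow_of_nonpos hp ?_ (by norm_num)
  rw [h1]
  have : (below v : ℕ) ^ 1 ≤ (below v : ℕ) ^ deg v := Nat.pow_le_pow_right (below v).2.pos h2
  rw [pow_one] at this
  exact_mod_cast this

lemma low_le (v : HeightOneSpectrum (𝓞 K)) :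
    (if (nm v).Prime then (0 : ℝ) else 1 / nm v) ≤ ((below v : ℕ) : ℝ) ^ (-(2 : ℝ)) := by
  split_ifs with h
  · positivity
  · obtain ⟨h1, h2, _⟩ := nm_eq v
    have h3 : 2 ≤ deg v := by
      by_contra h4
      have h5 : deg v = 1 := by omega
      rw [h5, pow_one] at h1
      exact h (by rw [h1]; exact (below v).2)
    have hp : (0 : ℝ) < ((below v : ℕ) : ℝ) := by exact_mod_cast (below v).2.pos
    have h4 : ((below v : ℕ) : ℝ) ^ 2 ≤ nm v := by
      rw [h1]
      have : (below v : ℕ) ^ 2 ≤ (below v : ℕ) ^ deg v := Nat.pow_le_pow_right (below v).2.pos h3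
      exact_mod_cast this
    have h5 : ((below v : ℕ) : ℝ) ^ (-(2 : ℝ)) = 1 / ((below v : ℕ) : ℝ) ^ 2 := by
      rw [Real.rpow_neg hp.le, one_div]
      norm_cast
    rw [h5]
    exact one_div_le_one_div_of_le (by positivity) h4

/-- The terms of the places whose norm is not a prime number. -/
noncomputable def gv (a : HeightOneSpectrum (𝓞 K) → ℂ) (τ : ℝ) (v : HeightOneSpectrum (𝓞 K)) : ℂ :=
  if (nm v).Prime then 0 else vt nm a τ v

lemma norm_gv {a : HeightOneSpectrum (𝓞 K) → ℂ} {D : ℝ} (hD : 0 ≤ D) (ha : ∀ v, ‖a v‖ ≤ D) (τ : ℝ)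
    (v : HeightOneSpectrum (𝓞 K)) : ‖gv a τ v‖ ≤ D * ((below v : ℕ) : ℝ) ^ (-(2 : ℝ)) := by
  have h1 : ‖gv a τ v‖ ≤ D * (if (nm v).Prime then (0 : ℝ) else 1 / nm v) := by
    unfold gv
    split_ifs
    · simp
    · rw [norm_vt, mul_one_div]
      exact div_le_div_of_nonneg_right (ha v) (Nat.cast_nonneg _)
  exact h1.trans (mul_le_mul_of_nonneg_left (low_le v) hD)

lemma continuous_vt (a : HeightOneSpectrum (𝓞 K) → ℂ) (v : HeightOneSpectrum (𝓞 K)) :
    Continuous fun τ : ℝ => vt nm a τ v := by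
  unfold vt
  fun_prop

lemma continuous_gv (a : HeightOneSpectrum (𝓞 K) → ℂ) (v : HeightOneSpectrum (𝓞 K)) :
    Continuous fun τ : ℝ => gv a τ v := by
  unfold gv
  split_ifs
  · exact continuous_const
  · exact continuous_vt a v

/-- The explicit sum over the places. -/
lemma tendsto_sum_places {a : HeightOneSpectrum (𝓞 K) → ℂ} {D : ℝ} (hD : 0 ≤ D)
    (ha : ∀ v, ‖a v‖ ≤ D) (c : ℕ → ℂ)
    (hc : ∀ p : ℕ, p.Prime → c p = grp (N := (nm : HeightOneSpectrum (𝓞 K) → ℕ)) a p) (τ : ℝ)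
    (l : ℂ) (hl : Tendsto (ps c τ) atTop (𝓝 l)) :
    Tendsto (fun x => ∑ v ∈ FV nm hfin x, vt nm a τ v) atTop (𝓝 (l + ∑' v, gv a τ v)) := by
  classical
  have hgs : Summable (gv a τ) :=
    Summable.of_norm_bounded (below_sq_summable.mul_left D) (norm_gv hD ha τ)
  have h1 := hgs.hasSum.comp (tendsto_FV hfin)
  refine (hl.add h1).congr fun x => ?_
  simp only [Function.comp_apply]
  have h2 : ps c τ x = ∑ v ∈ FV nm hfin x,
      (if (nm v).Prime then vt nm a τ v else 0) := by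
    rw [← sum_grp hfin]
    unfold ps
    refine Finset.sum_congr rfl fun p _ => ?_
    unfold term grp
    split_ifs with hp
    · rw [hc p hp, grp, ← tsum_div_const, ← tsum_mul_right]
      refine tsum_congr fun v => ?_
      have h3 : nm v.1 = p := v.2
      beta_reduce
      rw [if_pos (by rw [h3]; exact hp), vt, h3]
    · have : ∀ v : (nm : HeightOneSpectrum (𝓞 K) → ℕ) ⁻¹' {p},
          (if (nm v.1).Prime then vt nm a τ v.1 else 0) = 0 := by
        intro v
        have h3 : nm v.1 = p := v.2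
        rw [if_neg (by rw [h3]; exact hp)]
      simp [this]
  rw [h2, ← Finset.sum_add_distrib]
  refine Finset.sum_congr rfl fun v _ => ?_
  unfold gv
  split_ifs <;> simp

/-- The number of the places of norm `p` is at most the degree. -/
lemma norm_grp {a : HeightOneSpectrum (𝓞 K) → ℂ} {D : ℝ} (hD : 0 ≤ D) (ha : ∀ v, ‖a v‖ ≤ D)
    (p : ℕ) (hp : p.Prime) : ‖grp (N := (nm : HeightOneSpectrum (𝓞 K) → ℕ)) a p‖ ≤
      D * Module.finrank ℚ K := by
  have hfi : Finite (𝓞 K →+* ZMod p) := hom_finite ⟨p, hp⟩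
  have := Fintype.ofFinite (𝓞 K →+* ZMod p)
  unfold grp
  rw [← (homEquiv (K := K) p hp).tsum_eq, tsum_fintype]
  refine (norm_sum_le_of_le (n := fun _ => D) _ fun φ _ => ha _).trans ?_
  rw [Finset.sum_const, nsmul_eq_mul, mul_comm]
  refine mul_le_mul_of_nonneg_left ?_ hD
  have h2 : Nat.card (𝓞 K →+* ZMod p) ≤ Module.finrank ℚ K :=
    (R_eq_hc (K := K) ⟨p, hp⟩).symm.le.trans (R_le (K := K) ⟨p, hp⟩)
  rw [Nat.card_eq_fintype_card] at h2
  rw [Finset.card_univ]
  exact_mod_cast h2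

end places

section main

variable {K : Type} [Field K] [NumberField K] {i N : ℕ} {S : Set (HeightOneSpectrum (𝓞 K))}
  {α : HeightOneSpectrum (𝓞 K) → Fin N → ℂ}

/-- The weights outside `S`. -/
def Wt (S : Set (HeightOneSpectrum (𝓞 K))) (i : ℕ) (α : HeightOneSpectrum (𝓞 K) → Fin N → ℂ) :
    Prop := ∀ v, v ∉ S → ∀ j, ‖α v j‖ = (nm v : ℝ) ^ ((i : ℝ) / 2)

open Classical in
/-- The logarithm of the Euler factor at `v`, if `v ∉ S`. -/
noncomputable def lv (S : Set (HeightOneSpectrum (𝓞 K))) (α : HeightOneSpectrum (𝓞 K) → Fin N → ℂ)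
    (v : HeightOneSpectrum (𝓞 K)) (s : ℂ) : ℂ :=
  if v ∈ S then 0 else ∑ j, -Complex.log (1 - α v j * (Ideal.absNorm v.asIdeal : ℂ) ^ (-s))

/-- The logarithm of the Euler product over `v ∉ S`. -/
noncomputable def logL (S : Set (HeightOneSpectrum (𝓞 K)))
    (α : HeightOneSpectrum (𝓞 K) → Fin N → ℂ) (s : ℂ) : ℂ := ∑' v, lv S α v s

open Classical in
/-- The normalised traces. -/
noncomputable def tv (S : Set (HeightOneSpectrum (𝓞 K))) (i : ℕ)
    (α : HeightOneSpectrum (𝓞 K) → Fin N → ℂ) (v : HeightOneSpectrum (𝓞 K)) : ℂ :=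
  if v ∈ S then 0 else (∑ j, α v j) / (((nm v : ℝ) ^ ((i : ℝ) / 2) : ℝ) : ℂ)

open Classical in
/-- The remainders. -/
noncomputable def qv (S : Set (HeightOneSpectrum (𝓞 K))) (α : HeightOneSpectrum (𝓞 K) → Fin N → ℂ)
    (v : HeightOneSpectrum (𝓞 K)) (s : ℂ) : ℂ :=
  if v ∈ S then 0 else rem (nm v) (α v) s

/-- The coefficients at the primes. -/
noncomputable def cp (S : Set (HeightOneSpectrum (𝓞 K))) (i : ℕ)
    (α : HeightOneSpectrum (𝓞 K) → Fin N → ℂ) (p : ℕ) : ℂ :=
  if p.Prime then grp (N := (nm : HeightOneSpectrum (𝓞 K) → ℕ)) (tv S i α) p else 0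

lemma tv_mem {v : HeightOneSpectrum (𝓞 K)} (h : v ∈ S) : tv S i α v = 0 := by
  unfold tv
  rw [if_pos h]

lemma tv_notMem {v : HeightOneSpectrum (𝓞 K)} (h : v ∉ S) :
    tv S i α v = (∑ j, α v j) / (((nm v : ℝ) ^ ((i : ℝ) / 2) : ℝ) : ℂ) := by
  unfold tv
  rw [if_neg h]

lemma qv_mem {v : HeightOneSpectrum (𝓞 K)} (h : v ∈ S) : qv S α v = fun _ => 0 := by
  funext s
  unfold qv
  rw [if_pos h]

lemma qv_notMem {v : HeightOneSpectrum (𝓞 K)} (h : v ∉ S) : qv S α v = rem (nm v) (α v) := by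
  funext s
  unfold qv
  rw [if_neg h]

lemma norm_tv (hα : Wt S i α) (v : HeightOneSpectrum (𝓞 K)) : ‖tv S i α v‖ ≤ N := by
  by_cases h : v ∈ S
  · rw [tv_mem h]
    simp
  · rw [tv_notMem h]
    have hq0 : (0 : ℝ) < nm v := by exact_mod_cast hN v
    have h0 : 0 < (nm v : ℝ) ^ ((i : ℝ) / 2) := by positivity
    rw [norm_div, Complex.norm_real, Real.norm_of_nonneg h0.le, div_le_iff₀ h0]
    refine (norm_sum_le_of_le (n := fun _ => (nm v : ℝ) ^ ((i : ℝ) / 2)) _ fun j _ =>
      (hα v h j).le).trans ?_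
    rw [Finset.sum_const, Finset.card_univ, Fintype.card_fin, nsmul_eq_mul]

lemma norm_cp (hα : Wt S i α) (p : ℕ) : ‖cp S i α p‖ ≤ N * Module.finrank ℚ K := by
  unfold cp
  split_ifs with hp
  · exact norm_grp (Nat.cast_nonneg _) (norm_tv hα) p hp
  · rw [norm_zero]
    positivity

/-- The point of the edge. -/
noncomputable def se (i : ℕ) (τ : ℝ) : ℂ := (((i : ℝ) / 2 + 1 : ℝ) : ℂ) + τ * Complex.I

lemma se_re (i : ℕ) (τ : ℝ) : (se i τ).re = (i : ℝ) / 2 + 1 := by
  simp [se]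

lemma norm_qv (hα : Wt S i α) (v : HeightOneSpectrum (𝓞 K)) {s : ℂ}
    (hs : (i : ℝ) / 2 + 1 ≤ s.re) : ‖qv S α v s‖ ≤ N * (nm v : ℝ) ^ (-2 : ℝ) := by
  by_cases h : v ∈ S
  · rw [qv_mem h, norm_zero]
    positivity
  · rw [qv_notMem h]
    exact norm_rem (two_le_nm v) (hα v h) hs

lemma norm_qv' (hα : Wt S i α) (v : HeightOneSpectrum (𝓞 K)) {s : ℂ}
    (hs : (i : ℝ) / 2 + 1 ≤ s.re) :
    ‖qv S α v s‖ ≤ N * ((below v : ℕ) : ℝ) ^ (-(2 : ℝ)) :=
  (norm_qv hα v hs).trans (mul_le_mul_of_nonneg_left (nm_sq_le v) (Nat.cast_nonneg N))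

lemma summable_qv (hα : Wt S i α) {s : ℂ} (hs : (i : ℝ) / 2 + 1 ≤ s.re) :
    Summable fun v => qv S α v s :=
  Summable.of_norm_bounded ((below_sq_summable (K := K)).mul_left (N : ℝ))
    fun v => norm_qv' hα v hs

/-- The bounded part of the boundary values. -/
noncomputable def GG (S : Set (HeightOneSpectrum (𝓞 K))) (i : ℕ)
    (α : HeightOneSpectrum (𝓞 K) → Fin N → ℂ) (τ : ℝ) : ℂ :=
  ∑' v, gv (tv S i α) τ v + ∑' v, qv S α v (se i τ)

lemma norm_GG (hα : Wt S i α) (τ : ℝ) :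
    ‖GG S i α τ‖ ≤ (2 * P2) * (N * Module.finrank ℚ K) := by
  have hb := tsum_below_le (K := K)
  have hN0 : (0 : ℝ) ≤ N := Nat.cast_nonneg N
  have h1 : ‖∑' v, gv (tv S i α) τ v‖ ≤ N * (Module.finrank ℚ K * P2) := by
    refine (tsum_of_norm_bounded ((below_sq_summable (K := K)).mul_left (N : ℝ)).hasSum
      (norm_gv hN0 (norm_tv hα) τ)).trans ?_
    rw [tsum_mul_left]
    exact mul_le_mul_of_nonneg_left hb hN0
  have h2 : ‖∑' v, qv S α v (se i τ)‖ ≤ N * (Module.finrank ℚ K * P2) := by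
    refine (tsum_of_norm_bounded ((below_sq_summable (K := K)).mul_left (N : ℝ)).hasSum
      fun v => norm_qv' hα v (se_re i τ).symm.le).trans ?_
    rw [tsum_mul_left]
    exact mul_le_mul_of_nonneg_left hb hN0
  calc ‖GG S i α τ‖ ≤ ‖∑' v, gv (tv S i α) τ v‖ + ‖∑' v, qv S α v (se i τ)‖ := norm_add_le _ _
    _ ≤ N * (Module.finrank ℚ K * P2) + N * (Module.finrank ℚ K * P2) := add_le_add h1 h2
    _ = _ := by ring

lemma continuous_se (i : ℕ) : Continuous (se i) := by
  unfold se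
  fun_prop

lemma continuous_qv (hα : Wt S i α) (v : HeightOneSpectrum (𝓞 K)) :
    Continuous fun τ : ℝ => qv S α v (se i τ) := by
  by_cases h : v ∈ S
  · rw [qv_mem h]
    exact continuous_const
  · rw [qv_notMem h]
    refine continuous_iff_continuousAt.2 fun τ => ?_
    exact ContinuousAt.comp (f := se i) (g := rem (nm v) (α v))
      (continuousAt_rem (two_le_nm v) (hα v h) (se_re i τ).symm.le) (continuous_se i).continuousAt

lemma continuous_GG (hα : Wt S i α) : Continuous (GG S i α) := by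
  have hN0 : (0 : ℝ) ≤ N := Nat.cast_nonneg N
  refine Continuous.add ?_ ?_
  · exact continuous_tsum (continuous_gv (tv S i α))
      ((below_sq_summable (K := K)).mul_left (N : ℝ)) fun v τ => norm_gv hN0 (norm_tv hα) τ v
  · exact continuous_tsum (continuous_qv hα) ((below_sq_summable (K := K)).mul_left (N : ℝ))
      fun v τ => norm_qv' hα v (se_re i τ).symm.le

open Classical in
/-- The limit of the sum over the primes. -/
noncomputable def Flim (S : Set (HeightOneSpectrum (𝓞 K))) (i : ℕ)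
    (α : HeightOneSpectrum (𝓞 K) → Fin N → ℂ) (τ : ℝ) : ℂ :=
  if h : ∃ l, Tendsto (ps (cp S i α) τ) atTop (𝓝 l) then h.choose else 0

/-- The logarithm of the boundary values. -/
noncomputable def logB (S : Set (HeightOneSpectrum (𝓞 K))) (i : ℕ)
    (α : HeightOneSpectrum (𝓞 K) → Fin N → ℂ) (τ : ℝ) : ℂ := Flim S i α τ + GG S i α τ

lemma tendsto_Flim {τ : ℝ} (hτ : τ ∉ divSet (cp S i α)) :
    Tendsto (ps (cp S i α) τ) atTop (𝓝 (Flim S i α τ)) := by
  have h : ∃ l, Tendsto (ps (cp S i α) τ) atTop (𝓝 l) := by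
    unfold divSet at hτ
    simpa using hτ
  unfold Flim
  rw [dif_pos h]
  exact h.choose_spec

lemma dimH_div (hα : Wt S i α) : dimH (divSet (cp S i α)) = 0 :=
  dimH_divSet _ _ (norm_cp hα)

lemma ae_notMem (hα : Wt S i α) : ∀ᵐ τ : ℝ, τ ∉ divSet (cp S i α) := by
  have h1 : μH[1] (divSet (cp S i α)) = 0 := by
    have h : dimH (divSet (cp S i α)) < ((1 : NNReal) : ENNReal) := by
      rw [dimH_div hα]
      norm_num
    have := hausdorffMeasure_of_dimH_lt h
    simpa using this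
  rw [hausdorffMeasure_real] at h1
  exact measure_eq_zero_iff_ae_notMem.1 h1

lemma ae_tendsto (hα : Wt S i α) :
    ∀ᵐ τ : ℝ, Tendsto (ps (cp S i α) τ) atTop (𝓝 (logB S i α τ - GG S i α τ)) := by
  filter_upwards [ae_notMem hα] with τ hτ
  have := tendsto_Flim hτ
  unfold logB
  rwa [add_sub_cancel_right]

lemma continuous_ps (a : ℕ → ℂ) (x : ℕ) : Continuous fun τ => ps a τ x :=
  continuous_finsetSum _ fun p _ => continuous_term a p

lemma aemeasurable_logB (hα : Wt S i α) : AEMeasurable (logB S i α) := by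
  have h1 : AEMeasurable (Flim S i α) := by
    refine aemeasurable_of_tendsto_metrizable_ae atTop
      (f := fun x τ => ps (cp S i α) τ x) (fun x => (continuous_ps _ x).aemeasurable) ?_
    filter_upwards [ae_notMem hα] with τ hτ
    exact tendsto_Flim hτ
  exact h1.add (continuous_GG hα).aemeasurable

lemma lv_eq (hα : Wt S i α) (v : HeightOneSpectrum (𝓞 K)) (τ : ℝ) (z : ℂ) :
    lv S α v (se i τ + z) = Complex.exp (-z * Real.log (nm v)) * vt nm (tv S i α) τ v +
      qv S α v (se i τ + z) := by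
  by_cases h : v ∈ S
  · unfold lv vt
    rw [if_pos h, tv_mem h, qv_mem h]
    simp
  · unfold vt
    rw [tv_notMem h, qv_notMem h, first_term (two_le_nm v)]
    unfold lv rem uj se
    rw [if_neg h, Finset.sum_sub_distrib, ← Finset.sum_mul]
    show _ = (∑ j, α v j) * ((nm v : ℕ) : ℂ) ^ _ + _
    have : (Ideal.absNorm v.asIdeal : ℂ) = ((nm v : ℕ) : ℂ) := rfl
    rw [this]
    ring

lemma summable_lv (hα : Wt S i α) {s : ℂ} (hs : (i : ℝ) / 2 + 1 < s.re) :
    Summable fun v => lv S α v s := by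
  have h1 : s = se i 0 + (s - se i 0) := by ring
  have hre : 0 < (s - se i 0).re := by
    rw [Complex.sub_re, se_re]
    linarith
  have h2 := (vt_summable hN hpow (tv S i α) N (norm_tv hα) 0 _ hre).add
    (summable_qv hα (s := se i 0 + (s - se i 0)) (by rw [← h1]; exact hs.le))
  refine h2.congr fun v => ?_
  conv_rhs => rw [h1]
  exact (lv_eq hα v 0 _).symm

/-- The Euler product. -/
theorem hasProd_euler (hα : Wt S i α) {s : ℂ} (hs : (i : ℝ) / 2 + 1 < s.re) :
    HasProd (fun v => Complex.exp (lv S α v s)) (Complex.exp (logL S α s)) :=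
  (summable_lv hα hs).hasSum.cexp

lemma exp_lv (hα : Wt S i α) {v : HeightOneSpectrum (𝓞 K)} (hv : v ∉ S) {s : ℂ}
    (hs : (i : ℝ) / 2 + 1 ≤ s.re) :
    Complex.exp (lv S α v s) = (∏ j, (1 - α v j * (Ideal.absNorm v.asIdeal : ℂ) ^ (-s)))⁻¹ := by
  unfold lv
  rw [if_neg hv, Complex.exp_sum, ← Finset.prod_inv_distrib]
  refine Finset.prod_congr rfl fun j _ => ?_
  rw [Complex.exp_neg, Complex.exp_log]
  exact Complex.slitPlane_ne_zero (one_sub_ne (two_le_nm v) (hα v hv) j hs)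

/-- The boundary values of `log L`. -/
theorem boundary_value (hα : Wt S i α) {τ : ℝ} (hτ : τ ∉ divSet (cp S i α)) :
    Tendsto (fun x : ℕ => ∑ v ∈ FV nm hfin x, lv S α v (se i τ)) atTop (𝓝 (logB S i α τ)) ∧
    ∀ C : ℝ, Tendsto (logL S α) (𝓝[angle i τ C] (se i τ)) (𝓝 (logB S i α τ)) := by
  classical
  have hN0 : (0 : ℝ) ≤ N := Nat.cast_nonneg N
  have hlim := tendsto_sum_places hN0 (norm_tv hα) (cp S i α) (fun p hp => by
    unfold cp
    rw [if_pos hp]) τ _ (tendsto_Flim hτ)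
  have h3 : Flim S i α τ + ∑' v, gv (tv S i α) τ v + ∑' v, qv S α v (se i τ) = logB S i α τ := by
    unfold logB GG
    ring
  constructor
  · have h1 := (summable_qv hα (se_re i τ).symm.le).hasSum.comp (tendsto_FV hfin)
    have h2 := hlim.add h1
    rw [h3] at h2
    refine h2.congr fun x => ?_
    simp only [Function.comp_apply]
    rw [← Finset.sum_add_distrib]
    refine Finset.sum_congr rfl fun v _ => ?_
    have h4 := lv_eq hα v τ 0
    rw [add_zero, neg_zero, zero_mul, Complex.exp_zero, one_mul] at h4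
    exact h4.symm
  · intro C
    have hsub : ∀ s ∈ angle i τ C, (i : ℝ) / 2 + 1 ≤ s.re := fun s hs => hs.1.le
    have h2 : Tendsto (fun s => ∑' v, qv S α v s) (𝓝[angle i τ C] (se i τ))
        (𝓝 (∑' v, qv S α v (se i τ))) := by
      refine tendsto_tsum_of_dominated_convergence
        ((below_sq_summable (K := K)).mul_left (N : ℝ)) (fun v => ?_) ?_
      · refine Tendsto.mono_left ?_ nhdsWithin_le_nhds
        by_cases h : v ∈ S
        · rw [qv_mem h]
          exact tendsto_const_nhds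
        · rw [qv_notMem h]
          exact (continuousAt_rem (two_le_nm v) (hα v h) (se_re i τ).symm.le).tendsto
      · filter_upwards [self_mem_nhdsWithin] with s hs v
        exact norm_qv' hα v (hsub s hs)
    have h4 : Tendsto (fun s : ℂ => ∑' v : HeightOneSpectrum (𝓞 K),
        Complex.exp (-(s - se i τ) * Real.log (nm v)) * vt nm (tv S i α) τ v)
        (𝓝[angle i τ C] (se i τ)) (𝓝 (Flim S i α τ + ∑' v, gv (tv S i α) τ v)) := by
      have h5 := abel_V hfin (vt nm (tv S i α) τ) _ hlim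
        (vt_summable hN hpow (tv S i α) N (norm_tv hα) τ) C
      refine h5.comp (tendsto_nhdsWithin_iff.2 ⟨?_, ?_⟩)
      · refine Tendsto.mono_left ?_ nhdsWithin_le_nhds
        have h6 : Continuous fun s : ℂ => s - se i τ := by fun_prop
        have h7 := h6.tendsto (se i τ)
        rwa [sub_self] at h7
      · filter_upwards [self_mem_nhdsWithin] with s hs
        have h6 : (s - se i τ).re = s.re - ((i : ℝ) / 2 + 1) := by
          rw [Complex.sub_re, se_re]
        refine ⟨?_, ?_⟩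
        · rw [h6]
          linarith [hs.1]
        · rw [h6]
          exact hs.2
    have h5 := h4.add h2
    rw [h3] at h5
    refine h5.congr' ?_
    filter_upwards [self_mem_nhdsWithin] with s hs
    have h6 : 0 < (s - se i τ).re := by
      rw [Complex.sub_re, se_re]
      linarith [hs.1]
    unfold logL
    rw [← (vt_summable hN hpow (tv S i α) N (norm_tv hα) τ _ h6).tsum_add
      (summable_qv hα (hsub s hs))]
    refine tsum_congr fun v => ?_
    have h7 := lv_eq hα v τ (s - se i τ)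
    rw [add_sub_cancel] at h7
    exact h7.symm

/-- The absolute constant. -/
noncomputable def CB : ℝ := 2 * C1 + 5 * (6 * CC + 1 + 2 * P2)

lemma CB_pos : 0 < CB := by
  have := C1_pos
  have := CC_pos
  have := P2_nonneg
  unfold CB
  positivity

/-- The mean oscillation of the boundary values. -/
theorem oscillation (hα : Wt S i α) {a b : ℝ} (hab : a < b) :
    ∃ c : ℂ, (1 ≤ b - a → c = 0) ∧
      ∫⁻ τ in Set.Ioc a b,
        ENNReal.ofReal (Real.exp (‖logB S i α τ - c‖ / (CB * (N * Module.finrank ℚ K)))) ≤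
          ENNReal.ofReal (2 * (b - a)) := by
  have hP := P2_nonneg
  exact exp_bound (2 * P2) (by positivity) (D := N * Module.finrank ℚ K) (by positivity)
    (norm_cp hα) (logB S i α) (GG S i α) (aemeasurable_logB hα) (continuous_GG hα).aemeasurable
    (ae_tendsto hα) (norm_GG hα) hab

end main

end Run7.h522.BM
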