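import Pool.Agent.Run7.h522.BM.Dist
import Mathlib.Analysis.Complex.AbsMax

/-!
# Holomorphic relations between sums of independent functions
-/

set_option autoImplicit false
open MeasureTheory Metric Filter
open scoped ENNReal Topology

namespace Run7.h522.BM

open Pool.Agent.Helper873.Product Pool.Agent.Helper873.OneVar

/-- Haar measure of the circle. -/
noncomputable abbrev haar1 : Measure UnitAddCircle := AddCircle.haarAddCircle (T := 1)

section open_pos

/-- Open sets have positive measure. -/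
lemma tor_pos {U : Set Om} (hU : IsOpen U) {z : Om} (hz : z ∈ U) : tor U ≠ 0 := by
  obtain ⟨s, t, ht, hts⟩ := isOpen_pi_iff.1 hU z hz
  intro h0
  let t' : ℕ → Set UnitAddCircle := fun i => if i ∈ s then t i else Set.univ
  have hopen : ∀ i, IsOpen (t' i) := by
    intro i
    by_cases hi : i ∈ s
    · simp only [t', if_pos hi]
      exact (ht i hi).1
    · simp only [t', if_neg hi]
      exact isOpen_univ
  have h1 : tor (Set.pi (s : Set ℕ) t') = ∏ i ∈ s, haar1 (t' i) :=
    Measure.infinitePi_pi _ fun i _ => (hopen i).measurableSet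
  have h2 : Set.pi (s : Set ℕ) t' ⊆ U := by
    refine subset_trans (fun x hx => ?_) hts
    intro i hi
    have := hx i hi
    simp only [t'] at this
    rwa [if_pos (by exact_mod_cast hi)] at this
  have h3 : tor (Set.pi (s : Set ℕ) t') = 0 := measure_mono_null h2 h0
  rw [h1, Finset.prod_eq_zero_iff] at h3
  obtain ⟨i, hi, hi0⟩ := h3
  have h4 : (t' i).Nonempty := by
    refine ⟨z i, ?_⟩
    simp only [t']
    rw [if_pos hi]
    exact (ht i hi).2
  exact ((hopen i).measure_pos haar1 h4).ne' hi0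

/-- A closed condition which holds almost everywhere holds everywhere. -/
lemma closed_of_ae {C : Set Om} (hC : IsClosed C) (h : ∀ᵐ z ∂tor, z ∈ C) (z : Om) : z ∈ C := by
  by_contra hz
  exact tor_pos hC.isOpen_compl hz (measure_eq_zero_iff_ae_notMem.2
    (h.mono fun w hw hw' => hw' hw))

lemma closed_of_ae1 {C : Set UnitAddCircle} (hC : IsClosed C) (h : ∀ᵐ z ∂haar1, z ∈ C)
    (z : UnitAddCircle) : z ∈ C := by
  by_contra hz
  exact (hC.isOpen_compl.measure_pos haar1 ⟨z, hz⟩).ne' (measure_eq_zero_iff_ae_notMem.2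
    (h.mono fun w hw hw' => hw' hw))

end open_pos

section circle

lemma norm_zet1 (t : UnitAddCircle) : ‖zet t‖ = 1 := norm_zet t

lemma exists_zet {x : ℂ} (hx : ‖x‖ = 1) : ∃ t : UnitAddCircle, zet t = x := by
  obtain ⟨θ, hθ⟩ := Complex.norm_eq_one_iff x |>.1 hx
  refine ⟨((-(θ / (2 * Real.pi)) : ℝ) : UnitAddCircle), ?_⟩
  unfold zet
  rw [fourier_coe_apply, ← hθ]
  congr 1
  have hpi : (Real.pi : ℂ) ≠ 0 := by exact_mod_cast Real.pi_ne_zero
  push_cast
  field_simp

/-- A holomorphic function which vanishes on the circle vanishes on the disc. -/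
lemma zero_disc {h : ℂ → ℂ} {ρ : ℝ} (hρ : 1 < ρ) (hh : DifferentiableOn ℂ h (ball 0 ρ))
    (h0 : ∀ x : ℂ, ‖x‖ = 1 → h x = 0) {x : ℂ} (hx : ‖x‖ ≤ 1) : h x = 0 := by
  have hd : DiffContOnCl ℂ h (ball 0 1) := by
    refine DifferentiableOn.diffContOnCl ?_
    refine hh.mono fun y hy => ?_
    have h1 := closure_ball_subset_closedBall hy
    rw [mem_closedBall_zero_iff] at h1
    rw [mem_ball_zero_iff]
    linarith
  have h1 := Complex.norm_le_of_forall_mem_frontier_norm_le isBounded_ball hd (C := 0)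
    (fun y hy => by
      rw [frontier_ball (0 : ℂ) one_ne_zero, mem_sphere_zero_iff_norm] at hy
      rw [h0 y hy, norm_zero]) (z := x) (by
      rw [closure_ball (0 : ℂ) one_ne_zero, mem_closedBall_zero_iff]
      exact hx)
  exact norm_le_zero_iff.1 h1

/-- A holomorphic function with constant real part on the circle and value `0` at `0`. -/
lemma re_disc {g : ℂ → ℂ} {ρ : ℝ} (hρ : 1 < ρ) (hg : DifferentiableOn ℂ g (ball 0 ρ))
    (hg0 : g 0 = 0) (c : ℝ) (h0 : ∀ x : ℂ, ‖x‖ = 1 → (g x).re = c) {x : ℂ} (hx : ‖x‖ ≤ 1) :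
    g x = 0 := by
  have hsub : closure (ball (0 : ℂ) 1) ⊆ ball 0 ρ := by
    intro y hy
    have h1 := closure_ball_subset_closedBall hy
    rw [mem_closedBall_zero_iff] at h1
    rw [mem_ball_zero_iff]
    linarith
  have hd : ∀ σ : ℂ, DiffContOnCl ℂ (fun y => Complex.exp (σ * g y)) (ball 0 1) := fun σ =>
    DifferentiableOn.diffContOnCl ((hg.const_mul σ).cexp.mono hsub)
  have hb : ∀ σ : ℝ, ∀ y : ℂ, ‖y‖ ≤ 1 → ‖Complex.exp (σ * g y)‖ ≤ Real.exp (σ * c) := by
    intro σ y hy
    refine Complex.norm_le_of_forall_mem_frontier_norm_le isBounded_ball (hd σ)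
      (fun w hw => ?_) (z := y) ?_
    · rw [frontier_ball (0 : ℂ) one_ne_zero, mem_sphere_zero_iff_norm] at hw
      rw [Complex.norm_exp, Complex.re_ofReal_mul, h0 w hw]
    · rw [closure_ball (0 : ℂ) one_ne_zero, mem_closedBall_zero_iff]
      exact hy
  have hre : ∀ y : ℂ, ‖y‖ ≤ 1 → (g y).re = c := by
    intro y hy
    have h1 := hb 1 y hy
    have h2 := hb (-1) y hy
    rw [Complex.norm_exp, Complex.re_ofReal_mul, Real.exp_le_exp] at h1 h2
    linarith
  have hc : c = 0 := by
    have h1 := hre 0 (by simp)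
    rw [hg0, Complex.zero_re] at h1
    exact h1.symm
  have hmax : ∀ w ∈ ball (0 : ℂ) 1, Complex.exp (g w) = Complex.exp (g 0) := by
    have h1 : DifferentiableOn ℂ (fun y => Complex.exp (g y)) (ball 0 1) :=
      hg.cexp.mono (subset_closure.trans hsub)
    have h2 : IsMaxOn (norm ∘ fun y => Complex.exp (g y)) (ball 0 1) 0 := by
      intro y hy
      rw [mem_ball_zero_iff] at hy
      simp only [Set.mem_ofPred_eq, Function.comp_apply, Complex.norm_exp]
      rw [hre y hy.le, hre 0 (by simp)]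
    exact Complex.eqOn_of_isPreconnected_of_isMaxOn_norm
      (convex_ball (0 : ℂ) 1).isPreconnected isOpen_ball h1 (mem_ball_self one_pos) h2
  have hder : ∀ w ∈ ball (0 : ℂ) 1, deriv g w = 0 := by
    intro w hw
    have hgw : DifferentiableAt ℂ g w :=
      (hg w (subset_closure.trans hsub hw)).differentiableAt
        (isOpen_ball.mem_nhds (subset_closure.trans hsub hw))
    have h1 : HasDerivAt (fun y => Complex.exp (g y)) (Complex.exp (g w) * deriv g w) w :=
      hgw.hasDerivAt.cexp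
    have h2 : (fun y => Complex.exp (g y)) =ᶠ[𝓝 w] fun _ => Complex.exp (g 0) := by
      filter_upwards [isOpen_ball.mem_nhds hw] with y hy using hmax y hy
    have h3 := h1.deriv
    rw [h2.deriv_eq, deriv_const] at h3
    rcases mul_eq_zero.1 h3.symm with h4 | h4
    · exact absurd h4 (Complex.exp_ne_zero _)
    · exact h4
  have hball : ∀ w ∈ ball (0 : ℂ) 1, g w = 0 := by
    intro w hw
    have h1 := isOpen_ball.is_const_of_deriv_eq_zero (convex_ball (0 : ℂ) 1).isPreconnected
      (hg.mono (subset_closure.trans hsub)) hder hw (mem_ball_self one_pos)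
    rw [h1, hg0]
  have hcl : closure (ball (0 : ℂ) 1) ⊆ {w | g w = 0} := by
    have h1 : ContinuousOn g (closure (ball (0 : ℂ) 1)) := hg.continuousOn.mono hsub
    intro w hw
    have h2 : Set.EqOn g (fun _ => 0) (ball 0 1) := hball
    exact h2.of_subset_closure h1 continuousOn_const subset_closure subset_rfl hw
  refine hcl ?_
  rw [closure_ball (0 : ℂ) one_ne_zero, mem_closedBall_zero_iff]
  exact hx

end circle

section indep

variable {E : Type} [NormedAddCommGroup E] [SecondCountableTopology E]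

/-- The sums of independent terms. -/
noncomputable def QQ (f : ℕ → ℂ → E) (n : ℕ) (z : Om) : E := ∑ k ∈ Finset.range n, f k (zet (z k))

lemma continuous_term' {f : ℕ → ℂ → E} {k : ℕ}
    (hf : ContinuousOn (f k) (closedBall 0 1)) : Continuous fun t : UnitAddCircle => f k (zet t) :=
  hf.comp_continuous continuous_zet fun t => by
    rw [mem_closedBall_zero_iff, norm_zet]

lemma continuous_QQ {f : ℕ → ℂ → E} (hf : ∀ k, ContinuousOn (f k) (closedBall 0 1)) (n : ℕ) :
    Continuous (QQ f n) :=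
  continuous_finsetSum _ fun k _ => (continuous_term' (hf k)).comp (continuous_apply k)

lemma QQ_update {f : ℕ → ℂ → E} {k n : ℕ} (h : k < n) (z : Om) (t : UnitAddCircle) :
    QQ f n (Function.update z k t) = QQ f n z - f k (zet (z k)) + f k (zet t) := by
  classical
  unfold QQ
  have hk : k ∈ Finset.range n := Finset.mem_range.2 h
  rw [← Finset.add_sum_erase _ _ hk, ← Finset.add_sum_erase _ _ hk, Function.update_self]
  have h1 : ∑ x ∈ (Finset.range n).erase k, f x (zet (Function.update z k t x)) =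
      ∑ x ∈ (Finset.range n).erase k, f x (zet (z x)) := by
    refine Finset.sum_congr rfl fun x hx => ?_
    rw [Function.update_of_ne (Finset.ne_of_mem_erase hx)]
  rw [h1]
  abel

variable [MeasurableSpace E] [BorelSpace E]

/-- The dependence of the limit on one coordinate. -/
lemma W_update {f : ℕ → ℂ → E} (hf : ∀ k, ContinuousOn (f k) (closedBall 0 1)) {W : Om → E}
    (hWm : Measurable W)
    (hW : Tendsto (fun n => ∫⁻ z, ENNReal.ofReal (‖W z - QQ f n z‖ ^ 2) ∂tor) atTop (𝓝 0))
    (k : ℕ) : ∀ᵐ p ∂(tor.prod haar1), W (Function.update p.1 k p.2) =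
      W p.1 - f k (zet (p.1 k)) + f k (zet p.2) := by
  set g : Om × UnitAddCircle → Om := fun p => Function.update p.1 k p.2 with hg
  have hgm : MeasurePreserving g (tor.prod haar1) tor := resample k
  have hcz : ∀ n, Measurable fun z => ENNReal.ofReal (‖W z - QQ f n z‖ ^ 2) := fun n =>
    ENNReal.measurable_ofReal.comp ((hWm.sub (continuous_QQ hf n).measurable).norm.pow_const 2)
  set G : Om × UnitAddCircle → E := fun p =>
    W (g p) - (W p.1 - f k (zet (p.1 k)) + f k (zet p.2)) with hG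
  have hGm : Measurable fun p => ENNReal.ofReal (‖G p‖ ^ 2) := by
    refine ENNReal.measurable_ofReal.comp (Measurable.pow_const (Measurable.norm ?_) 2)
    refine (hWm.comp hgm.measurable).sub (((hWm.comp measurable_fst).sub ?_).add ?_)
    · exact (continuous_term' (hf k)).measurable.comp
        ((measurable_pi_apply k).comp measurable_fst)
    · exact (continuous_term' (hf k)).measurable.comp measurable_snd
  have h1 : ∀ n, k < n → ∫⁻ p, ENNReal.ofReal (‖G p‖ ^ 2) ∂(tor.prod haar1) ≤
      4 * ∫⁻ z, ENNReal.ofReal (‖W z - QQ f n z‖ ^ 2) ∂tor := by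
    intro n hn
    calc ∫⁻ p, ENNReal.ofReal (‖G p‖ ^ 2) ∂(tor.prod haar1)
        ≤ ∫⁻ p, (2 * ENNReal.ofReal (‖W (g p) - QQ f n (g p)‖ ^ 2) +
            2 * ENNReal.ofReal (‖W p.1 - QQ f n p.1‖ ^ 2)) ∂(tor.prod haar1) := by
          refine lintegral_mono fun p => ?_
          rw [show (2 : ℝ≥0∞) = ENNReal.ofReal 2 by norm_num, ← ENNReal.ofReal_mul (by norm_num),
            ← ENNReal.ofReal_mul (by norm_num),
            ← ENNReal.ofReal_add (by positivity) (by positivity)]
          refine ENNReal.ofReal_le_ofReal ?_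
          have h5 := sq_add_le (W (g p) - QQ f n (g p)) (W p.1 - QQ f n p.1)
          have h6 : G p = (W (g p) - QQ f n (g p)) - (W p.1 - QQ f n p.1) := by
            simp only [hG, hg]
            rw [QQ_update hn]
            abel
          rw [h6]
          exact h5
      _ = 2 * ∫⁻ p, ENNReal.ofReal (‖W (g p) - QQ f n (g p)‖ ^ 2) ∂(tor.prod haar1) +
            2 * ∫⁻ p, ENNReal.ofReal (‖W p.1 - QQ f n p.1‖ ^ 2) ∂(tor.prod haar1) := by
          rw [lintegral_add_left, lintegral_const_mul' _ _ (by norm_num),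
            lintegral_const_mul' _ _ (by norm_num)]
          exact ((hcz n).comp hgm.measurable).const_mul 2
      _ = 4 * ∫⁻ z, ENNReal.ofReal (‖W z - QQ f n z‖ ^ 2) ∂tor := by
          have h2 := hgm.lintegral_comp (hcz n)
          have h3 := (measurePreserving_fst (μ := tor) (ν := haar1)).lintegral_comp (hcz n)
          rw [h2, h3, ← add_mul]
          norm_num
  have h2 : Tendsto (fun n => 4 * ∫⁻ z, ENNReal.ofReal (‖W z - QQ f n z‖ ^ 2) ∂tor) atTop
      (𝓝 0) := by
    have := ENNReal.Tendsto.const_mul hW (Or.inr (by norm_num : (4 : ℝ≥0∞) ≠ ⊤))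
    rwa [mul_zero] at this
  have h3 : ∫⁻ p, ENNReal.ofReal (‖G p‖ ^ 2) ∂(tor.prod haar1) = 0 := by
    refine le_antisymm (ge_of_tendsto h2 ?_) zero_le
    filter_upwards [eventually_gt_atTop k] with n hn using h1 n hn
  rw [lintegral_eq_zero_iff hGm] at h3
  filter_upwards [h3] with p hp
  simp only [Pi.zero_apply, ENNReal.ofReal_eq_zero] at hp
  have h4 : ‖G p‖ = 0 := by
    have := norm_nonneg (G p)
    nlinarith
  exact sub_eq_zero.1 (norm_eq_zero.1 h4)

/-- A closed condition in one coordinate. -/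
lemma coord_closed {f : ℕ → ℂ → E} (hf : ∀ k, ContinuousOn (f k) (closedBall 0 1)) {W : Om → E}
    (hWm : Measurable W)
    (hW : Tendsto (fun n => ∫⁻ z, ENNReal.ofReal (‖W z - QQ f n z‖ ^ 2) ∂tor) atTop (𝓝 0))
    (A : Om → E) (k : ℕ) (hA : ∀ z t, A (Function.update z k t) = A z) {C : Set E}
    (hC : IsClosed C) (h : ∀ᵐ z ∂tor, W z + A z ∈ C) :
    ∀ᵐ z ∂tor, ∀ t, W z - f k (zet (z k)) + f k (zet t) + A z ∈ C := by
  have h1 : ∀ᵐ p ∂(tor.prod haar1), W (Function.update p.1 k p.2) +
      A (Function.update p.1 k p.2) ∈ C := (resample k).quasiMeasurePreserving.ae h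
  have h2 : ∀ᵐ p ∂(tor.prod haar1),
      W p.1 - f k (zet (p.1 k)) + f k (zet p.2) + A p.1 ∈ C := by
    filter_upwards [h1, W_update hf hWm hW k] with p h3 h4
    rwa [h4, hA] at h3
  have h3 := Measure.ae_ae_of_ae_prod h2
  filter_upwards [h3] with z hz t
  refine closed_of_ae1 (C := {t | W z - f k (zet (z k)) + f k (zet t) + A z ∈ C}) ?_ hz t
  exact hC.preimage ((continuous_const.add (continuous_term' (hf k))).add continuous_const)

end indep

section hol

variable {E : Type} [NormedAddCommGroup E] [NormedSpace ℂ E] [SecondCountableTopology E]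
  [MeasurableSpace E] [BorelSpace E] {f : ℕ → ℂ → E}
  (hf : ∀ k, DifferentiableOn ℂ (f k) (ball 0 (3 / 2)))
  {W : Om → E} (hWm : Measurable W) (hW2 : MemLp W 2 tor)
  (hW : Tendsto (fun n => ∫ z, ‖W z - QQ f n z‖ ^ 2 ∂tor) atTop (𝓝 0))

include hf in
omit [SecondCountableTopology E] [MeasurableSpace E] [BorelSpace E] in
lemma cont_f (k : ℕ) : ContinuousOn (f k) (closedBall 0 1) :=
  (hf k).continuousOn.mono fun x hx => by
    rw [mem_closedBall_zero_iff] at hx
    rw [mem_ball_zero_iff]
    linarith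

include hf hW2 hW in
lemma lint_tendsto :
    Tendsto (fun n => ∫⁻ z, ENNReal.ofReal (‖W z - QQ f n z‖ ^ 2) ∂tor) atTop (𝓝 0) := by
  have h1 := (ENNReal.continuous_ofReal.tendsto _).comp hW
  rw [ENNReal.ofReal_zero] at h1
  refine h1.congr fun n => ?_
  have h2 := (hW2.sub (memLp_two (continuous_QQ (cont_f hf) n))).integrable_norm_pow two_ne_zero
  have h3 : Integrable (fun z => ‖W z - QQ f n z‖ ^ 2) tor := by simpa using h2
  exact ofReal_integral_eq_lintegral_ofReal h3 (ae_of_all _ fun z => by positivity)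

include hf hW2 hW in
lemma exists_sub : ∃ ns : ℕ → ℕ, StrictMono ns ∧
    ∀ᵐ z ∂tor, Tendsto (fun j => QQ f (ns j) z) atTop (𝓝 (W z)) := by
  have hm : ∀ n, MemLp (QQ f n) 2 tor := fun n => memLp_two (continuous_QQ (cont_f hf) n)
  refine (tendstoInMeasure_of_tendsto_eLpNorm (p := 2) two_ne_zero (fun n => (hm n).1) hW2.1
    ?_).exists_seq_tendsto_ae
  have h1 : ∀ n, (eLpNorm (QQ f n - W) 2 tor).toReal ^ 2 = ∫ z, ‖W z - QQ f n z‖ ^ 2 ∂tor := by
    intro n
    rw [sq_toReal ((hm n).sub hW2)]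
    refine integral_congr_ae (ae_of_all _ fun z => ?_)
    simp only [Pi.sub_apply]
    rw [norm_sub_rev]
  have h2 : Tendsto (fun n => (eLpNorm (QQ f n - W) 2 tor).toReal) atTop (𝓝 0) := by
    have h3 := hW.sqrt
    rw [Real.sqrt_zero] at h3
    refine h3.congr fun n => ?_
    rw [← h1 n, Real.sqrt_sq ENNReal.toReal_nonneg]
  have h3 : ∀ n, eLpNorm (QQ f n - W) 2 tor ≠ ⊤ := fun n => ((hm n).sub hW2).2.ne
  have h4 := (ENNReal.tendsto_toReal_iff h3 ENNReal.zero_ne_top).1 (by simpa using h2)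
  exact h4

/-- The difference between the terms at the radius `r` and the terms on the circle. -/
noncomputable def AA (f : ℕ → ℂ → E) (r : ℕ → ℝ) (n : ℕ) (z : Om) : E :=
  ∑ k ∈ Finset.range n, (f k (r k * zet (z k)) - f k (zet (z k)))

include hf hWm hW2 hW in
lemma induct {Φ : E → ℂ} (hΦ : Differentiable ℂ Φ) (h : ∀ᵐ z ∂tor, Φ (W z) = 0) (r : ℕ → ℝ)
    (hr0 : ∀ k, 0 ≤ r k) (hr1 : ∀ k, r k ≤ 1) (n : ℕ) :
    ∀ᵐ z ∂tor, Φ (W z + AA f r n z) = 0 := by
  induction n with
  | zero =>
    filter_upwards [h] with z hz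
    unfold AA
    simpa using hz
  | succ n ih =>
    have hA : ∀ z t, AA f r n (Function.update z n t) = AA f r n z := by
      intro z t
      unfold AA
      refine Finset.sum_congr rfl fun k hk => ?_
      rw [Function.update_of_ne (Finset.mem_range.1 hk).ne]
    have hC : IsClosed {w : E | Φ w = 0} := isClosed_eq hΦ.continuous continuous_const
    have h1 := coord_closed (cont_f hf) hWm (lint_tendsto hf hW2 hW) (AA f r n) n hA hC ih
    filter_upwards [h1] with z hz
    set b : E := W z - f n (zet (z n)) + AA f r n z with hb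
    have h2 : ∀ x : ℂ, ‖x‖ = 1 → Φ (b + f n x) = 0 := by
      intro x hx
      obtain ⟨t, ht⟩ := exists_zet hx
      have h3 : Φ (W z - f n (zet (z n)) + f n (zet t) + AA f r n z) = 0 := hz t
      rw [ht] at h3
      rw [← h3, hb]
      congr 1
      abel
    have h3 : DifferentiableOn ℂ (fun x => Φ (b + f n x)) (ball 0 (3 / 2)) :=
      hΦ.comp_differentiableOn ((hf n).const_add b)
    have h4 : ‖(r n : ℂ) * zet (z n)‖ ≤ 1 := by
      rw [norm_mul, norm_zet, mul_one, Complex.norm_real, Real.norm_of_nonneg (hr0 n)]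
      exact hr1 n
    have h5 := zero_disc (by norm_num) h3 h2 h4
    rw [← h5, hb]
    unfold AA
    rw [Finset.sum_range_succ]
    congr 1
    abel

include hf hWm hW2 hW in
/-- **Holomorphic relations.** -/
theorem relation {Φ : E → ℂ} (hΦ : Differentiable ℂ Φ) (h : ∀ᵐ z ∂tor, Φ (W z) = 0)
    (r : ℕ → ℝ) (hr0 : ∀ k, 0 ≤ r k) (hr1 : ∀ k, r k ≤ 1) [CompleteSpace E] (u : ℕ → ℝ)
    (hu : Summable u) (hfu : ∀ k x, ‖x‖ ≤ 1 → ‖f k (r k * x)‖ ≤ u k) (z : Om) :
    Φ (∑' k, f k (r k * zet (z k))) = 0 := by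
  have hcf := cont_f hf
  have hin : ∀ (k : ℕ) (x : ℂ), ‖x‖ ≤ 1 → ‖(r k : ℂ) * x‖ ≤ 1 := by
    intro k x hx
    rw [norm_mul, Complex.norm_real, Real.norm_of_nonneg (hr0 k)]
    exact mul_le_one₀ (hr1 k) (norm_nonneg _) hx
  have hcont : Continuous fun z : Om => ∑' k, f k (r k * zet (z k)) := by
    refine continuous_tsum (fun k => ?_) hu fun k z => hfu k _ (norm_zet _).le
    refine (hcf k).comp_continuous (continuous_const.mul
      (continuous_zet.comp (continuous_apply k))) fun z => ?_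
    rw [mem_closedBall_zero_iff]
    exact hin k _ (norm_zet _).le
  obtain ⟨ns, hns, hsub⟩ := exists_sub hf hW2 hW
  have h1 : ∀ᵐ z ∂tor, ∀ n, Φ (W z + AA f r n z) = 0 :=
    ae_all_iff.2 fun n => induct hf hWm hW2 hW hΦ h r hr0 hr1 n
  refine closed_of_ae (C := {z | Φ (∑' k, f k (r k * zet (z k))) = 0})
    (isClosed_eq (hΦ.continuous.comp hcont) continuous_const) ?_ z
  filter_upwards [h1, hsub] with z h1 h2
  have hs : Summable fun k => f k (r k * zet (z k)) :=
    Summable.of_norm_bounded hu fun k => hfu k _ (norm_zet _).le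
  have h3 : Tendsto (fun j => W z + AA f r (ns j) z) atTop
      (𝓝 (W z - W z + ∑' k, f k (r k * zet (z k)))) := by
    have h4 := (h2.const_sub (W z)).add (hs.hasSum.tendsto_sum_nat.comp hns.tendsto_atTop)
    refine h4.congr fun j => ?_
    unfold AA QQ
    simp only [Function.comp_apply]
    rw [Finset.sum_sub_distrib]
    abel
  rw [sub_self, zero_add] at h3
  have h5 := (hΦ.continuous.tendsto _).comp h3
  have h6 : Tendsto (fun _ : ℕ => (0 : ℂ)) atTop (𝓝 (Φ (∑' k, f k (r k * zet (z k))))) := by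
    refine h5.congr fun j => ?_
    exact h1 _
  exact (tendsto_nhds_unique h6 tendsto_const_nhds)

include hf hWm hW2 hW in
/-- **Real linear relations.** -/
theorem real_relation (hf0 : ∀ k, f k 0 = 0) (Λ : E →L[ℂ] ℂ) (A : ℝ)
    (h : ∀ᵐ z ∂tor, (Λ (W z)).re = A) :
    A = 0 ∧ ∀ (k : ℕ) (x : ℂ), ‖x‖ ≤ 1 → Λ (f k x) = 0 := by
  have hcf := cont_f hf
  have h2 : ∀ (k : ℕ) (x : ℂ), ‖x‖ ≤ 1 → Λ (f k x) = 0 := by
    intro k
    have hC : IsClosed {w : E | (Λ w).re = A} :=
      isClosed_eq (Complex.continuous_re.comp Λ.continuous) continuous_const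
    have h1 := coord_closed hcf hWm (lint_tendsto hf hW2 hW) (fun _ => 0) k (fun _ _ => rfl) hC
      (by
        filter_upwards [h] with z hz
        simpa using hz)
    obtain ⟨z, hz⟩ := h1.exists
    set b : E := W z - f k (zet (z k)) with hb
    have h3 : ∀ x : ℂ, ‖x‖ = 1 → (Λ (f k x)).re = A - (Λ b).re := by
      intro x hx
      obtain ⟨t, ht⟩ := exists_zet hx
      have h4 : (Λ (b + f k (zet t) + 0)).re = A := hz t
      rw [ht, add_zero, map_add, Complex.add_re] at h4
      linarith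
    intro x hx
    exact re_disc (ρ := 3 / 2) (by norm_num) (Λ.differentiable.comp_differentiableOn (hf k))
      (by rw [Function.comp_apply, hf0, map_zero]) _ h3 hx
  refine ⟨?_, h2⟩
  obtain ⟨ns, hns, hsub⟩ := exists_sub hf hW2 hW
  obtain ⟨z, h3, h4⟩ := (h.and hsub).exists
  have h5 := (Λ.continuous.tendsto _).comp h4
  have h6 : Tendsto (fun _ : ℕ => (0 : ℂ)) atTop (𝓝 (Λ (W z))) := by
    refine h5.congr fun j => ?_
    simp only [Function.comp_apply]
    unfold QQ
    rw [map_sum]
    exact Finset.sum_eq_zero fun k _ => h2 k _ (norm_zet _).le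
  have h7 : Λ (W z) = 0 := (tendsto_nhds_unique h6 tendsto_const_nhds)
  rw [← h3, h7, Complex.zero_re]

end hol

end Run7.h522.BM
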