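import Pool.Agent.Run7.h522.BM.Step
import Pool.Agent.Run7.h522.BM.Dist

/-!
# The random Euler products
-/

set_option autoImplicit false

namespace Run7.h522.BM

open NumberField IsDedekindDomain Filter Topology Pool.Agent.H921R2.TatePole
  Pool.Agent.W350.Edge Pool.Agent.W350.EdgeV Pool.Agent.W350.EdgeNF Pool.Agent.TH958.BV
  MeasureTheory Pool.Agent.Helper873.Mean Pool.Agent.Helper873.OneVar
  Pool.Agent.Helper873.Product
open scoped ENNReal

/-- The coordinate of the prime number `p`. -/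
noncomputable def xi (z : Om) (p : ℕ) : ℂ := fourier (-1) (z (Nat.count Nat.Prime p))

/-- The completely multiplicative function with the values `xi z p` at the primes. -/
noncomputable def steinhaus (z : Om) (n : ℕ) : ℂ := n.factorization.prod fun p k => xi z p ^ k

lemma norm_xi (z : Om) (p : ℕ) : ‖xi z p‖ = 1 := norm_zet _

lemma continuous_xi (p : ℕ) : Continuous fun z : Om => xi z p :=
  continuous_zet.comp (continuous_apply _)

lemma norm_steinhaus (z : Om) (n : ℕ) : ‖steinhaus z n‖ = 1 := by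
  unfold steinhaus Finsupp.prod
  rw [norm_prod]
  refine Finset.prod_eq_one fun p _ => ?_
  rw [norm_pow, norm_xi, one_pow]

lemma continuous_steinhaus (n : ℕ) : Continuous fun z : Om => steinhaus z n := by
  unfold steinhaus Finsupp.prod
  exact continuous_finsetProd _ fun p _ => (continuous_xi p).pow _

lemma xi_zt (τ : ℝ) {p : ℕ} (hp : p.Prime) : xi (zt τ) p = (p : ℂ) ^ (-(τ * Complex.I)) := by
  have h := zet_zt τ (Nat.count Nat.Prime p)
  unfold Pool.Agent.Helper873.Alg.vs at h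
  rw [Nat.nth_count hp] at h
  exact h

lemma steinhaus_pow (z : Om) {p : ℕ} (hp : p.Prime) (f : ℕ) :
    steinhaus z (p ^ f) = xi z p ^ f := by
  unfold steinhaus
  rw [hp.factorization_pow]
  exact Finsupp.prod_single_index (h := fun p k => xi z p ^ k) (pow_zero _)

lemma steinhaus_zt (τ : ℝ) {p : ℕ} (hp : p.Prime) (f : ℕ) :
    steinhaus (zt τ) (p ^ f) = ((p ^ f : ℕ) : ℂ) ^ (-(τ * Complex.I)) := by
  rw [steinhaus_pow _ hp, xi_zt τ hp, ← Complex.cpow_nat_mul, Complex.natCast_cpow_natCast_mul]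
  push_cast
  rfl

variable {K : Type} [Field K] [NumberField K] {i N : ℕ} {S : Set (HeightOneSpectrum (𝓞 K))}
  {α : HeightOneSpectrum (𝓞 K) → Fin N → ℂ}

open Classical in
/-- The logarithm of the random Euler factor at `v`, if `v ∉ S`. -/
noncomputable def wv (S : Set (HeightOneSpectrum (𝓞 K))) (i : ℕ)
    (α : HeightOneSpectrum (𝓞 K) → Fin N → ℂ) (v : HeightOneSpectrum (𝓞 K)) (z : Om) : ℂ :=
  if v ∈ S then 0 else ∑ j, -Complex.log (1 - α v j *
    (Ideal.absNorm v.asIdeal : ℂ) ^ (-(((i : ℝ) / 2 + 1 : ℝ) : ℂ)) *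
      steinhaus z (Ideal.absNorm v.asIdeal))

lemma wv_zt (v : HeightOneSpectrum (𝓞 K)) (τ : ℝ) : wv S i α v (zt τ) = lv S α v (se i τ) := by
  unfold wv lv
  split_ifs with h
  · rfl
  · refine Finset.sum_congr rfl fun j _ => ?_
    have h1 : steinhaus (zt τ) (Ideal.absNorm v.asIdeal) =
        (Ideal.absNorm v.asIdeal : ℂ) ^ (-(τ * Complex.I)) := by
      have h2 : Ideal.absNorm v.asIdeal = (below v : ℕ) ^ deg v := (nm_eq v).1
      rw [h2]
      exact steinhaus_zt τ (below v).2 _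
    have h3 : (Ideal.absNorm v.asIdeal : ℂ) ≠ 0 := by
      have : Ideal.absNorm v.asIdeal ≠ 0 := nm_ne_zero v
      exact_mod_cast this
    rw [h1, mul_assoc, ← Complex.cpow_add _ _ h3]
    congr 5
    unfold se
    ring

lemma norm_arg (hα : Wt S i α) {v : HeightOneSpectrum (𝓞 K)} (h : v ∉ S) (j : Fin N) (z : Om) :
    ‖α v j * (Ideal.absNorm v.asIdeal : ℂ) ^ (-(((i : ℝ) / 2 + 1 : ℝ) : ℂ)) *
      steinhaus z (Ideal.absNorm v.asIdeal)‖ < 1 := by
  have h2 := two_le_nm v
  have h2' : (2 : ℝ) ≤ nm v := by exact_mod_cast h2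
  have h0 : (0 : ℝ) < nm v := by linarith
  rw [norm_mul, norm_mul, norm_steinhaus, mul_one, hα v h j]
  have h3 : ‖(Ideal.absNorm v.asIdeal : ℂ) ^ (-(((i : ℝ) / 2 + 1 : ℝ) : ℂ))‖ =
      (nm v : ℝ) ^ (-((i : ℝ) / 2 + 1)) := by
    have h4 := Complex.norm_natCast_cpow_of_pos (n := nm v) (by omega)
      (-(((i : ℝ) / 2 + 1 : ℝ) : ℂ))
    rw [Complex.neg_re, Complex.ofReal_re] at h4
    exact h4
  rw [h3, ← Real.rpow_add h0]
  have h5 : (i : ℝ) / 2 + -((i : ℝ) / 2 + 1) = -1 := by ring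
  rw [h5, Real.rpow_neg_one]
  exact inv_lt_one_of_one_lt₀ (by linarith)

lemma continuous_wv (hα : Wt S i α) (v : HeightOneSpectrum (𝓞 K)) : Continuous (wv S i α v) := by
  unfold wv
  split_ifs with h
  · exact continuous_const
  · refine continuous_finsetSum _ fun j _ => Continuous.neg ?_
    refine Continuous.clog ?_ fun z => ?_
    · exact continuous_const.sub (continuous_const.mul (continuous_steinhaus _))
    · have h1 := norm_arg hα h j z
      set w := α v j * (Ideal.absNorm v.asIdeal : ℂ) ^ (-(((i : ℝ) / 2 + 1 : ℝ) : ℂ)) *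
        steinhaus z (Ideal.absNorm v.asIdeal)
      left
      rw [Complex.sub_re, Complex.one_re]
      linarith [(le_abs_self _).trans (Complex.abs_re_le_norm w)]

/-- The partial sums on the torus. -/
noncomputable def PY (S : Set (HeightOneSpectrum (𝓞 K))) (i : ℕ)
    (α : HeightOneSpectrum (𝓞 K) → Fin N → ℂ) (Y : ℕ) (z : Om) : ℂ :=
  ∑ v ∈ FV nm hfin Y, wv S i α v z

lemma continuous_PY (hα : Wt S i α) (Y : ℕ) : Continuous (PY S i α Y) :=
  continuous_finsetSum _ fun v _ => continuous_wv hα v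

lemma PY_zt (Y : ℕ) (τ : ℝ) : PY S i α Y (zt τ) = lY S i α Y τ :=
  Finset.sum_congr rfl fun v _ => wv_zt v τ

/-- The exponential bound with a positive constant. -/
lemma osc_one (hα : Wt S i α) {a b : ℝ} (hab : 1 ≤ b - a) :
    ∫⁻ τ in Set.Ioc a b,
      ENNReal.ofReal (Real.exp (‖logB S i α τ‖ / (CB * (N * Module.finrank ℚ K + 1)))) ≤
        ENNReal.ofReal (2 * (b - a)) := by
  have hP := P2_nonneg
  have hD : ∀ p, ‖cp S i α p‖ ≤ (N * Module.finrank ℚ K + 1 : ℝ) := fun p =>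
    (norm_cp hα p).trans (by linarith)
  have hG : ∀ τ, ‖GG S i α τ‖ ≤ (2 * P2) * (N * Module.finrank ℚ K + 1 : ℝ) := fun τ =>
    (norm_GG hα τ).trans (by gcongr; linarith)
  obtain ⟨c, hc1, hc2⟩ := exp_bound (2 * P2) (by positivity) (D := N * Module.finrank ℚ K + 1)
    (by positivity) hD (logB S i α) (GG S i α) (aemeasurable_logB hα)
    (continuous_GG hα).aemeasurable (ae_tendsto hα) hG (show a < b by linarith)
  rw [hc1 hab] at hc2
  simp only [sub_zero] at hc2
  exact hc2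

section family

variable {M : Type} [Fintype M] {KK : M → Type} [∀ m, Field (KK m)] [∀ m, NumberField (KK m)]
  {ii NN : M → ℕ} {SS : ∀ m, Set (HeightOneSpectrum (𝓞 (KK m)))}
  {αα : ∀ m, HeightOneSpectrum (𝓞 (KK m)) → Fin (NN m) → ℂ}

lemma norm_sq_le_sum (x : M → ℂ) : ‖x‖ ^ 2 ≤ ∑ m, ‖x m‖ ^ 2 := by
  have h0 : 0 ≤ ∑ m, ‖x m‖ ^ 2 := Finset.sum_nonneg fun m _ => by positivity
  have h1 : ‖x‖ ≤ Real.sqrt (∑ m, ‖x m‖ ^ 2) := by
    rw [pi_norm_le_iff_of_nonneg (Real.sqrt_nonneg _)]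
    intro m
    refine Real.le_sqrt_of_sq_le ?_
    exact Finset.single_le_sum (f := fun m => ‖x m‖ ^ 2) (fun m _ => by positivity)
      (Finset.mem_univ m)
  calc ‖x‖ ^ 2 ≤ (Real.sqrt (∑ m, ‖x m‖ ^ 2)) ^ 2 := pow_le_pow_left₀ (norm_nonneg _) h1 2
    _ = _ := Real.sq_sqrt h0

/-- The family of the logarithms of the boundary values. -/
noncomputable def LB (SS : ∀ m, Set (HeightOneSpectrum (𝓞 (KK m)))) (ii : M → ℕ)
    (αα : ∀ m, HeightOneSpectrum (𝓞 (KK m)) → Fin (NN m) → ℂ) (τ : ℝ) : M → ℂ :=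
  fun m => logB (SS m) (ii m) (αα m) τ

/-- The family of the partial sums. -/
noncomputable def PB (SS : ∀ m, Set (HeightOneSpectrum (𝓞 (KK m)))) (ii : M → ℕ)
    (αα : ∀ m, HeightOneSpectrum (𝓞 (KK m)) → Fin (NN m) → ℂ) (Y : ℕ) (z : Om) : M → ℂ :=
  fun m => PY (SS m) (ii m) (αα m) Y z

lemma aesm_LB (hα : ∀ m, Wt (SS m) (ii m) (αα m)) :
    AEStronglyMeasurable (LB SS ii αα) volume := by
  refine AEMeasurable.aestronglyMeasurable ?_
  exact aemeasurable_pi_lambda _ fun m => aemeasurable_logB (hα m)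

lemma continuous_PB (hα : ∀ m, Wt (SS m) (ii m) (αα m)) (Y : ℕ) :
    Continuous (PB SS ii αα Y) :=
  continuous_pi fun m => continuous_PY (hα m) Y

lemma step_LB (hα : ∀ m, Wt (SS m) (ii m) (αα m)) : Step2 (LB SS ii αα) (PB SS ii αα) := by
  intro ε hε
  set c : ℝ := Fintype.card M + 1 with hc
  have hc0 : 0 < c := by positivity
  choose Y₀ hY₀ using fun m => stepanov (hα m) (ε / c) (by positivity)
  refine ⟨Finset.univ.sup Y₀, fun Y hY a => ?_⟩
  have h1 : ∀ m, Y₀ m ≤ Y := fun m => (Finset.le_sup (Finset.mem_univ m)).trans hY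
  calc ∫⁻ τ in Set.Ioc a (a + 1), ENNReal.ofReal (‖LB SS ii αα τ - PB SS ii αα Y (zt τ)‖ ^ 2)
      ≤ ∫⁻ τ in Set.Ioc a (a + 1), ∑ m, ENNReal.ofReal
          (‖logB (SS m) (ii m) (αα m) τ - lY (SS m) (ii m) (αα m) Y τ‖ ^ 2) := by
        refine lintegral_mono fun τ => ?_
        rw [← ENNReal.ofReal_sum_of_nonneg fun m _ => by positivity]
        refine ENNReal.ofReal_le_ofReal ?_
        refine (norm_sq_le_sum _).trans (le_of_eq ?_)
        refine Finset.sum_congr rfl fun m _ => ?_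
        rw [Pi.sub_apply]
        unfold LB PB
        rw [PY_zt]
    _ = ∑ m, ∫⁻ τ in Set.Ioc a (a + 1), ENNReal.ofReal
          (‖logB (SS m) (ii m) (αα m) τ - lY (SS m) (ii m) (αα m) Y τ‖ ^ 2) := by
        refine lintegral_finsetSum' _ fun m _ => ?_
        exact aem (aemeasurable_logB (hα m)).aestronglyMeasurable (continuous_lY (hα m) Y) _
    _ ≤ ∑ m : M, ENNReal.ofReal (ε / c) := Finset.sum_le_sum fun m _ => hY₀ m Y (h1 m) a
    _ = ENNReal.ofReal (Fintype.card M * (ε / c)) := by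
        rw [Finset.sum_const, Finset.card_univ, nsmul_eq_mul, ENNReal.ofReal_mul (by positivity),
          ENNReal.ofReal_natCast]
    _ ≤ ENNReal.ofReal ε := by
        refine ENNReal.ofReal_le_ofReal ?_
        rw [mul_div_assoc', div_le_iff₀ hc0, hc]
        nlinarith

/-- The coefficients of the growth condition. -/
noncomputable def cf (KK : M → Type) [∀ m, Field (KK m)] [∀ m, NumberField (KK m)] (NN : M → ℕ)
    (m : M) : ℝ :=
  1 / (2 * (Fintype.card M + 1) * (CB * (NN m * Module.finrank ℚ (KK m) + 1)))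

lemma cf_pos (m : M) : 0 < cf KK NN m := by
  have := CB_pos
  unfold cf
  positivity

/-- The growth function. -/
noncomputable def GB (KK : M → Type) [∀ m, Field (KK m)] [∀ m, NumberField (KK m)] (NN : M → ℕ)
    (x : M → ℂ) : ℝ := Real.exp (∑ m, cf KK NN m * ‖x m‖)

lemma continuous_GB : Continuous (GB KK NN) := by
  unfold GB
  fun_prop

lemma exists_kappa : ∃ κ : ℝ, 0 < κ ∧ ∀ x : M → ℂ, Real.exp (κ * ‖x‖) ≤ GB KK NN x := by
  rcases isEmpty_or_nonempty M with h | h
  · refine ⟨1, one_pos, fun x => ?_⟩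
    unfold GB
    have : ‖x‖ = 0 := by
      rw [norm_eq_zero]
      exact Subsingleton.elim _ _
    rw [this]
    simp
  · obtain ⟨m₀, -, hm₀⟩ := Finset.exists_min_image Finset.univ (cf KK NN) Finset.univ_nonempty
    refine ⟨cf KK NN m₀, cf_pos m₀, fun x => ?_⟩
    unfold GB
    refine Real.exp_le_exp.2 ?_
    have h1 : ‖x‖ ≤ ∑ m, ‖x m‖ := by
      rw [pi_norm_le_iff_of_nonneg (Finset.sum_nonneg fun m _ => norm_nonneg _)]
      intro m
      exact Finset.single_le_sum (f := fun m => ‖x m‖) (fun m _ => norm_nonneg _)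
        (Finset.mem_univ m)
    calc cf KK NN m₀ * ‖x‖ ≤ cf KK NN m₀ * ∑ m, ‖x m‖ :=
          mul_le_mul_of_nonneg_left h1 (cf_pos m₀).le
      _ = ∑ m, cf KK NN m₀ * ‖x m‖ := Finset.mul_sum _ _ _
      _ ≤ _ := Finset.sum_le_sum fun m hm =>
          mul_le_mul_of_nonneg_right (hm₀ m hm) (norm_nonneg _)

lemma GB_sq_le (x : M → ℂ) : GB KK NN x ^ 2 ≤
    1 + ∑ m, Real.exp (‖x m‖ / (CB * (NN m * Module.finrank ℚ (KK m) + 1))) := by
  have hCB := CB_pos
  have hn : ∀ m, 0 ≤ Real.exp (‖x m‖ / (CB * (NN m * Module.finrank ℚ (KK m) + 1))) := fun m =>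
    (Real.exp_pos _).le
  unfold GB
  rw [← Real.exp_nat_mul]
  rcases isEmpty_or_nonempty M with h | h
  · simp
  · set y : M → ℝ := fun m => ‖x m‖ / (CB * (NN m * Module.finrank ℚ (KK m) + 1)) with hy
    have hy0 : ∀ m, 0 ≤ y m := fun m => by rw [hy]; positivity
    obtain ⟨m₀, -, hm₀⟩ := Finset.exists_max_image Finset.univ y Finset.univ_nonempty
    have h1 : ((2 : ℕ) : ℝ) * ∑ m, cf KK NN m * ‖x m‖ ≤ y m₀ := by
      have h2 : ((2 : ℕ) : ℝ) * ∑ m, cf KK NN m * ‖x m‖ =
          ∑ m, y m / (Fintype.card M + 1) := by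
        rw [Finset.mul_sum]
        refine Finset.sum_congr rfl fun m _ => ?_
        rw [hy]
        unfold cf
        have : (0 : ℝ) < CB * (NN m * Module.finrank ℚ (KK m) + 1) := by positivity
        push_cast
        field_simp
      rw [h2]
      calc ∑ m, y m / (Fintype.card M + 1) ≤ ∑ m : M, y m₀ / (Fintype.card M + 1) :=
            Finset.sum_le_sum fun m hm => div_le_div_of_nonneg_right (hm₀ m hm) (by positivity)
        _ = Fintype.card M * (y m₀ / (Fintype.card M + 1)) := by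
            rw [Finset.sum_const, Finset.card_univ, nsmul_eq_mul]
        _ ≤ y m₀ := by
            rw [mul_div_assoc', div_le_iff₀ (by positivity)]
            have := hy0 m₀
            nlinarith
    calc Real.exp (((2 : ℕ) : ℝ) * ∑ m, cf KK NN m * ‖x m‖) ≤ Real.exp (y m₀) :=
          Real.exp_le_exp.2 h1
      _ ≤ ∑ m, Real.exp (y m) := Finset.single_le_sum (f := fun m => Real.exp (y m))
          (fun m _ => (Real.exp_pos _).le) (Finset.mem_univ m₀)
      _ ≤ _ := by linarith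

lemma GB_mean (hα : ∀ m, Wt (SS m) (ii m) (αα m)) (a b : ℝ) (hab : 1 ≤ b - a) :
    ∫⁻ t in Set.Ioc a b, ENNReal.ofReal (GB KK NN (LB SS ii αα t) ^ 2) ≤
      ENNReal.ofReal ((1 + 2 * Fintype.card M) * (b - a)) := by
  have hm : ∀ m, AEMeasurable (fun t => ENNReal.ofReal (Real.exp (‖logB (SS m) (ii m) (αα m) t‖ /
      (CB * (NN m * Module.finrank ℚ (KK m) + 1))))) (volume.restrict (Set.Ioc a b)) := fun m =>
    ENNReal.measurable_ofReal.comp_aemeasurable (Real.measurable_exp.comp_aemeasurable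
      ((aemeasurable_logB (hα m)).restrict.norm.div_const _))
  calc ∫⁻ t in Set.Ioc a b, ENNReal.ofReal (GB KK NN (LB SS ii αα t) ^ 2)
      ≤ ∫⁻ t in Set.Ioc a b, (1 + ∑ m, ENNReal.ofReal
          (Real.exp (‖logB (SS m) (ii m) (αα m) t‖ /
            (CB * (NN m * Module.finrank ℚ (KK m) + 1))))) := by
        refine lintegral_mono fun t => ?_
        rw [← ENNReal.ofReal_sum_of_nonneg fun m _ => (Real.exp_pos _).le, ← ENNReal.ofReal_one,
          ← ENNReal.ofReal_add zero_le_one (Finset.sum_nonneg fun m _ => (Real.exp_pos _).le)]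
        exact ENNReal.ofReal_le_ofReal (GB_sq_le _)
    _ = ENNReal.ofReal (b - a) + ∑ m, ∫⁻ t in Set.Ioc a b, ENNReal.ofReal
          (Real.exp (‖logB (SS m) (ii m) (αα m) t‖ /
            (CB * (NN m * Module.finrank ℚ (KK m) + 1)))) := by
        rw [lintegral_add_left measurable_const, lintegral_finsetSum' _ fun m _ => hm m,
          lintegral_const, Measure.restrict_apply MeasurableSet.univ, Set.univ_inter,
          Real.volume_Ioc, one_mul]
    _ ≤ ENNReal.ofReal (b - a) + ∑ m : M, ENNReal.ofReal (2 * (b - a)) := by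
        gcongr with m
        exact osc_one (hα m) hab
    _ = _ := by
        rw [Finset.sum_const, Finset.card_univ, nsmul_eq_mul, ← ENNReal.ofReal_natCast,
          ← ENNReal.ofReal_mul (by positivity), ← ENNReal.ofReal_add (by linarith)
            (mul_nonneg (Nat.cast_nonneg _) (by linarith))]
        congr 1
        ring

/-- **The joint limiting distribution.** -/
theorem joint (hα : ∀ m, Wt (SS m) (ii m) (αα m)) :
    ∃ W : Om → (M → ℂ), MemLp W 2 tor ∧
      Tendsto (fun Y => ∫ z, ‖W z - PB SS ii αα Y z‖ ^ 2 ∂tor) atTop (𝓝 0) ∧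
      ∀ (φ : (M → ℂ) → ℂ) (A : ℝ), Continuous φ → (∀ x, ‖φ x‖ ≤ A * GB KK NN x) →
        (∀ a b : ℝ, IntegrableOn (fun t => φ (LB SS ii αα t)) (Set.Ioc a b)) ∧
        Integrable (fun z => φ (W z)) tor ∧
        ∀ ε : ℝ, 0 < ε → ∃ T : ℝ, 1 ≤ T ∧ ∀ a b : ℝ, T ≤ b - a →
          ‖mab (fun t => φ (LB SS ii αα t)) a b - ∫ z, φ (W z) ∂tor‖ ≤ ε := by
  have hL := aesm_LB hα
  have hP := continuous_PB hα
  have hS := step_LB hα
  obtain ⟨W, hW, hWP⟩ := exists_W hP (cauchy_P hL hP hS)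
  obtain ⟨κ, hκ, hGκ⟩ := exists_kappa (M := M) (KK := KK) (NN := NN)
  refine ⟨W, hW, hWP, fun φ A hφ hA => ?_⟩
  exact conv hL hP hS hW hWP continuous_GB hκ hGκ (C := 1 + 2 * Fintype.card M) (by positivity)
    (GB_mean hα) hφ hA

end family

end Run7.h522.BM
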