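import Pool.Agent.Run7.h522.BM.Rel
import Pool.Agent.Run7.h522.BM.Torus

/-!
# Relations at infinity between the boundary values
-/

set_option autoImplicit false

namespace Run7.h522.BM

open NumberField IsDedekindDomain Filter Topology Pool.Agent.H921R2.TatePole
  Pool.Agent.W350.Edge Pool.Agent.W350.EdgeV Pool.Agent.W350.EdgeNF Pool.Agent.TH958.BV
  MeasureTheory Pool.Agent.Helper873.Mean Pool.Agent.Helper873.OneVar
  Pool.Agent.Helper873.Product Metric
open scoped ENNReal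

section one

variable {K : Type} [Field K] [NumberField K] {i N : ℕ} {S : Set (HeightOneSpectrum (𝓞 K))}
  {α : HeightOneSpectrum (𝓞 K) → Fin N → ℂ}

/-- The number of the prime below `v`. -/
noncomputable def idx (v : HeightOneSpectrum (𝓞 K)) : ℕ := Nat.count Nat.Prime (below v : ℕ)

lemma nth_idx (v : HeightOneSpectrum (𝓞 K)) : Nat.nth Nat.Prime (idx v) = (below v : ℕ) :=
  Nat.nth_count (below v).2

/-- The `k`-th prime. -/
noncomputable def pk (k : ℕ) : Nat.Primes := ⟨Nat.nth Nat.Prime k, Nat.prime_nth_prime k⟩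

/-- The places above the `k`-th prime. -/
noncomputable def Vk (K : Type) [Field K] [NumberField K] (k : ℕ) :
    Finset (HeightOneSpectrum (𝓞 K)) :=
  (Finset.univ : Finset {v : HeightOneSpectrum (𝓞 K) // below v = pk k}).map
      (Function.Embedding.subtype _)

lemma mem_Vk {k : ℕ} {v : HeightOneSpectrum (𝓞 K)} : v ∈ Vk K k ↔ idx v = k := by
  unfold Vk
  rw [Finset.mem_map]
  constructor
  · rintro ⟨w, -, rfl⟩
    have h1 := w.2
    have h2 : (below w.1 : ℕ) = Nat.nth Nat.Prime k := congrArg Subtype.val h1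
    show idx w.1 = k
    unfold idx
    rw [h2, Nat.count_nth_of_infinite Nat.infinite_setOfPred_prime]
  · intro h
    refine ⟨⟨v, ?_⟩, Finset.mem_univ _, rfl⟩
    refine Subtype.ext ?_
    show (below v : ℕ) = Nat.nth Nat.Prime k
    rw [← h, nth_idx]

lemma card_Vk (k : ℕ) : (Vk K k).card ≤ Module.finrank ℚ K := by
  unfold Vk
  rw [Finset.card_map, Finset.card_univ]
  exact fiber_card_le (K := K) _

/-- The places above the first `n` primes. -/
noncomputable def FK (K : Type) [Field K] [NumberField K] (n : ℕ) :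
    Finset (HeightOneSpectrum (𝓞 K)) := by
  classical
  exact (Finset.range n).biUnion (Vk K)

lemma mem_FK {n : ℕ} {v : HeightOneSpectrum (𝓞 K)} : v ∈ FK K n ↔ idx v < n := by
  classical
  unfold FK
  rw [Finset.mem_biUnion]
  constructor
  · rintro ⟨k, hk, hv⟩
    rw [mem_Vk.1 hv]
    exact Finset.mem_range.1 hk
  · intro h
    exact ⟨idx v, Finset.mem_range.2 h, mem_Vk.2 rfl⟩

lemma sum_FK {R : Type*} [AddCommMonoid R] (g : HeightOneSpectrum (𝓞 K) → R) (n : ℕ) :
    ∑ v ∈ FK K n, g v = ∑ k ∈ Finset.range n, ∑ v ∈ Vk K k, g v := by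
  classical
  unfold FK
  rw [Finset.sum_biUnion]
  intro k _ l _ hkl
  rw [Function.onFun, Finset.disjoint_left]
  intro v hv hv'
  exact hkl ((mem_Vk.1 hv).symm.trans (mem_Vk.1 hv'))

lemma tendsto_FK : Tendsto (FK K) atTop atTop := by
  refine tendsto_atTop_finset_of_monotone (fun x y hxy v hv => ?_) fun v => ?_
  · rw [mem_FK] at hv ⊢
    omega
  · exact ⟨idx v + 1, by rw [mem_FK]; omega⟩

open Classical in
/-- The logarithm of the Euler factor at `v` as a function of `x = p^{-s}`, normalised. -/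
noncomputable def gl (S : Set (HeightOneSpectrum (𝓞 K))) (i : ℕ)
    (α : HeightOneSpectrum (𝓞 K) → Fin N → ℂ) (v : HeightOneSpectrum (𝓞 K)) (x : ℂ) : ℂ :=
  if v ∈ S then 0 else ∑ j, -Complex.log (1 - α v j *
    (Ideal.absNorm v.asIdeal : ℂ) ^ (-(((i : ℝ) / 2 + 1 : ℝ) : ℂ)) * x ^ deg v)

lemma wv_eq (v : HeightOneSpectrum (𝓞 K)) (z : Om) : wv S i α v z = gl S i α v (zet (z (idx v))) := by
  unfold wv gl
  split_ifs with h
  · rfl
  · have h1 : steinhaus z (Ideal.absNorm v.asIdeal) = zet (z (idx v)) ^ deg v := by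
      have h2 : Ideal.absNorm v.asIdeal = (below v : ℕ) ^ deg v := (nm_eq v).1
      rw [h2, steinhaus_pow z (below v).2]
      rfl
    rw [h1]

lemma norm_coeff (hα : Wt S i α) {v : HeightOneSpectrum (𝓞 K)} (h : v ∉ S) (j : Fin N) :
    ‖α v j * (Ideal.absNorm v.asIdeal : ℂ) ^ (-(((i : ℝ) / 2 + 1 : ℝ) : ℂ))‖ =
      1 / (nm v : ℝ) := by
  have h2 := two_le_nm v
  have h2' : (2 : ℝ) ≤ nm v := by exact_mod_cast h2
  have h0 : (0 : ℝ) < nm v := by linarith
  rw [norm_mul, hα v h j]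
  have h3 : ‖(Ideal.absNorm v.asIdeal : ℂ) ^ (-(((i : ℝ) / 2 + 1 : ℝ) : ℂ))‖ =
      (nm v : ℝ) ^ (-((i : ℝ) / 2 + 1)) := by
    have h4 := Complex.norm_natCast_cpow_of_pos (n := nm v) (by omega)
      (-(((i : ℝ) / 2 + 1 : ℝ) : ℂ))
    rw [Complex.neg_re, Complex.ofReal_re] at h4
    exact h4
  rw [h3, ← Real.rpow_add h0]
  have h5 : (i : ℝ) / 2 + -((i : ℝ) / 2 + 1) = -1 := by ring
  rw [h5, Real.rpow_neg_one, one_div]

lemma norm_arg2 (hα : Wt S i α) {v : HeightOneSpectrum (𝓞 K)} (h : v ∉ S) (j : Fin N) {x : ℂ}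
    (hx : ‖x‖ < 3 / 2) : ‖α v j * (Ideal.absNorm v.asIdeal : ℂ) ^
      (-(((i : ℝ) / 2 + 1 : ℝ) : ℂ)) * x ^ deg v‖ < 1 := by
  obtain ⟨h1, h2, -⟩ := nm_eq v
  have hp : (2 : ℝ) ≤ ((below v : ℕ) : ℝ) := by exact_mod_cast (below v).2.two_le
  rw [norm_mul, norm_coeff hα h, norm_pow, h1]
  push_cast
  rw [← one_div_pow, ← mul_pow]
  refine pow_lt_one₀ (by positivity) ?_ h2.ne'
  calc 1 / ((below v : ℕ) : ℝ) * ‖x‖ ≤ 1 / 2 * ‖x‖ := by gcongr
    _ < 1 := by linarith

lemma diff_gl (hα : Wt S i α) (v : HeightOneSpectrum (𝓞 K)) :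
    DifferentiableOn ℂ (gl S i α v) (ball 0 (3 / 2)) := by
  unfold gl
  split_ifs with h
  · exact differentiableOn_const _
  · refine DifferentiableOn.fun_sum fun j _ => DifferentiableOn.neg ?_
    refine DifferentiableOn.clog ?_ fun x hx => ?_
    · exact (Differentiable.differentiableOn (by fun_prop))
    · rw [mem_ball_zero_iff] at hx
      have h1 := norm_arg2 hα h j hx
      set w := α v j * (Ideal.absNorm v.asIdeal : ℂ) ^ (-(((i : ℝ) / 2 + 1 : ℝ) : ℂ)) *
        x ^ deg v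
      left
      rw [Complex.sub_re, Complex.one_re]
      linarith [(le_abs_self _).trans (Complex.abs_re_le_norm w)]

lemma gl_zero (v : HeightOneSpectrum (𝓞 K)) : gl S i α v 0 = 0 := by
  unfold gl
  split_ifs with h
  · rfl
  · refine Finset.sum_eq_zero fun j _ => ?_
    rw [zero_pow (nm_eq v).2.1.ne', mul_zero, sub_zero, Complex.log_one, neg_zero]

lemma norm_gl (hα : Wt S i α) (v : HeightOneSpectrum (𝓞 K)) {x : ℂ} (hx : ‖x‖ ≤ 1) :
    ‖gl S i α v x‖ ≤ 3 / 2 * N * (1 / (nm v : ℝ)) * ‖x‖ := by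
  have h2' : (2 : ℝ) ≤ nm v := by exact_mod_cast two_le_nm v
  unfold gl
  split_ifs with h
  · rw [norm_zero]
    positivity
  · have h1 : ∀ j ∈ (Finset.univ : Finset (Fin N)), ‖-Complex.log (1 - α v j *
        (Ideal.absNorm v.asIdeal : ℂ) ^ (-(((i : ℝ) / 2 + 1 : ℝ) : ℂ)) * x ^ deg v)‖ ≤
          3 / 2 * (1 / (nm v : ℝ) * ‖x‖) := by
      intro j _
      have hw : ‖α v j * (Ideal.absNorm v.asIdeal : ℂ) ^ (-(((i : ℝ) / 2 + 1 : ℝ) : ℂ)) *
          x ^ deg v‖ ≤ 1 / (nm v : ℝ) * ‖x‖ := by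
        rw [norm_mul, norm_coeff hα h, norm_pow]
        gcongr
        exact pow_le_of_le_one (norm_nonneg _) hx (nm_eq v).2.1.ne'
      have hw2 : 1 / (nm v : ℝ) * ‖x‖ ≤ 1 / 2 := by
        calc 1 / (nm v : ℝ) * ‖x‖ ≤ 1 / 2 * 1 := by gcongr
          _ = 1 / 2 := by norm_num
      rw [norm_neg, sub_eq_add_neg]
      refine (Complex.norm_log_one_add_half_le_self (by
        rw [norm_neg]
        exact hw.trans hw2)).trans ?_
      rw [norm_neg]
      linarith
    refine (norm_sum_le_of_le _ h1).trans (le_of_eq ?_)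
    rw [Finset.sum_const, Finset.card_univ, Fintype.card_fin, nsmul_eq_mul]
    ring

/-- The term of the `k`-th prime. -/
noncomputable def fK (S : Set (HeightOneSpectrum (𝓞 K))) (i : ℕ)
    (α : HeightOneSpectrum (𝓞 K) → Fin N → ℂ) (k : ℕ) (x : ℂ) : ℂ :=
  ∑ v ∈ Vk K k, gl S i α v x

lemma diff_fK (hα : Wt S i α) (k : ℕ) : DifferentiableOn ℂ (fK S i α k) (ball 0 (3 / 2)) :=
  DifferentiableOn.fun_sum fun v _ => diff_gl hα v

lemma fK_zero (k : ℕ) : fK S i α k 0 = 0 := Finset.sum_eq_zero fun v _ => gl_zero v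

lemma norm_fK (hα : Wt S i α) (k : ℕ) {x : ℂ} (hx : ‖x‖ ≤ 1) :
    ‖fK S i α k x‖ ≤ 3 / 2 * (N * Module.finrank ℚ K) *
      (1 / (Nat.nth Nat.Prime k : ℝ)) * ‖x‖ := by
  have hp : (2 : ℝ) ≤ (Nat.nth Nat.Prime k : ℝ) := by
    exact_mod_cast (Nat.prime_nth_prime k).two_le
  have h1 : ∀ v ∈ Vk K k, ‖gl S i α v x‖ ≤
      3 / 2 * N * (1 / (Nat.nth Nat.Prime k : ℝ)) * ‖x‖ := by
    intro v hv
    refine (norm_gl hα v hx).trans ?_
    have h2 : Nat.nth Nat.Prime k ≤ nm v := by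
      rw [← mem_Vk.1 hv, nth_idx, (nm_eq v).1]
      exact Nat.le_self_pow (nm_eq v).2.1.ne' _
    have h3 : (Nat.nth Nat.Prime k : ℝ) ≤ nm v := by exact_mod_cast h2
    gcongr
  refine (norm_sum_le_of_le _ h1).trans ?_
  rw [Finset.sum_const, nsmul_eq_mul]
  have h2 : ((Vk K k).card : ℝ) ≤ Module.finrank ℚ K := by exact_mod_cast card_Vk (K := K) k
  calc ((Vk K k).card : ℝ) * (3 / 2 * N * (1 / (Nat.nth Nat.Prime k : ℝ)) * ‖x‖)
      ≤ Module.finrank ℚ K * (3 / 2 * N * (1 / (Nat.nth Nat.Prime k : ℝ)) * ‖x‖) := by gcongr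
    _ = _ := by ring

lemma sum_fK (n : ℕ) (z : Om) :
    ∑ k ∈ Finset.range n, fK S i α k (zet (z k)) = ∑ v ∈ FK K n, wv S i α v z := by
  rw [sum_FK]
  refine Finset.sum_congr rfl fun k _ => ?_
  unfold fK
  refine Finset.sum_congr rfl fun v hv => ?_
  rw [wv_eq, mem_Vk.1 hv]

/-- The two orders of summation. -/
lemma compare (hα : Wt S i α) (n : ℕ) (z : Om) :
    ‖PY S i α (Nat.nth Nat.Prime n) z - ∑ k ∈ Finset.range n, fK S i α k (zet (z k))‖ ≤
      3 / 2 * N * ∑' v : {v : HeightOneSpectrum (𝓞 K) // v ∉ FV nm hfin (Nat.nth Nat.Prime n)},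
        ((below v.1 : ℕ) : ℝ) ^ (-(2 : ℝ)) := by
  classical
  rw [sum_fK]
  unfold PY
  have hsub : FV nm hfin (Nat.nth Nat.Prime n) ⊆ FK K n := by
    intro v hv
    rw [mem_FV] at hv
    rw [mem_FK]
    have h1 : (below v : ℕ) ≤ nm v := by
      rw [(nm_eq v).1]
      exact Nat.le_self_pow (nm_eq v).2.1.ne' _
    have h2 : Nat.nth Nat.Prime (idx v) < Nat.nth Nat.Prime n := by
      rw [nth_idx]
      omega
    exact (Nat.nth_lt_nth Nat.infinite_setOfPred_prime).1 h2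
  rw [← Finset.sum_sdiff hsub, sub_add_cancel_right, norm_neg]
  have h1 : ∀ v ∈ FK K n \ FV nm hfin (Nat.nth Nat.Prime n), ‖wv S i α v z‖ ≤
      3 / 2 * N * ((below v : ℕ) : ℝ) ^ (-(2 : ℝ)) := by
    intro v hv
    rw [Finset.mem_sdiff, mem_FK, mem_FV, not_lt] at hv
    have h2 : Nat.nth Nat.Prime (idx v) < Nat.nth Nat.Prime n :=
      (Nat.nth_lt_nth Nat.infinite_setOfPred_prime).2 hv.1
    rw [nth_idx] at h2
    have h3 : ¬ (nm v).Prime := by
      intro h4
      have h5 := (nm_eq v).1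
      have h6 : deg v = 1 := by
        rw [h5] at h4
        exact h4.eq_one_of_pow
      rw [h6, pow_one] at h5
      omega
    have h4 := low_le v
    rw [if_neg h3] at h4
    rw [wv_eq]
    refine (norm_gl hα v (norm_zet _).le).trans ?_
    rw [norm_zet, mul_one]
    gcongr
  refine (norm_sum_le_of_le _ h1).trans ?_
  rw [← Finset.mul_sum]
  gcongr
  have hsb : Summable fun v : {v : HeightOneSpectrum (𝓞 K) //
      v ∉ FV nm hfin (Nat.nth Nat.Prime n)} => ((below v.1 : ℕ) : ℝ) ^ (-(2 : ℝ)) :=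
    (below_sq_summable (K := K)).comp_injective Subtype.val_injective
  have h2 := hsb.sum_le_tsum ((FK K n \ FV nm hfin (Nat.nth Nat.Prime n)).subtype
    fun v => v ∉ FV nm hfin (Nat.nth Nat.Prime n)) fun v _ => by positivity
  refine le_trans (le_of_eq ?_) h2
  rw [Finset.sum_subtype_of_mem (fun v : HeightOneSpectrum (𝓞 K) =>
    ((below v : ℕ) : ℝ) ^ (-(2 : ℝ))) fun v hv => (Finset.mem_sdiff.1 hv).2]

/-- The radius of the `k`-th circle. -/
noncomputable def rad (y : ℝ) (k : ℕ) : ℝ := (Nat.nth Nat.Prime k : ℝ) ^ (-y)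

lemma two_le_nth (k : ℕ) : (2 : ℝ) ≤ (Nat.nth Nat.Prime k : ℝ) := by
  exact_mod_cast (Nat.prime_nth_prime k).two_le

lemma rad_nonneg (y : ℝ) (k : ℕ) : 0 ≤ rad y k := Real.rpow_nonneg (Nat.cast_nonneg _) _

lemma rad_le_one {y : ℝ} (hy : 0 ≤ y) (k : ℕ) : rad y k ≤ 1 := by
  have := two_le_nth k
  exact Real.rpow_le_one_of_one_le_of_nonpos (by linarith) (by linarith)

lemma gl_height (v : HeightOneSpectrum (𝓞 K)) (y τ : ℝ) :
    gl S i α v (rad y (idx v) * zet (zt τ (idx v))) = lv S α v (se i τ + y) := by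
  have h1 : (rad y (idx v) : ℂ) * zet (zt τ (idx v)) =
      ((below v : ℕ) : ℂ) ^ (-((y : ℂ) + τ * Complex.I)) := by
    have h2 : zet (zt τ (idx v)) = ((below v : ℕ) : ℂ) ^ (-(τ * Complex.I)) :=
      xi_zt τ (below v).2
    have h3 : (rad y (idx v) : ℂ) = ((below v : ℕ) : ℂ) ^ (-(y : ℂ)) := by
      unfold rad
      rw [nth_idx, Complex.ofReal_cpow (Nat.cast_nonneg _)]
      push_cast
      rfl
    have h4 : ((below v : ℕ) : ℂ) ≠ 0 := by exact_mod_cast (below v).2.ne_zero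
    rw [h2, h3, ← Complex.cpow_add _ _ h4]
    congr 1
    ring
  unfold gl lv
  split_ifs with h
  · rfl
  · refine Finset.sum_congr rfl fun j _ => ?_
    have h3 : (Ideal.absNorm v.asIdeal : ℂ) ≠ 0 := by
      have : Ideal.absNorm v.asIdeal ≠ 0 := nm_ne_zero v
      exact_mod_cast this
    have h4 : ((rad y (idx v) : ℂ) * zet (zt τ (idx v))) ^ deg v =
        (Ideal.absNorm v.asIdeal : ℂ) ^ (-((y : ℂ) + τ * Complex.I)) := by
      have h5 : Ideal.absNorm v.asIdeal = (below v : ℕ) ^ deg v := (nm_eq v).1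
      rw [h1, ← Complex.cpow_nat_mul, Complex.natCast_cpow_natCast_mul, h5]
      push_cast
      rfl
    rw [h4, mul_assoc, ← Complex.cpow_add _ _ h3]
    congr 5
    unfold se
    ring

lemma summable_rad {y : ℝ} (hy : 0 < y) :
    Summable fun k : ℕ => (1 / (Nat.nth Nat.Prime k : ℝ)) * rad y k := by
  have h1 : Summable fun n : ℕ => (n : ℝ) ^ (-(1 + y)) := by
    rw [Real.summable_nat_rpow]
    linarith
  have h2 := h1.comp_injective (Nat.nth_injective Nat.infinite_setOfPred_prime)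
  refine h2.congr fun k => ?_
  have h3 := two_le_nth k
  simp only [Function.comp_apply]
  unfold rad
  rw [neg_add, Real.rpow_add (by linarith), Real.rpow_neg_one, one_div]

lemma norm_fK_rad (hα : Wt S i α) {y : ℝ} (hy : 0 < y) (k : ℕ) {x : ℂ} (hx : ‖x‖ ≤ 1) :
    ‖fK S i α k (rad y k * x)‖ ≤ 3 / 2 * (N * Module.finrank ℚ K) *
      ((1 / (Nat.nth Nat.Prime k : ℝ)) * rad y k) := by
  have h0 := rad_nonneg y k
  have h1 : ‖(rad y k : ℂ) * x‖ ≤ rad y k := by
    rw [norm_mul, Complex.norm_real, Real.norm_of_nonneg h0]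
    exact mul_le_of_le_one_right h0 hx
  have h2 := norm_fK hα k (x := rad y k * x) (h1.trans (rad_le_one hy.le k))
  refine h2.trans ?_
  have hp := two_le_nth k
  calc 3 / 2 * (N * Module.finrank ℚ K) * (1 / (Nat.nth Nat.Prime k : ℝ)) * ‖(rad y k : ℂ) * x‖
      ≤ 3 / 2 * (N * Module.finrank ℚ K) * (1 / (Nat.nth Nat.Prime k : ℝ)) * rad y k := by
        gcongr
    _ = _ := by ring

/-- The value at the height `y` above the edge. -/
lemma tsum_height (hα : Wt S i α) {y : ℝ} (hy : 0 < y) (τ : ℝ) :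
    ∑' k, fK S i α k (rad y k * zet (zt τ k)) = logL S α (se i τ + y) := by
  have hs : Summable fun k => fK S i α k (rad y k * zet (zt τ k)) :=
    Summable.of_norm_bounded
      ((summable_rad hy).mul_left (3 / 2 * (N * Module.finrank ℚ K : ℝ)))
      fun k => norm_fK_rad hα hy k (norm_zet _).le
  have hre : (i : ℝ) / 2 + 1 < (se i τ + (y : ℂ)).re := by
    rw [Complex.add_re, se_re, Complex.ofReal_re]
    linarith
  have h1 := hs.hasSum.tendsto_sum_nat
  have h2 := (summable_lv hα hre).hasSum.comp (tendsto_FK (K := K))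
  refine tendsto_nhds_unique h1 (h2.congr fun n => ?_)
  simp only [Function.comp_apply]
  rw [sum_FK]
  refine Finset.sum_congr rfl fun k _ => ?_
  unfold fK
  refine Finset.sum_congr rfl fun v hv => ?_
  rw [← gl_height, mem_Vk.1 hv]

end one

section family

variable {M : Type} [Fintype M] {KK : M → Type} [∀ m, Field (KK m)] [∀ m, NumberField (KK m)]
  {ii NN : M → ℕ} {SS : ∀ m, Set (HeightOneSpectrum (𝓞 (KK m)))}
  {αα : ∀ m, HeightOneSpectrum (𝓞 (KK m)) → Fin (NN m) → ℂ}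

/-- The terms of the `k`-th prime. -/
noncomputable def ff (SS : ∀ m, Set (HeightOneSpectrum (𝓞 (KK m)))) (ii : M → ℕ)
    (αα : ∀ m, HeightOneSpectrum (𝓞 (KK m)) → Fin (NN m) → ℂ) (k : ℕ) (x : ℂ) : M → ℂ :=
  fun m => fK (SS m) (ii m) (αα m) k x

lemma diff_ff (hα : ∀ m, Wt (SS m) (ii m) (αα m)) (k : ℕ) :
    DifferentiableOn ℂ (ff SS ii αα k) (ball 0 (3 / 2)) :=
  differentiableOn_pi.2 fun m => diff_fK (hα m) k

lemma QQ_ff (n : ℕ) (z : Om) (m : M) : QQ (ff SS ii αα) n z m =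
    ∑ k ∈ Finset.range n, fK (SS m) (ii m) (αα m) k (zet (z k)) := by
  unfold QQ ff
  rw [Finset.sum_apply]

/-- The limit in mean square along the first `n` primes. -/
lemma QQ_tendsto (hα : ∀ m, Wt (SS m) (ii m) (αα m)) {W : Om → M → ℂ} (hW : MemLp W 2 tor)
    (hWP : Tendsto (fun Y => ∫ z, ‖W z - PB SS ii αα Y z‖ ^ 2 ∂tor) atTop (𝓝 0)) :
    Tendsto (fun n => ∫ z, ‖W z - QQ (ff SS ii αα) n z‖ ^ 2 ∂tor) atTop (𝓝 0) := by
  have hp : Tendsto (fun n => Nat.nth Nat.Prime n) atTop atTop :=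
    (Nat.nth_strictMono Nat.infinite_setOfPred_prime).tendsto_atTop
  set δ : ℕ → ℝ := fun n => ∑ m, 3 / 2 * (NN m : ℝ) *
    ∑' v : {v : HeightOneSpectrum (𝓞 (KK m)) // v ∉ FV nm hfin (Nat.nth Nat.Prime n)},
        ((below v.1 : ℕ) : ℝ) ^ (-(2 : ℝ)) with hδ
  have hδ0 : Tendsto δ atTop (𝓝 0) := by
    have h1 : ∀ m, Tendsto (fun n => 3 / 2 * (NN m : ℝ) *
        ∑' v : {v : HeightOneSpectrum (𝓞 (KK m)) // v ∉ FV nm hfin (Nat.nth Nat.Prime n)},
        ((below v.1 : ℕ) : ℝ) ^ (-(2 : ℝ))) atTop (𝓝 0) := by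
      intro m
      have h := tendsto_tsum_compl_atTop_zero
        (fun v : HeightOneSpectrum (𝓞 (KK m)) => ((below v : ℕ) : ℝ) ^ (-(2 : ℝ)))
      have h2 := (h.comp ((tendsto_FV (hfin (K := KK m))).comp hp)).const_mul
        (3 / 2 * (NN m : ℝ))
      rw [mul_zero] at h2
      exact h2
    have h2 := tendsto_finsetSum Finset.univ fun m _ => h1 m
    rw [Finset.sum_const_zero] at h2
    exact h2
  have hcomp : ∀ n z, ‖PB SS ii αα (Nat.nth Nat.Prime n) z - QQ (ff SS ii αα) n z‖ ≤ δ n := by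
    intro n z
    have h0 : ∀ m, 0 ≤ 3 / 2 * (NN m : ℝ) *
        ∑' v : {v : HeightOneSpectrum (𝓞 (KK m)) // v ∉ FV nm hfin (Nat.nth Nat.Prime n)},
        ((below v.1 : ℕ) : ℝ) ^ (-(2 : ℝ)) := fun m =>
      mul_nonneg (by positivity) (tsum_nonneg fun v => by positivity)
    rw [pi_norm_le_iff_of_nonneg (Finset.sum_nonneg fun m _ => h0 m)]
    intro m
    rw [Pi.sub_apply, QQ_ff]
    refine (compare (hα m) n z).trans ?_
    exact Finset.single_le_sum (f := fun m => 3 / 2 * (NN m : ℝ) *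
        ∑' v : {v : HeightOneSpectrum (𝓞 (KK m)) // v ∉ FV nm hfin (Nat.nth Nat.Prime n)},
        ((below v.1 : ℕ) : ℝ) ^ (-(2 : ℝ))) (fun m _ => h0 m) (Finset.mem_univ m)
  have hlim : Tendsto (fun n => 2 * ∫ z, ‖W z - PB SS ii αα (Nat.nth Nat.Prime n) z‖ ^ 2 ∂tor +
      2 * δ n ^ 2) atTop (𝓝 0) := by
    have h1 := ((hWP.comp hp).const_mul 2).add ((hδ0.pow 2).const_mul 2)
    simp only [mul_zero, ne_eq, OfNat.ofNat_ne_zero, not_false_eq_true, zero_pow, add_zero] at h1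
    exact h1
  refine squeeze_zero (fun n => integral_nonneg fun z => by positivity) (fun n => ?_) hlim
  have hm1 := memLp_two (continuous_PB hα (Nat.nth Nat.Prime n))
  have hm2 := memLp_two (continuous_QQ (cont_f (diff_ff hα)) n)
  have hi1 : Integrable (fun z => ‖W z - QQ (ff SS ii αα) n z‖ ^ 2) tor := by
    have h3 := (hW.sub hm2).integrable_norm_pow two_ne_zero
    simpa using h3
  have hi2 : Integrable (fun z => ‖W z - PB SS ii αα (Nat.nth Nat.Prime n) z‖ ^ 2) tor := by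
    have h3 := (hW.sub hm1).integrable_norm_pow two_ne_zero
    simpa using h3
  calc ∫ z, ‖W z - QQ (ff SS ii αα) n z‖ ^ 2 ∂tor
      ≤ ∫ z, (2 * ‖W z - PB SS ii αα (Nat.nth Nat.Prime n) z‖ ^ 2 + 2 * δ n ^ 2) ∂tor := by
        refine integral_mono hi1 ((hi2.const_mul 2).add (integrable_const _)) fun z => ?_
        have h1 := sq_add_le (W z - PB SS ii αα (Nat.nth Nat.Prime n) z)
          (QQ (ff SS ii αα) n z - PB SS ii αα (Nat.nth Nat.Prime n) z)
        have h2 : ‖QQ (ff SS ii αα) n z - PB SS ii αα (Nat.nth Nat.Prime n) z‖ ^ 2 ≤ δ n ^ 2 := by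
          rw [norm_sub_rev]
          exact pow_le_pow_left₀ (norm_nonneg _) (hcomp n z) 2
        rw [sub_sub_sub_cancel_right] at h1
        simp only
        linarith
    _ = _ := by
        rw [integral_add (hi2.const_mul 2) (integrable_const _), integral_const_mul]
        simp

/-- A function tends to zero in density along arbitrarily long intervals. -/
def DensityZero (g : ℝ → ℝ) : Prop :=
  ∀ η : ℝ, 0 < η → ∀ T : ℝ, ∃ a b : ℝ, T ≤ b - a ∧
    volume {τ ∈ Set.Ioc a b | η < g τ} ≤ ENNReal.ofReal (η * (b - a))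

lemma dens_zero {W : Om → M → ℂ} (hW : MemLp W 2 tor)
    (hL : AEStronglyMeasurable (LB SS ii αα) volume)
    (hconv : ∀ (φ : (M → ℂ) → ℂ) (A : ℝ), Continuous φ → (∀ x, ‖φ x‖ ≤ A * GB KK NN x) →
        (∀ a b : ℝ, IntegrableOn (fun t => φ (LB SS ii αα t)) (Set.Ioc a b)) ∧
        Integrable (fun z => φ (W z)) tor ∧
        ∀ ε : ℝ, 0 < ε → ∃ T : ℝ, 1 ≤ T ∧ ∀ a b : ℝ, T ≤ b - a →
          ‖mab (fun t => φ (LB SS ii αα t)) a b - ∫ z, φ (W z) ∂tor‖ ≤ ε)
    (Ψ : (M → ℂ) → ℝ) (hΨ : Continuous Ψ) (hΨ0 : ∀ x, 0 ≤ Ψ x)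
    (h : DensityZero fun τ => Ψ (LB SS ii αα τ)) : ∀ᵐ z ∂tor, Ψ (W z) = 0 := by
  obtain ⟨κ, hκ, hGκ⟩ := exists_kappa (M := M) (KK := KK) (NN := NN)
  set ψ : (M → ℂ) → ℝ := fun x => min 1 (Ψ x) with hψ
  have hψc : Continuous ψ := continuous_const.min hΨ
  have hψ0 : ∀ x, 0 ≤ ψ x := fun x => le_min zero_le_one (hΨ0 x)
  have hψ1 : ∀ x, ψ x ≤ 1 := fun x => min_le_left _ _
  obtain ⟨h1, h2, h3⟩ := hconv (fun x => ((ψ x : ℝ) : ℂ)) 1 (Complex.continuous_ofReal.comp hψc)
    (fun x => by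
      rw [Complex.norm_real, Real.norm_of_nonneg (hψ0 x), one_mul]
      exact (hψ1 x).trans (one_le_G hκ hGκ x))
  have hint : Integrable (fun z => ψ (W z)) tor :=
    (MemLp.of_bound (p := 1) (C := 1) (hψc.comp_aestronglyMeasurable hW.1)
      (ae_of_all _ fun z => by
        rw [Real.norm_of_nonneg (hψ0 _)]
        exact hψ1 _)).integrable le_rfl
  have hle : ∫ z, ψ (W z) ∂tor ≤ 0 := by
    refine le_of_forall_pos_le_add fun ε hε => ?_
    obtain ⟨T, hT, h4⟩ := h3 (ε / 3) (by positivity)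
    obtain ⟨a, b, hab, h5⟩ := h (ε / 3) (by positivity) T
    have hab1 : 1 ≤ b - a := hT.trans hab
    have h6 := h4 a b hab
    rw [mab_eq (by linarith), integral_complex_ofReal, integral_complex_ofReal,
      ← Complex.ofReal_mul, ← Complex.ofReal_sub, Complex.norm_real, Real.norm_eq_abs] at h6
    have h7 : ∫ t in Set.Ioc a b, ψ (LB SS ii αα t) ≤ 2 * (ε / 3) * (b - a) := by
      have hm : NullMeasurableSet {τ ∈ Set.Ioc a b | ε / 3 < Ψ (LB SS ii αα τ)} volume := by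
        have h8 : NullMeasurableSet {τ | ε / 3 < Ψ (LB SS ii αα τ)} volume :=
          nullMeasurableSet_lt aemeasurable_const
            (hΨ.comp_aestronglyMeasurable hL).aemeasurable
        exact measurableSet_Ioc.nullMeasurableSet.inter h8
      have h9 : ∫⁻ t in Set.Ioc a b, ENNReal.ofReal (ψ (LB SS ii αα t)) ≤
          ENNReal.ofReal (2 * (ε / 3) * (b - a)) := by
        calc ∫⁻ t in Set.Ioc a b, ENNReal.ofReal (ψ (LB SS ii αα t))
            ≤ ∫⁻ t in Set.Ioc a b, (ENNReal.ofReal (ε / 3) +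
                Set.indicator {τ ∈ Set.Ioc a b | ε / 3 < Ψ (LB SS ii αα τ)} 1 t) := by
              refine setLIntegral_mono' measurableSet_Ioc fun t ht => ?_
              by_cases h10 : ε / 3 < Ψ (LB SS ii αα t)
              · have h11 : t ∈ {τ ∈ Set.Ioc a b | ε / 3 < Ψ (LB SS ii αα τ)} := ⟨ht, h10⟩
                rw [Set.indicator_of_mem h11]
                refine le_trans (ENNReal.ofReal_le_ofReal (hψ1 _)) ?_
                rw [ENNReal.ofReal_one]
                exact le_add_self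
              · refine le_trans (ENNReal.ofReal_le_ofReal ?_) le_self_add
                exact (min_le_right _ _).trans (not_lt.1 h10)
          _ = ENNReal.ofReal (ε / 3) * ENNReal.ofReal (b - a) +
                ∫⁻ t in Set.Ioc a b,
                  Set.indicator {τ ∈ Set.Ioc a b | ε / 3 < Ψ (LB SS ii αα τ)} 1 t := by
              rw [lintegral_add_left measurable_const, lintegral_const,
                Measure.restrict_apply MeasurableSet.univ, Set.univ_inter, Real.volume_Ioc]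
          _ ≤ ENNReal.ofReal (ε / 3) * ENNReal.ofReal (b - a) +
                ENNReal.ofReal (ε / 3 * (b - a)) := by
              gcongr
              refine (setLIntegral_le_lintegral _ _).trans ?_
              rw [lintegral_indicator_one₀ hm]
              exact h5
          _ = ENNReal.ofReal (2 * (ε / 3) * (b - a)) := by
              rw [← ENNReal.ofReal_mul (by positivity), ← ENNReal.ofReal_add (by positivity)
                (by positivity)]
              congr 1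
              ring
      refine (le_abs_self _).trans ?_
      rw [← Real.norm_eq_abs]
      refine (norm_integral_le_lintegral_norm _).trans ?_
      refine ENNReal.toReal_le_of_le_ofReal (by positivity) (le_trans (le_of_eq ?_) h9)
      refine lintegral_congr fun t => ?_
      rw [Real.norm_of_nonneg (hψ0 _)]
    have h8 : 1 / (b - a) * ∫ t in Set.Ioc a b, ψ (LB SS ii αα t) ≤ 2 * (ε / 3) := by
      rw [one_div, inv_mul_le_iff₀ (by linarith)]
      linarith
    have h9 := (abs_le.1 h6).1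
    linarith
  have h4 : ∫ z, ψ (W z) ∂tor = 0 := le_antisymm hle (integral_nonneg fun z => hψ0 _)
  rw [integral_eq_zero_iff_of_nonneg (fun z => hψ0 _) hint] at h4
  filter_upwards [h4] with z hz
  have h5 : min 1 (Ψ (W z)) = 0 := hz
  rcases min_choice 1 (Ψ (W z)) with h6 | h6
  · rw [h6] at h5
    exact absurd h5 one_ne_zero
  · rw [h6] at h5
    exact h5

/-- The data for the relations. -/
lemma setup (hα : ∀ m, Wt (SS m) (ii m) (αα m)) : ∃ W : Om → M → ℂ, Measurable W ∧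
    MemLp W 2 tor ∧
    Tendsto (fun n => ∫ z, ‖W z - QQ (ff SS ii αα) n z‖ ^ 2 ∂tor) atTop (𝓝 0) ∧
    ∀ (Ψ : (M → ℂ) → ℝ), Continuous Ψ → (∀ x, 0 ≤ Ψ x) →
      DensityZero (fun τ => Ψ (LB SS ii αα τ)) → ∀ᵐ z ∂tor, Ψ (W z) = 0 := by
  obtain ⟨W, hW, hWP, hconv⟩ := joint hα
  have hQ := QQ_tendsto hα hW hWP
  have hL := aesm_LB hα
  set W' := hW.1.mk W with hW'
  have hae : W =ᵐ[tor] W' := hW.1.ae_eq_mk
  refine ⟨W', hW.1.stronglyMeasurable_mk.measurable, hW.ae_eq hae, ?_, ?_⟩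
  · refine hQ.congr fun n => integral_congr_ae ?_
    filter_upwards [hae] with z hz
    rw [hz]
  · intro Ψ hΨ hΨ0 h
    filter_upwards [dens_zero hW hL hconv Ψ hΨ hΨ0 h, hae] with z h1 h2
    rw [← h2]
    exact h1

/-- **Holomorphic relations at infinity are identities.** -/
theorem identities (hα : ∀ m, Wt (SS m) (ii m) (αα m)) {Φ : (M → ℂ) → ℂ}
    (hΦ : Differentiable ℂ Φ) (h : DensityZero fun τ => ‖Φ (LB SS ii αα τ)‖) {y : ℝ}
    (hy : 0 < y) (τ : ℝ) : Φ (fun m => logL (SS m) (αα m) (se (ii m) τ + y)) = 0 := by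
  obtain ⟨W, hWm, hW, hQ, hd⟩ := setup hα
  have h1 := hd (fun x => ‖Φ x‖) hΦ.continuous.norm (fun x => norm_nonneg _) h
  have h2 : ∀ᵐ z ∂tor, Φ (W z) = 0 := by
    filter_upwards [h1] with z hz using norm_eq_zero.1 hz
  have hu : Summable fun k : ℕ => (∑ m, 3 / 2 * (NN m * Module.finrank ℚ (KK m) : ℝ)) *
      ((1 / (Nat.nth Nat.Prime k : ℝ)) * rad y k) := (summable_rad hy).mul_left _
  have hfu : ∀ (k : ℕ) (x : ℂ), ‖x‖ ≤ 1 → ‖ff SS ii αα k (rad y k * x)‖ ≤
      (∑ m, 3 / 2 * (NN m * Module.finrank ℚ (KK m) : ℝ)) *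
        ((1 / (Nat.nth Nat.Prime k : ℝ)) * rad y k) := by
    intro k x hx
    have h0 : 0 ≤ (1 / (Nat.nth Nat.Prime k : ℝ)) * rad y k :=
      mul_nonneg (by positivity) (rad_nonneg y k)
    have h0' : ∀ m, 0 ≤ 3 / 2 * (NN m * Module.finrank ℚ (KK m) : ℝ) := fun m => by positivity
    rw [pi_norm_le_iff_of_nonneg (mul_nonneg (Finset.sum_nonneg fun m _ => h0' m) h0)]
    intro m
    refine (norm_fK_rad (hα m) hy k hx).trans ?_
    refine mul_le_mul_of_nonneg_right ?_ h0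
    exact Finset.single_le_sum (f := fun m => 3 / 2 * (NN m * Module.finrank ℚ (KK m) : ℝ))
      (fun m _ => h0' m) (Finset.mem_univ m)
  have h3 := relation (diff_ff hα) hWm hW hQ hΦ h2 (rad y) (rad_nonneg y)
    (rad_le_one hy.le) _ hu hfu (zt τ)
  rw [← h3]
  congr 1
  funext m
  have hs : Summable fun k => ff SS ii αα k (rad y k * zet (zt τ k)) :=
    Summable.of_norm_bounded hu fun k => hfu k _ (norm_zet _).le
  have h4 := tsum_apply (x := m) hs
  rw [h4]
  exact (tsum_height (hα m) hy τ).symm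

/-- **Real linear relations at infinity are identities.** -/
theorem real_identities (hα : ∀ m, Wt (SS m) (ii m) (αα m)) (c : M → ℂ) (A : ℝ)
    (h : DensityZero fun τ => |(∑ m, c m * LB SS ii αα τ m).re - A|) :
    A = 0 ∧ ∀ (y : ℝ), 0 < y → ∀ τ : ℝ,
      ∑ m, c m * logL (SS m) (αα m) (se (ii m) τ + y) = 0 := by
  obtain ⟨W, hWm, hW, hQ, hd⟩ := setup hα
  let Λ : (M → ℂ) →L[ℂ] ℂ := ∑ m, c m • ContinuousLinearMap.proj (R := ℂ) m
  have hΛ : ∀ x, Λ x = ∑ m, c m * x m := by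
    intro x
    simp [Λ]
  have h1 := hd (fun x => |(Λ x).re - A|)
    ((Complex.continuous_re.comp Λ.continuous).sub continuous_const).abs
    (fun x => abs_nonneg _) (by simpa only [hΛ] using h)
  have h2 : ∀ᵐ z ∂tor, (Λ (W z)).re = A := by
    filter_upwards [h1] with z hz
    have := abs_eq_zero.1 hz
    linarith
  obtain ⟨h3, h4⟩ := real_relation (diff_ff hα) hWm hW hQ
    (fun k => funext fun m => fK_zero k) Λ A h2
  refine ⟨h3, fun y hy τ => ?_⟩
  have h5 : ∀ k, ∑ m, c m * fK (SS m) (ii m) (αα m) k (rad y k * zet (zt τ k)) = 0 := by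
    intro k
    have h6 : ‖(rad y k : ℂ) * zet (zt τ k)‖ ≤ 1 := by
      rw [norm_mul, norm_zet, mul_one, Complex.norm_real, Real.norm_of_nonneg (rad_nonneg y k)]
      exact rad_le_one hy.le k
    have h7 := h4 k _ h6
    rw [hΛ] at h7
    exact h7
  have hs : ∀ m, HasSum (fun k => c m * fK (SS m) (ii m) (αα m) k (rad y k * zet (zt τ k)))
      (c m * logL (SS m) (αα m) (se (ii m) τ + y)) := by
    intro m
    rw [← tsum_height (hα m) hy τ]
    refine HasSum.mul_left _ (Summable.hasSum ?_)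
    exact Summable.of_norm_bounded
      ((summable_rad hy).mul_left (3 / 2 * (NN m * Module.finrank ℚ (KK m) : ℝ)))
      fun k => norm_fK_rad (hα m) hy k (norm_zet _).le
  have h6 := hasSum_sum fun m (_ : m ∈ Finset.univ) => hs m
  simp only [h5] at h6
  exact h6.unique hasSum_zero

end family

end Run7.h522.BM
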