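import Pool.Agent.W350.Edge3
import Pool.Agent.Run7.h522.BM.Moment

/-!
# Sums over primes at the scale `δ`
-/

set_option autoImplicit false

namespace Run7.h522.BM

open Finset MeasureTheory Pool.Agent.W350.Edge Filter Topology

lemma cheb' (F : Finset ℕ) (m : ℕ) (hF : ∀ p ∈ F, p.Prime ∧ lg p = m) :
    ∑ p ∈ F, (1 : ℝ) / p ≤ 2 * CC / (m + 1) := by
  have hCC := CC_pos
  rcases Nat.eq_zero_or_pos m with h0 | h0
  · subst h0
    have hsub : F ⊆ {2} := by
      intro p hp
      obtain ⟨h1, h2⟩ := hF p hp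
      rw [mem_singleton]
      have h3 := lt_lg p
      rw [h2] at h3
      by_contra h4
      have h5 : 3 ≤ p := by
        have := h1.two_le
        omega
      have h6 : (3 : ℝ) ≤ p := by exact_mod_cast h5
      have h7 : Real.exp 1 ≤ p := by
        have := Real.exp_one_lt_d9
        linarith
      have h8 := (Real.le_log_iff_exp_le (by linarith)).2 h7
      simp at h3
      linarith
    calc ∑ p ∈ F, (1 : ℝ) / p ≤ ∑ p ∈ ({2} : Finset ℕ), (1 : ℝ) / p :=
          sum_le_sum_of_subset_of_nonneg hsub fun p _ _ => by positivity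
      _ = 1 / 2 := by simp
      _ ≤ 2 * CC / ((0 : ℕ) + 1) := by
          have h1 : Real.log 4 ≥ 1 := by
            have : Real.exp 1 ≤ 4 := by
              have := Real.exp_one_lt_d9
              linarith
            exact (Real.le_log_iff_exp_le (by norm_num)).2 this
          have h2 : 1 ≤ Real.exp 1 := Real.one_le_exp (by norm_num)
          have h3 : 1 ≤ CC := by
            unfold CC
            nlinarith
          push_cast
          linarith
  · have h1 := cheb F m h0 hF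
    have hm : (1 : ℝ) ≤ m := by exact_mod_cast h0
    refine h1.trans ?_
    show CC / m ≤ 2 * CC / (m + 1)
    rw [div_le_div_iff₀ (by linarith) (by linarith)]
    nlinarith

/-- The primes with `⌊δ log p⌋ = j`. -/
lemma block_scale (F : Finset ℕ) {δ : ℝ} (hδ : 0 < δ) (hδ2 : δ ≤ 2) {j : ℕ} (hj : 1 ≤ j)
    (hF : ∀ p ∈ F, p.Prime ∧ ⌊δ * Real.log p⌋₊ = j) :
    ∑ p ∈ F, (1 : ℝ) / p ≤ 10 * CC / j := by
  have hCC := CC_pos
  have hj0 : (0 : ℝ) < j := by exact_mod_cast hj
  have hp : ∀ p ∈ F, (j : ℝ) / δ ≤ Real.log p ∧ Real.log p < ((j : ℝ) + 1) / δ := by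
    intro p hp
    obtain ⟨h1, h2⟩ := hF p hp
    have h3 : 0 ≤ δ * Real.log p := mul_nonneg hδ.le (Real.log_natCast_nonneg p)
    have h4 := Nat.floor_le h3
    have h5 := Nat.lt_floor_add_one (δ * Real.log p)
    rw [h2] at h4 h5
    rw [div_le_iff₀ hδ, lt_div_iff₀ hδ]
    constructor <;> linarith
  have himg : F.image lg ⊆ Icc ⌊(j : ℝ) / δ⌋₊ ⌊((j : ℝ) + 1) / δ⌋₊ := by
    intro m hm
    obtain ⟨p, hpF, rfl⟩ := mem_image.1 hm
    obtain ⟨h1, h2⟩ := hp p hpF
    rw [mem_Icc]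
    exact ⟨Nat.floor_le_floor h1, Nat.floor_le_floor h2.le⟩
  have hcard : ((F.image lg).card : ℝ) ≤ 1 / δ + 2 := by
    have h1 := card_le_card himg
    rw [Nat.card_Icc] at h1
    have h2 : (⌊((j : ℝ) + 1) / δ⌋₊ : ℝ) ≤ ((j : ℝ) + 1) / δ := Nat.floor_le (by positivity)
    have h3 := Nat.lt_floor_add_one ((j : ℝ) / δ)
    have h4 : ⌊(j : ℝ) / δ⌋₊ ≤ ⌊((j : ℝ) + 1) / δ⌋₊ := Nat.floor_le_floor (by
      gcongr
      linarith)
    have h5 : ((F.image lg).card : ℝ) ≤
        ((⌊((j : ℝ) + 1) / δ⌋₊ + 1 - ⌊(j : ℝ) / δ⌋₊ : ℕ) : ℝ) := by exact_mod_cast h1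
    rw [Nat.cast_sub (by omega)] at h5
    push_cast at h5
    have h6 : ((j : ℝ) + 1) / δ = (j : ℝ) / δ + 1 / δ := by ring
    linarith
  have hblock : ∀ m ∈ F.image lg, ∑ p ∈ F.filter (fun p => lg p = m), (1 : ℝ) / p ≤
      2 * CC * δ / j := by
    intro m hm
    obtain ⟨p, hpF, hpm⟩ := mem_image.1 hm
    have h1 := cheb' (F.filter fun p => lg p = m) m fun q hq => by
      rw [mem_filter] at hq
      exact ⟨(hF q hq.1).1, hq.2⟩
    refine h1.trans ?_
    have h2 := (hp p hpF).1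
    have h3 := lt_lg p
    rw [hpm] at h3
    have h4 : (j : ℝ) / δ ≤ (m : ℝ) + 1 := by linarith
    rw [div_le_iff₀ hδ] at h4
    have hm0 : (0 : ℝ) < (m : ℝ) + 1 := by positivity
    rw [div_le_div_iff₀ hm0 hj0]
    nlinarith
  have hmaps : ∀ p ∈ F, lg p ∈ F.image lg := fun p hp => mem_image_of_mem _ hp
  rw [← sum_fiberwise_of_maps_to hmaps]
  calc ∑ m ∈ F.image lg, ∑ p ∈ F.filter (fun p => lg p = m), (1 : ℝ) / p
      ≤ ∑ m ∈ F.image lg, 2 * CC * δ / j := sum_le_sum hblock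
    _ = ((F.image lg).card : ℝ) * (2 * CC * δ / j) := by rw [sum_const, nsmul_eq_mul]
    _ ≤ (1 / δ + 2) * (2 * CC * δ / j) := mul_le_mul_of_nonneg_right hcard (by positivity)
    _ = 2 * CC * (1 + 2 * δ) / j := by field_simp
    _ ≤ 10 * CC / j := by
        refine div_le_div_of_nonneg_right ?_ hj0.le
        nlinarith

/-- The primes with `δ log p < 1`. -/
lemma small_scale (F : Finset ℕ) {δ : ℝ} (hδ : 0 < δ) (hδ2 : δ ≤ 2)
    (hF : ∀ p ∈ F, p.Prime ∧ δ * Real.log p < 1) :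
    ∑ p ∈ F, Real.log p / p ≤ 6 * CC / δ := by
  have hCC := CC_pos
  have hp : ∀ p ∈ F, Real.log p < 1 / δ := by
    intro p hp
    rw [lt_div_iff₀ hδ]
    linarith [(hF p hp).2]
  have himg : F.image lg ⊆ range (⌊1 / δ⌋₊ + 1) := by
    intro m hm
    obtain ⟨p, hpF, rfl⟩ := mem_image.1 hm
    rw [mem_range, Nat.lt_succ_iff]
    exact Nat.floor_le_floor (hp p hpF).le
  have hcard : ((F.image lg).card : ℝ) ≤ 3 / δ := by
    have h1 := card_le_card himg
    rw [card_range] at h1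
    have h2 : (⌊1 / δ⌋₊ : ℝ) ≤ 1 / δ := Nat.floor_le (by positivity)
    have h5 : ((F.image lg).card : ℝ) ≤ ((⌊1 / δ⌋₊ + 1 : ℕ) : ℝ) := by exact_mod_cast h1
    push_cast at h5
    have h6 : 1 ≤ 2 / δ := by rw [le_div_iff₀ hδ]; linarith
    have h7 : 3 / δ = 1 / δ + 2 / δ := by ring
    linarith
  have hblock : ∀ m ∈ F.image lg, ∑ p ∈ F.filter (fun p => lg p = m), Real.log p / p ≤
      2 * CC := by
    intro m hm
    have h1 := cheb' (F.filter fun p => lg p = m) m fun q hq => by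
      rw [mem_filter] at hq
      exact ⟨(hF q hq.1).1, hq.2⟩
    calc ∑ p ∈ F.filter (fun p => lg p = m), Real.log p / p
        ≤ ∑ p ∈ F.filter (fun p => lg p = m), ((m : ℝ) + 1) * (1 / p) := by
          refine sum_le_sum fun p hp => ?_
          rw [mem_filter] at hp
          have h3 := lt_lg p
          rw [hp.2] at h3
          rw [mul_one_div]
          exact div_le_div_of_nonneg_right h3.le (Nat.cast_nonneg _)
      _ = ((m : ℝ) + 1) * ∑ p ∈ F.filter (fun p => lg p = m), (1 : ℝ) / p := by rw [mul_sum]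
      _ ≤ ((m : ℝ) + 1) * (2 * CC / (m + 1)) := mul_le_mul_of_nonneg_left h1 (by positivity)
      _ = 2 * CC := by field_simp
  have hmaps : ∀ p ∈ F, lg p ∈ F.image lg := fun p hp => mem_image_of_mem _ hp
  rw [← sum_fiberwise_of_maps_to hmaps]
  calc ∑ m ∈ F.image lg, ∑ p ∈ F.filter (fun p => lg p = m), Real.log p / p
      ≤ ∑ m ∈ F.image lg, 2 * CC := sum_le_sum hblock
    _ = ((F.image lg).card : ℝ) * (2 * CC) := by rw [sum_const, nsmul_eq_mul]
    _ ≤ 3 / δ * (2 * CC) := mul_le_mul_of_nonneg_right hcard (by positivity)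
    _ = 6 * CC / δ := by ring

section sums

variable (a : ℕ → ℂ)

/-- The primes below `x` with `1 ≤ δ log p`. -/
noncomputable def Fb (δ : ℝ) (x : ℕ) : Finset ℕ :=
  (range x).filter fun p => p.Prime ∧ 1 ≤ δ * Real.log p

/-- The primes below `x` with `δ log p < 1`. -/
noncomputable def Fs (δ : ℝ) (x : ℕ) : Finset ℕ :=
  (range x).filter fun p => p.Prime ∧ δ * Real.log p < 1

lemma dom_big {D : ℝ} (hD : 0 ≤ D) (ha : ∀ p, ‖a p‖ ≤ D) {δ : ℝ} (hδ : 0 < δ) (hδ2 : δ ≤ 2)
    (α : ℝ) (x : ℕ) :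
    ∃ M, Dom (Fb δ x) (fun p => a p / p * Complex.exp (-(α * Real.log p) * Complex.I))
      (fun p => δ * Real.log p) (10 * CC * D) M := by
  classical
  have hCC := CC_pos
  obtain ⟨M, hM⟩ : ∃ M : ℕ, ∀ p ∈ Fb δ x, ⌊δ * Real.log p⌋₊ ≤ M := by
    refine ⟨(Fb δ x).sup fun p : ℕ => ⌊δ * Real.log p⌋₊, fun p hp => ?_⟩
    exact le_sup (f := fun p : ℕ => ⌊δ * Real.log p⌋₊) hp
  refine ⟨M, fun p hp => ?_, fun h hh => ?_⟩
  · unfold Fb at hp
    rw [mem_filter] at hp
    exact hp.2.2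
  · have hmem : ∀ p ∈ Fb δ x, p.Prime ∧ 1 ≤ ⌊δ * Real.log p⌋₊ := by
      intro p hp
      unfold Fb at hp
      rw [mem_filter] at hp
      exact ⟨hp.2.1, Nat.le_floor (by simpa using hp.2.2)⟩
    have hmaps : ∀ p ∈ Fb δ x, ⌊δ * Real.log p⌋₊ - 1 ∈ range M := by
      intro p hp
      have h1 := hM p hp
      have h2 := (hmem p hp).2
      rw [mem_range]
      omega
    rw [← sum_fiberwise_of_maps_to hmaps, mul_sum]
    refine sum_le_sum fun j _ => ?_
    have hterm : ∀ p ∈ (Fb δ x).filter (fun p : ℕ => ⌊δ * Real.log p⌋₊ - 1 = j),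
        ‖a p / p * Complex.exp (-(α * Real.log p) * Complex.I)‖ * h ⌊δ * Real.log p⌋₊ ≤
          (1 / (p : ℝ)) * (D * h (j + 1)) := by
      intro p hp
      rw [mem_filter] at hp
      have h1 := (hmem p hp.1).2
      have h2 : ⌊δ * Real.log p⌋₊ = j + 1 := by omega
      have h3 : ‖Complex.exp (-((α : ℂ) * (Real.log p : ℂ)) * Complex.I)‖ = 1 := by
        rw [Complex.norm_exp, Complex.mul_I_re, ← Complex.ofReal_mul, ← Complex.ofReal_neg,
          Complex.ofReal_im, neg_zero, Real.exp_zero]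
      rw [h2, norm_mul, h3, mul_one, norm_div, Complex.norm_natCast]
      calc ‖a p‖ / p * h (j + 1) ≤ D / p * h (j + 1) := by
            refine mul_le_mul_of_nonneg_right ?_ (hh _)
            exact div_le_div_of_nonneg_right (ha p) (Nat.cast_nonneg _)
        _ = _ := by ring
    refine (sum_le_sum hterm).trans ?_
    rw [← sum_mul]
    have h4 := block_scale ((Fb δ x).filter fun p : ℕ => ⌊δ * Real.log p⌋₊ - 1 = j) hδ hδ2
      (j := j + 1) (by omega) fun p hp => by
        rw [mem_filter] at hp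
        have h1 := hmem p hp.1
        exact ⟨h1.1, by omega⟩
    push_cast at h4
    calc (∑ p ∈ (Fb δ x).filter (fun p : ℕ => ⌊δ * Real.log p⌋₊ - 1 = j), 1 / (p : ℝ)) *
          (D * h (j + 1)) ≤ (10 * CC / ((j : ℝ) + 1)) * (D * h (j + 1)) :=
          mul_le_mul_of_nonneg_right h4 (mul_nonneg hD (hh _))
      _ = _ := by ring

/-- The part of the sum over the large primes. -/
noncomputable def big (δ : ℝ) (x : ℕ) (τ : ℝ) : ℂ := ∑ p ∈ Fb δ x, term a τ p

/-- The part of the sum over the small primes. -/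
noncomputable def sml (δ : ℝ) (x : ℕ) (τ : ℝ) : ℂ := ∑ p ∈ Fs δ x, term a τ p

lemma ps_eq (δ : ℝ) (x : ℕ) (τ : ℝ) : ps a τ x = big a δ x τ + sml a δ x τ := by
  classical
  unfold ps big sml Fb Fs
  rw [← sum_filter_add_sum_filter_not (range x) (fun p : ℕ => p.Prime ∧ 1 ≤ δ * Real.log p)]
  congr 1
  have h1 : ((range x).filter fun p : ℕ => ¬(p.Prime ∧ 1 ≤ δ * Real.log p)) =
      ((range x).filter fun p : ℕ => p.Prime ∧ δ * Real.log p < 1) ∪
        ((range x).filter fun p : ℕ => ¬ p.Prime) := by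
    ext p
    simp only [mem_filter, mem_union, not_and, not_le]
    constructor
    · rintro ⟨h1, h2⟩
      by_cases hp : p.Prime
      · exact Or.inl ⟨h1, hp, h2 hp⟩
      · exact Or.inr ⟨h1, hp⟩
    · rintro (⟨h1, h2, h3⟩ | ⟨h1, h2⟩)
      · exact ⟨h1, fun _ => h3⟩
      · exact ⟨h1, fun h => absurd h h2⟩
  rw [h1, sum_union]
  · have : ∑ p ∈ (range x).filter (fun p => ¬ p.Prime), term a τ p = 0 := by
      refine sum_eq_zero fun p hp => ?_
      rw [mem_filter] at hp
      unfold term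
      rw [if_neg hp.2]
    rw [this, add_zero]
  · rw [disjoint_left]
    intro p hp hq
    rw [mem_filter] at hp hq
    exact hq.2 hp.2.1

lemma continuous_term (p : ℕ) : Continuous fun τ : ℝ => term a τ p := by
  unfold term
  split_ifs <;> fun_prop

lemma continuous_big (δ : ℝ) (x : ℕ) : Continuous (big a δ x) :=
  continuous_finsetSum _ fun p _ => continuous_term a p

lemma continuous_sml (δ : ℝ) (x : ℕ) : Continuous (sml a δ x) :=
  continuous_finsetSum _ fun p _ => continuous_term a p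

lemma big_eq (δ : ℝ) (x : ℕ) (α t : ℝ) :
    big a δ x (δ * t + α) = es (Fb δ x)
      (fun p => a p / p * Complex.exp (-(α * Real.log p) * Complex.I))
      (fun p => δ * Real.log p) t := by
  unfold big es
  refine sum_congr rfl fun p hp => ?_
  unfold Fb at hp
  rw [mem_filter] at hp
  unfold term
  rw [if_pos hp.2.1, mul_assoc (a p / p), ← Complex.exp_add]
  congr 2
  push_cast
  ring

/-- The moments of the large primes over an interval of length `δ`. -/
lemma big_moment {D : ℝ} (hD : 0 ≤ D) (ha : ∀ p, ‖a p‖ ≤ D) {δ : ℝ} (hδ : 0 < δ) (hδ2 : δ ≤ 2)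
    (α : ℝ) (x k : ℕ) :
    ∫ τ in α..(α + δ), ‖big a δ x τ‖ ^ (2 * k) ≤
      δ * (C0 * (12 * (10 * CC * D) ^ 2) ^ k * ((2 * k).factorial : ℝ)) := by
  obtain ⟨M, hM⟩ := dom_big a hD ha hδ hδ2 α x
  have h1 := moment (by have := CC_pos; positivity) hM k
  have h2 := intervalIntegral.integral_comp_mul_add (a := 0) (b := 1)
    (fun τ => ‖big a δ x τ‖ ^ (2 * k)) hδ.ne' α
  simp only [big_eq, mul_zero, zero_add, mul_one, smul_eq_mul] at h2
  rw [h2, inv_mul_le_iff₀ hδ, add_comm] at h1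
  exact h1

lemma norm_sml_sub {D : ℝ} (hD : 0 ≤ D) (ha : ∀ p, ‖a p‖ ≤ D) {δ : ℝ} (hδ : 0 < δ) (hδ2 : δ ≤ 2)
    {α τ : ℝ} (hτ : |τ - α| ≤ δ) (x : ℕ) : ‖sml a δ x τ - sml a δ x α‖ ≤ 6 * CC * D := by
  unfold sml
  rw [← sum_sub_distrib]
  have hF : ∀ p ∈ Fs δ x, p.Prime ∧ δ * Real.log p < 1 := by
    intro p hp
    unfold Fs at hp
    rw [mem_filter] at hp
    exact hp.2
  have h1 : ∀ p ∈ Fs δ x, ‖term a τ p - term a α p‖ ≤ (D * δ) * (Real.log p / p) := by
    intro p hp
    have hp0 : (0 : ℝ) < p := by exact_mod_cast (hF p hp).1.pos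
    have hl : 0 ≤ Real.log p := Real.log_natCast_nonneg p
    unfold term
    rw [if_pos (hF p hp).1, if_pos (hF p hp).1, ← mul_sub, norm_mul, norm_div,
      Complex.norm_natCast]
    have h2 : Complex.exp (-(τ * Real.log p) * Complex.I) -
        Complex.exp (-(α * Real.log p) * Complex.I) =
        Complex.exp (-(α * Real.log p) * Complex.I) *
          (Complex.exp (Complex.I * ((-((τ - α) * Real.log p) : ℝ) : ℂ)) - 1) := by
      rw [mul_sub, ← Complex.exp_add, mul_one]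
      congr 2
      push_cast
      ring
    have h3 : ‖Complex.exp (-((α : ℂ) * (Real.log p : ℂ)) * Complex.I)‖ = 1 := by
      rw [Complex.norm_exp, Complex.mul_I_re, ← Complex.ofReal_mul, ← Complex.ofReal_neg,
        Complex.ofReal_im, neg_zero, Real.exp_zero]
    rw [h2, norm_mul, h3, one_mul]
    have h4 := Real.norm_exp_I_mul_ofReal_sub_one_le (x := -((τ - α) * Real.log p))
    have h5 : ‖-((τ - α) * Real.log p)‖ ≤ δ * Real.log p := by
      rw [norm_neg, Real.norm_eq_abs, abs_mul, abs_of_nonneg hl]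
      exact mul_le_mul_of_nonneg_right hτ hl
    calc ‖a p‖ / p * ‖Complex.exp (Complex.I * ((-((τ - α) * Real.log p) : ℝ) : ℂ)) - 1‖
        ≤ D / p * (δ * Real.log p) := by
          refine mul_le_mul ?_ (h4.trans h5) (norm_nonneg _) (by positivity)
          exact div_le_div_of_nonneg_right (ha p) hp0.le
      _ = _ := by ring
  refine (norm_sum_le_of_le _ h1).trans ?_
  rw [← mul_sum]
  have h2 := small_scale (Fs δ x) hδ hδ2 hF
  calc D * δ * ∑ p ∈ Fs δ x, Real.log p / p ≤ D * δ * (6 * CC / δ) :=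
        mul_le_mul_of_nonneg_left h2 (by positivity)
    _ = 6 * CC * D := by field_simp

/-- For `δ ≥ 1` the sum over the small primes is small. -/
lemma norm_sml {D : ℝ} (hD : 0 ≤ D) (ha : ∀ p, ‖a p‖ ≤ D) {δ : ℝ} (hδ : 1 ≤ δ)
    (τ : ℝ) (x : ℕ) : ‖sml a δ x τ‖ ≤ D := by
  unfold sml
  have hsub : Fs δ x ⊆ {2} := by
    intro p hp
    unfold Fs at hp
    rw [mem_filter] at hp
    obtain ⟨-, h1, h2⟩ := hp
    rw [mem_singleton]
    by_contra h4
    have h5 : 3 ≤ p := by
      have := h1.two_le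
      omega
    have h6 : (3 : ℝ) ≤ p := by exact_mod_cast h5
    have h7 : Real.exp 1 ≤ p := by
      have := Real.exp_one_lt_d9
      linarith
    have h8 := (Real.le_log_iff_exp_le (by linarith)).2 h7
    nlinarith
  have h1 : ∀ p ∈ Fs δ x, ‖term a τ p‖ ≤ D / 2 := by
    intro p hp
    have h2 := mem_singleton.1 (hsub hp)
    subst h2
    unfold term
    rw [if_pos Nat.prime_two, norm_mul]
    have h3 : ‖Complex.exp (-((τ : ℂ) * (Real.log (2 : ℕ) : ℂ)) * Complex.I)‖ = 1 := by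
      rw [Complex.norm_exp, Complex.mul_I_re, ← Complex.ofReal_mul, ← Complex.ofReal_neg,
        Complex.ofReal_im, neg_zero, Real.exp_zero]
    rw [h3, mul_one, norm_div, Complex.norm_natCast]
    push_cast
    exact div_le_div_of_nonneg_right (ha 2) (by norm_num)
  refine (norm_sum_le_of_le _ h1).trans ?_
  rw [sum_const, nsmul_eq_mul]
  have h2 : ((Fs δ x).card : ℝ) ≤ 1 := by
    have := card_le_card hsub
    rw [card_singleton] at this
    exact_mod_cast this
  nlinarith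

/-- The sum over the small primes does not depend on `x` for large `x`. -/
lemma sml_eventually (δ : ℝ) (hδ : 0 < δ) : ∃ x₀ : ℕ, ∀ x, x₀ ≤ x → Fs δ x = Fs δ x₀ := by
  refine ⟨⌈Real.exp (1 / δ)⌉₊, fun x hx => ?_⟩
  ext p
  unfold Fs
  simp only [mem_filter, mem_range]
  constructor
  · rintro ⟨-, h2, h3⟩
    refine ⟨?_, h2, h3⟩
    have hp0 : (0 : ℝ) < p := by exact_mod_cast h2.pos
    have h4 : Real.log p < 1 / δ := by
      rw [lt_div_iff₀ hδ]
      linarith
    have h5 : (p : ℝ) < Real.exp (1 / δ) := (Real.log_lt_iff_lt_exp hp0).1 h4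
    exact_mod_cast h5.trans_le (Nat.le_ceil _)
  · rintro ⟨h1, h2, h3⟩
    exact ⟨by omega, h2, h3⟩

end sums

end Run7.h522.BM
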