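import Pool.Agent.Run7.h522.BM.Places

/-!
# Approximation of the boundary values in the Stepanov norm
-/

set_option autoImplicit false

namespace Run7.h522.BM

open NumberField IsDedekindDomain Filter Topology Pool.Agent.H921R2.TatePole
  Pool.Agent.W350.Edge Pool.Agent.W350.EdgeV Pool.Agent.W350.EdgeNF Pool.Agent.TH958.BV
  MeasureTheory
open scoped ENNReal

section primes

open Finset

lemma sum_inv_sq {K M : ℕ} (hK : 1 ≤ K) : ∑ m ∈ Ico K M, (1 : ℝ) / (m : ℝ) ^ 2 ≤ 2 / K := by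
  have h := sum_Ioo_inv_sq_le (α := ℝ) (K - 1) M
  have h1 : Ioo (K - 1) M = Ico K M := by
    ext m
    simp only [mem_Ioo, mem_Ico]
    omega
  rw [h1] at h
  have h2 : (((K - 1 : ℕ) : ℝ) + 1) = K := by
    rw [Nat.cast_sub hK]
    ring
  rw [h2] at h
  simpa only [one_div] using h

/-- Chebyshev, summed over the blocks. -/
lemma block_sum {F : Finset ℕ} {K M : ℕ} (hK : 1 ≤ K)
    (hF : ∀ p ∈ F, p.Prime ∧ K ≤ lg p ∧ lg p < M) (h : ℕ → ℝ) (hh : ∀ m, 0 ≤ h m) :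
    ∑ p ∈ F, 1 / (p : ℝ) * h (lg p) ≤ ∑ m ∈ Ico K M, CC / m * h m := by
  have hmaps : ∀ p ∈ F, lg p ∈ Ico K M := fun p hp => mem_Ico.2 (hF p hp).2
  rw [← sum_fiberwise_of_maps_to hmaps]
  refine sum_le_sum fun m hm => ?_
  have h1 : ∑ p ∈ F.filter (fun p => lg p = m), 1 / (p : ℝ) * h (lg p) =
      (∑ p ∈ F.filter (fun p => lg p = m), 1 / (p : ℝ)) * h m := by
    rw [sum_mul]
    refine sum_congr rfl fun p hp => ?_
    rw [(mem_filter.1 hp).2]
  rw [h1]
  refine mul_le_mul_of_nonneg_right ?_ (hh m)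
  exact cheb _ m (hK.trans (mem_Ico.1 hm).1) fun p hp =>
    ⟨(hF p (mem_filter.1 hp).1).1, (mem_filter.1 hp).2⟩

/-- The mean square of a sum over large primes over an interval of length one. -/
lemma tail_mean {a : ℕ → ℂ} {D : ℝ} (hD : 0 ≤ D) (ha : ∀ p, ‖a p‖ ≤ D) {F : Finset ℕ} {K : ℕ}
    (hK : 1 ≤ K) (hF : ∀ p ∈ F, p.Prime ∧ K ≤ lg p) (α : ℝ) :
    ∫ τ in α..(α + 1), ‖∑ p ∈ F, term a τ p‖ ^ 2 ≤ 144 * CC ^ 2 * D ^ 2 / K := by
  have hCC := CC_pos
  have hK0 : (0 : ℝ) < K := by exact_mod_cast hK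
  set c : ℕ → ℂ := fun p => a p / p * Complex.exp (-(α * Real.log p) * Complex.I) with hc
  have h0 : ∀ τ : ℝ, ∑ p ∈ F, term a (τ + α) p =
      ∑ p ∈ F, c p * Complex.exp (-(τ * (Real.log p : ℝ)) * Complex.I) := by
    intro τ
    refine sum_congr rfl fun p hp => ?_
    unfold term
    rw [if_pos (hF p hp).1, hc]
    simp only
    rw [mul_assoc (a p / p), ← Complex.exp_add]
    congr 2
    push_cast
    ring
  have h1 : ∫ τ in α..(α + 1), ‖∑ p ∈ F, term a τ p‖ ^ 2 =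
      ∫ τ in (0 : ℝ)..1, ‖∑ p ∈ F, c p * Complex.exp (-(τ * (Real.log p : ℝ)) * Complex.I)‖ ^ 2 := by
    have h2 := intervalIntegral.integral_comp_add_right (a := 0) (b := 1)
      (fun τ => ‖∑ p ∈ F, term a τ p‖ ^ 2) α
    simp only [h0] at h2
    rw [h2, zero_add, add_comm]
  rw [h1]
  refine (gauss_mean F c (fun p => Real.log p)).trans ?_
  have hcn : ∀ p ∈ F, ‖c p‖ ≤ D * (1 / p) := by
    intro p hp
    rw [hc]
    simp only
    have h3 : ‖Complex.exp (-((α : ℂ) * (Real.log p : ℂ)) * Complex.I)‖ = 1 := by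
      rw [Complex.norm_exp, Complex.mul_I_re, ← Complex.ofReal_mul, ← Complex.ofReal_neg,
        Complex.ofReal_im, neg_zero, Real.exp_zero]
    rw [norm_mul, h3, mul_one, norm_div, Complex.norm_natCast, mul_one_div]
    exact div_le_div_of_nonneg_right (ha p) (Nat.cast_nonneg _)
  obtain ⟨M, hM⟩ : ∃ M, ∀ p ∈ F, lg p < M :=
    ⟨F.sup lg + 1, fun p hp => Nat.lt_succ_of_le (le_sup (f := lg) hp)⟩
  have hF' : ∀ p ∈ F, p.Prime ∧ K ≤ lg p ∧ lg p < M := fun p hp =>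
    ⟨(hF p hp).1, (hF p hp).2, hM p hp⟩
  have hs : ∀ m n : ℕ, |(m : ℝ) - n| = |(n : ℝ) - m| := fun m n => abs_sub_comm _ _
  have h2 : ∑ p ∈ F, ∑ q ∈ F, ‖c p‖ * ‖c q‖ * Real.exp (-(Real.log p - Real.log q) ^ 2) ≤
      D ^ 2 * ∑ m ∈ Ico K M, CC / m * ∑ l ∈ Ico K M, CC / l * Real.exp (1 - |(m : ℝ) - l|) := by
    calc ∑ p ∈ F, ∑ q ∈ F, ‖c p‖ * ‖c q‖ * Real.exp (-(Real.log p - Real.log q) ^ 2)
        ≤ ∑ p ∈ F, ∑ q ∈ F, (D * (1 / p)) * (D * (1 / q)) *
            Real.exp (1 - |(lg p : ℝ) - lg q|) := by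
          refine sum_le_sum fun p hp => sum_le_sum fun q hq => ?_
          have h3 := kappa_le (hF p hp).1.one_le (hF q hq).1.one_le 0
          simp only [sub_zero] at h3
          refine mul_le_mul ?_ h3 (Real.exp_pos _).le (by positivity)
          exact mul_le_mul (hcn p hp) (hcn q hq) (norm_nonneg _) (by positivity)
      _ = D ^ 2 * ∑ p ∈ F, 1 / (p : ℝ) * ∑ q ∈ F, 1 / (q : ℝ) *
            Real.exp (1 - |(lg p : ℝ) - lg q|) := by
          simp_rw [mul_sum]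
          refine sum_congr rfl fun p _ => sum_congr rfl fun q _ => ?_
          ring
      _ ≤ D ^ 2 * ∑ p ∈ F, 1 / (p : ℝ) * ∑ l ∈ Ico K M, CC / l *
            Real.exp (1 - |(lg p : ℝ) - l|) := by
          refine mul_le_mul_of_nonneg_left (sum_le_sum fun p _ =>
            mul_le_mul_of_nonneg_left ?_ (by positivity)) (sq_nonneg D)
          exact block_sum hK hF' (fun l => Real.exp (1 - |(lg p : ℝ) - l|))
            fun _ => (Real.exp_pos _).le
      _ ≤ _ := by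
          refine mul_le_mul_of_nonneg_left ?_ (sq_nonneg D)
          exact block_sum hK hF' (fun m => ∑ l ∈ Ico K M, CC / l *
            Real.exp (1 - |(m : ℝ) - l|)) fun m => sum_nonneg fun l _ => by positivity
  have h3 : ∑ m ∈ Ico K M, CC / m * ∑ l ∈ Ico K M, CC / l * Real.exp (1 - |(m : ℝ) - l|) ≤
      CC ^ 2 * 12 * ∑ m ∈ Ico K M, 1 / (m : ℝ) ^ 2 := by
    calc ∑ m ∈ Ico K M, CC / m * ∑ l ∈ Ico K M, CC / l * Real.exp (1 - |(m : ℝ) - l|)
        = CC ^ 2 * ∑ m ∈ Ico K M, ∑ l ∈ Ico K M, 1 / (m : ℝ) * (1 / l) *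
            Real.exp (1 - |(m : ℝ) - l|) := by
          simp_rw [mul_sum]
          refine sum_congr rfl fun p _ => sum_congr rfl fun q _ => ?_
          ring
      _ ≤ CC ^ 2 * ∑ m ∈ Ico K M, ∑ l ∈ Ico K M,
            ((1 / (m : ℝ)) ^ 2 / 2 * Real.exp (1 - |(m : ℝ) - l|) +
              (1 / (l : ℝ)) ^ 2 / 2 * Real.exp (1 - |(l : ℝ) - m|)) := by
          refine mul_le_mul_of_nonneg_left (sum_le_sum fun m _ => sum_le_sum fun l _ => ?_)
            (sq_nonneg _)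
          rw [hs m l, ← add_mul]
          refine mul_le_mul_of_nonneg_right ?_ (Real.exp_pos _).le
          nlinarith [sq_nonneg (1 / (m : ℝ) - 1 / l)]
      _ = CC ^ 2 * ∑ m ∈ Ico K M, (1 / (m : ℝ)) ^ 2 *
            ∑ l ∈ Ico K M, Real.exp (1 - |(m : ℝ) - l|) := by
          congr 1
          simp_rw [sum_add_distrib]
          rw [sum_comm (f := fun m l : ℕ => (1 / (l : ℝ)) ^ 2 / 2 *
            Real.exp (1 - |(l : ℝ) - m|)), ← sum_add_distrib]
          refine sum_congr rfl fun m _ => ?_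
          rw [← sum_add_distrib, mul_sum]
          refine sum_congr rfl fun l _ => ?_
          ring
      _ ≤ CC ^ 2 * ∑ m ∈ Ico K M, (1 / (m : ℝ)) ^ 2 * 12 := by
          refine mul_le_mul_of_nonneg_left (sum_le_sum fun m _ =>
            mul_le_mul_of_nonneg_left (schur_row _ _) (sq_nonneg _)) (sq_nonneg _)
      _ = _ := by
          rw [← sum_mul]
          simp only [one_div, inv_pow]
          ring
  have h4 := sum_inv_sq (K := K) (M := M) hK
  calc 6 * ∑ p ∈ F, ∑ q ∈ F, ‖c p‖ * ‖c q‖ * Real.exp (-(Real.log p - Real.log q) ^ 2)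
      ≤ 6 * (D ^ 2 * (CC ^ 2 * 12 * (2 / K))) := by
        refine mul_le_mul_of_nonneg_left ?_ (by norm_num)
        refine h2.trans (mul_le_mul_of_nonneg_left (h3.trans ?_) (sq_nonneg D))
        exact mul_le_mul_of_nonneg_left h4 (by positivity)
    _ = _ := by ring

lemma ps_sub (a : ℕ → ℂ) (τ : ℝ) {x y : ℕ} (h : x ≤ y) :
    ps a τ y - ps a τ x = ∑ p ∈ (Ico x y).filter Nat.Prime, term a τ p := by
  unfold ps
  rw [← sum_Ico_eq_sub _ h, sum_filter]
  refine sum_congr rfl fun p _ => ?_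
  unfold term
  split_ifs <;> rfl

/-- The tail of the limit. -/
lemma tail_lim {a : ℕ → ℂ} {D : ℝ} (hD : 0 ≤ D) (ha : ∀ p, ‖a p‖ ≤ D) (F : ℝ → ℂ)
    (hF : ∀ᵐ τ : ℝ, Tendsto (ps a τ) atTop (𝓝 (F τ))) {Y K : ℕ} (hK : 1 ≤ K)
    (hY : Real.exp K ≤ Y) (α : ℝ) :
    ∫⁻ τ in Set.Ioc α (α + 1), ENNReal.ofReal (‖F τ - ps a τ Y‖ ^ 2) ≤
      ENNReal.ofReal (144 * CC ^ 2 * D ^ 2 / K) := by
  have hcont : ∀ x, Continuous fun τ => ps a τ x - ps a τ Y := fun x =>
    (continuous_ps a x).sub (continuous_ps a Y)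
  have h1 : ∀ᵐ τ ∂(volume.restrict (Set.Ioc α (α + 1))),
      ENNReal.ofReal (‖F τ - ps a τ Y‖ ^ 2) =
        liminf (fun x => ENNReal.ofReal (‖ps a τ x - ps a τ Y‖ ^ 2)) atTop := by
    filter_upwards [ae_restrict_of_ae hF] with τ hτ
    refine (Tendsto.liminf_eq ?_).symm
    exact (ENNReal.continuous_ofReal.tendsto _).comp (((hτ.sub_const _).norm).pow 2)
  rw [lintegral_congr_ae h1]
  refine (lintegral_liminf_le fun x => ?_).trans ?_
  · exact ENNReal.measurable_ofReal.comp (((hcont x).norm.pow 2).measurable)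
  · refine (liminf_le_liminf (v := fun _ => ENNReal.ofReal (144 * CC ^ 2 * D ^ 2 / K))
      ?_).trans (le_of_eq (liminf_const _))
    filter_upwards [eventually_ge_atTop Y] with x hx
    have hc : Continuous fun τ => ‖ps a τ x - ps a τ Y‖ ^ 2 := (hcont x).norm.pow _
    have h2 : ∫⁻ τ in Set.Ioc α (α + 1), ENNReal.ofReal (‖ps a τ x - ps a τ Y‖ ^ 2) =
        ENNReal.ofReal (∫ τ in Set.Ioc α (α + 1), ‖ps a τ x - ps a τ Y‖ ^ 2) := by
      rw [ofReal_integral_eq_lintegral_ofReal]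
      · exact hc.integrableOn_Ioc
      · exact ae_of_all _ fun τ => by positivity
    rw [h2, ← intervalIntegral.integral_of_le (by linarith)]
    refine ENNReal.ofReal_le_ofReal ?_
    simp_rw [ps_sub a _ hx]
    refine tail_mean hD ha hK (fun p hp => ?_) α
    rw [mem_filter, mem_Ico] at hp
    refine ⟨hp.2, Nat.le_floor ?_⟩
    have hp0 : (0 : ℝ) < p := by exact_mod_cast hp.2.pos
    rw [Real.le_log_iff_exp_le hp0]
    refine hY.trans ?_
    exact_mod_cast hp.1.1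

end primes

section main

variable {K : Type} [Field K] [NumberField K] {i N : ℕ} {S : Set (HeightOneSpectrum (𝓞 K))}
  {α : HeightOneSpectrum (𝓞 K) → Fin N → ℂ}

/-- The partial sums over the places. -/
noncomputable def lY (S : Set (HeightOneSpectrum (𝓞 K))) (i : ℕ)
    (α : HeightOneSpectrum (𝓞 K) → Fin N → ℂ) (Y : ℕ) (τ : ℝ) : ℂ :=
  ∑ v ∈ FV nm hfin Y, lv S α v (se i τ)

lemma lv_edge (hα : Wt S i α) (v : HeightOneSpectrum (𝓞 K)) (τ : ℝ) :
    lv S α v (se i τ) = vt nm (tv S i α) τ v + qv S α v (se i τ) := by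
  have h := lv_eq hα v τ 0
  rwa [add_zero, neg_zero, zero_mul, Complex.exp_zero, one_mul] at h

lemma lY_eq (hα : Wt S i α) (Y : ℕ) (τ : ℝ) : lY S i α Y τ = ps (cp S i α) τ Y +
    ∑ v ∈ FV nm hfin Y, (gv (tv S i α) τ v + qv S α v (se i τ)) := by
  classical
  have h2 : ps (cp S i α) τ Y = ∑ v ∈ FV nm hfin Y,
      (if (nm v).Prime then vt nm (tv S i α) τ v else 0) := by
    rw [← sum_grp hfin]
    unfold ps
    refine Finset.sum_congr rfl fun p _ => ?_
    unfold term grp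
    split_ifs with hp
    · unfold cp
      rw [if_pos hp, grp, ← tsum_div_const, ← tsum_mul_right]
      refine tsum_congr fun v => ?_
      have h3 : nm v.1 = p := v.2
      beta_reduce
      rw [if_pos (by rw [h3]; exact hp), vt, h3]
    · have : ∀ v : (nm : HeightOneSpectrum (𝓞 K) → ℕ) ⁻¹' {p},
          (if (nm v.1).Prime then vt nm (tv S i α) τ v.1 else 0) = 0 := by
        intro v
        have h3 : nm v.1 = p := v.2
        rw [if_neg (by rw [h3]; exact hp)]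
      simp [this]
  unfold lY
  rw [h2, ← Finset.sum_add_distrib]
  refine Finset.sum_congr rfl fun v _ => ?_
  rw [lv_edge hα]
  unfold gv
  split_ifs <;> ring

lemma continuous_lY (hα : Wt S i α) (Y : ℕ) : Continuous (lY S i α Y) := by
  have : lY S i α Y = fun τ => ∑ v ∈ FV nm hfin Y, (vt nm (tv S i α) τ v + qv S α v (se i τ)) := by
    funext τ
    exact Finset.sum_congr rfl fun v _ => lv_edge hα v τ
  rw [this]
  exact continuous_finsetSum _ fun v _ => (continuous_vt _ v).add (continuous_qv hα v)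

/-- The tail of the sum of the squares. -/
lemma tail_small (ε : ℝ) (hε : 0 < ε) : ∃ Y₀ : ℕ, ∀ Y, Y₀ ≤ Y →
    ∑' v : {v : HeightOneSpectrum (𝓞 K) // v ∉ FV nm hfin Y},
      ((below v.1 : ℕ) : ℝ) ^ (-(2 : ℝ)) ≤ ε := by
  have h := tendsto_tsum_compl_atTop_zero
    (fun v : HeightOneSpectrum (𝓞 K) => ((below v : ℕ) : ℝ) ^ (-(2 : ℝ)))
  have h2 := h.comp (tendsto_FV (hfin (K := K)))
  have h3 := (Metric.tendsto_atTop.1 h2) ε hε
  obtain ⟨Y₀, hY₀⟩ := h3
  refine ⟨Y₀, fun Y hY => ?_⟩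
  have h4 := hY₀ Y hY
  rw [Real.dist_eq, sub_zero] at h4
  exact (le_abs_self _).trans h4.le

lemma norm_tail_le (f : HeightOneSpectrum (𝓞 K) → ℂ) (hf : ∀ v, ‖f v‖ ≤ N *
    ((below v : ℕ) : ℝ) ^ (-(2 : ℝ))) (Y : ℕ) :
    ‖∑' v, f v - ∑ v ∈ FV nm hfin Y, f v‖ ≤
      N * ∑' v : {v : HeightOneSpectrum (𝓞 K) // v ∉ FV nm hfin Y},
        ((below v.1 : ℕ) : ℝ) ^ (-(2 : ℝ)) := by
  have hs : Summable f :=
    Summable.of_norm_bounded ((below_sq_summable (K := K)).mul_left (N : ℝ)) hf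
  have h1 := hs.sum_add_tsum_subtype_compl (FV nm hfin Y)
  have h2 : ∑' v, f v - ∑ v ∈ FV nm hfin Y, f v =
      ∑' v : {v : HeightOneSpectrum (𝓞 K) // v ∉ FV nm hfin Y}, f v := by
    rw [← h1]
    ring
  rw [h2, ← tsum_mul_left]
  have hsb : Summable fun v : {v : HeightOneSpectrum (𝓞 K) // v ∉ FV nm hfin Y} =>
      (N : ℝ) * ((below v.1 : ℕ) : ℝ) ^ (-(2 : ℝ)) :=
    ((below_sq_summable (K := K)).mul_left (N : ℝ)).comp_injective Subtype.val_injective
  exact tsum_of_norm_bounded hsb.hasSum fun v => hf v.1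

/-- **Approximation in the Stepanov norm.** -/
theorem stepanov (hα : Wt S i α) (ε : ℝ) (hε : 0 < ε) : ∃ Y₀ : ℕ, ∀ Y, Y₀ ≤ Y → ∀ a : ℝ,
    ∫⁻ τ in Set.Ioc a (a + 1), ENNReal.ofReal (‖logB S i α τ - lY S i α Y τ‖ ^ 2) ≤
      ENNReal.ofReal ε := by
  have hCC := CC_pos
  have hN0 : (0 : ℝ) ≤ N := Nat.cast_nonneg N
  set D : ℝ := N * Module.finrank ℚ K with hD
  have hD0 : 0 ≤ D := by positivity
  -- the tail of the primes
  obtain ⟨M, hM⟩ := exists_nat_ge (4 * (144 * CC ^ 2 * D ^ 2) / ε)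
  set M1 := M + 1 with hM1
  have hM1' : 144 * CC ^ 2 * D ^ 2 / M1 ≤ ε / 4 := by
    have h0 : (0 : ℝ) < M1 := by rw [hM1]; positivity
    rw [div_le_div_iff₀ h0 (by norm_num)]
    rw [div_le_iff₀ hε] at hM
    have : (M : ℝ) ≤ M1 := by rw [hM1]; push_cast; linarith
    nlinarith
  obtain ⟨Y₁, hY₁⟩ := exists_nat_ge (Real.exp M1)
  -- the bounded part
  set η : ℝ := Real.sqrt ε / (4 * (N + 1)) with hη
  have hη0 : 0 < η := by positivity
  obtain ⟨Y₂, hY₂⟩ := tail_small (K := K) η hη0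
  refine ⟨max Y₁ Y₂, fun Y hY a => ?_⟩
  have hYa : Real.exp M1 ≤ Y := hY₁.trans (by exact_mod_cast (le_max_left _ _).trans hY)
  have h1 := tail_lim hD0 (norm_cp hα) (Flim S i α) (by
    filter_upwards [ae_notMem hα] with τ hτ
    exact tendsto_Flim hτ) (Y := Y) (K := M1) (by omega) hYa a
  have h2 : ∀ τ, ‖GG S i α τ - ∑ v ∈ FV nm hfin Y, (gv (tv S i α) τ v + qv S α v (se i τ))‖ ^ 2 ≤
      ε / 4 := by
    intro τ
    have h3 := norm_tail_le (N := N) (gv (tv S i α) τ) (norm_gv hN0 (norm_tv hα) τ) Y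
    have h4 := norm_tail_le (N := N) (fun v => qv S α v (se i τ))
      (fun v => norm_qv' hα v (se_re i τ).symm.le) Y
    have h5 := hY₂ Y ((le_max_right _ _).trans hY)
    have h6 : GG S i α τ - ∑ v ∈ FV nm hfin Y, (gv (tv S i α) τ v + qv S α v (se i τ)) =
        (∑' v, gv (tv S i α) τ v - ∑ v ∈ FV nm hfin Y, gv (tv S i α) τ v) +
          (∑' v, qv S α v (se i τ) - ∑ v ∈ FV nm hfin Y, qv S α v (se i τ)) := by
      unfold GG
      rw [Finset.sum_add_distrib]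
      ring
    have h7 : ‖GG S i α τ - ∑ v ∈ FV nm hfin Y, (gv (tv S i α) τ v + qv S α v (se i τ))‖ ≤
        Real.sqrt ε / 2 := by
      rw [h6]
      refine (norm_add_le _ _).trans ?_
      have h8 : (N : ℝ) * ∑' v : {v : HeightOneSpectrum (𝓞 K) // v ∉ FV nm hfin Y},
        ((below v.1 : ℕ) : ℝ) ^ (-(2 : ℝ)) ≤ N * η := mul_le_mul_of_nonneg_left h5 hN0
      have h9 : (N : ℝ) * η ≤ Real.sqrt ε / 4 := by
        rw [hη, mul_div_assoc', div_le_div_iff₀ (by positivity) (by norm_num)]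
        have := Real.sqrt_nonneg ε
        nlinarith
      linarith
    calc _ ≤ (Real.sqrt ε / 2) ^ 2 := pow_le_pow_left₀ (norm_nonneg _) h7 2
      _ = ε / 4 := by rw [div_pow, Real.sq_sqrt hε.le]; norm_num
  have h3 : ∀ τ, ENNReal.ofReal (‖logB S i α τ - lY S i α Y τ‖ ^ 2) ≤
      2 * ENNReal.ofReal (‖Flim S i α τ - ps (cp S i α) τ Y‖ ^ 2) + ENNReal.ofReal (ε / 2) := by
    intro τ
    rw [show (2 : ℝ≥0∞) = ENNReal.ofReal 2 by norm_num, ← ENNReal.ofReal_mul (by norm_num),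
      ← ENNReal.ofReal_add (by positivity) (by positivity)]
    refine ENNReal.ofReal_le_ofReal ?_
    have h4 : logB S i α τ - lY S i α Y τ = (Flim S i α τ - ps (cp S i α) τ Y) +
        (GG S i α τ - ∑ v ∈ FV nm hfin Y, (gv (tv S i α) τ v + qv S α v (se i τ))) := by
      rw [lY_eq hα]
      unfold logB
      ring
    have h5 := h2 τ
    rw [h4]
    set x := Flim S i α τ - ps (cp S i α) τ Y
    set y := GG S i α τ - ∑ v ∈ FV nm hfin Y, (gv (tv S i α) τ v + qv S α v (se i τ))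
    have h6 := norm_add_le x y
    have h7 : ‖x + y‖ ^ 2 ≤ (‖x‖ + ‖y‖) ^ 2 := pow_le_pow_left₀ (norm_nonneg _) h6 2
    nlinarith [sq_nonneg (‖x‖ - ‖y‖)]
  calc ∫⁻ τ in Set.Ioc a (a + 1), ENNReal.ofReal (‖logB S i α τ - lY S i α Y τ‖ ^ 2)
      ≤ ∫⁻ τ in Set.Ioc a (a + 1), (2 * ENNReal.ofReal (‖Flim S i α τ - ps (cp S i α) τ Y‖ ^ 2) +
          ENNReal.ofReal (ε / 2)) := lintegral_mono fun τ => h3 τ
    _ = 2 * (∫⁻ τ in Set.Ioc a (a + 1), ENNReal.ofReal (‖Flim S i α τ - ps (cp S i α) τ Y‖ ^ 2)) +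
          ENNReal.ofReal (ε / 2) := by
        rw [lintegral_add_right _ measurable_const, lintegral_const_mul' _ _ (by norm_num)]
        simp
    _ ≤ 2 * ENNReal.ofReal (ε / 4) + ENNReal.ofReal (ε / 2) := by
        gcongr
        exact h1.trans (ENNReal.ofReal_le_ofReal hM1')
    _ = ENNReal.ofReal ε := by
        rw [show (2 : ℝ≥0∞) = ENNReal.ofReal 2 by norm_num, ← ENNReal.ofReal_mul (by norm_num),
          ← ENNReal.ofReal_add (by positivity) (by positivity)]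
        congr 1
        ring

end main

end Run7.h522.BM
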